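import Mathlib
import Pool.Agent.Lib.MP_cecf76_co.Core
import Pool.Agent.Lib.MP_cecf76_co.Grid.Stmts
import Pool.Agent.Lib.MP_cecf76_co.Half.Gauss

set_option autoImplicit false

/-! Statements of the modules for half space systems: near-antipodal pairs of unit vectors. -/

namespace Pool.Agent.Lib.MP_cecf76_co.HS

open Finset Classical

/-- A1. Local growth at one scale `ρ` gives a large subset without near-antipodal pairs. -/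
def CoreStmt : Prop := ∀ (N : ℕ) (ι : Type) [Fintype ι] (x : ι → EuclideanSpace ℝ (Fin N))
  (Z : Finset (EuclideanSpace ℝ (Fin N))) (θ ρ κ : ℝ), (∀ i, ‖x i‖ = 1) → (∀ z ∈ Z, ‖z‖ = 1) →
  (∀ z ∈ Z, -z ∈ Z) → 0 < θ → 16 * θ ≤ ρ → ρ ≤ 1 → 0 ≤ κ →
  (∀ i, ∃ z ∈ Z, ‖x i - z‖ ≤ ρ / 8) →
  (∀ i, ((Z.filter (fun z => ‖x i - z‖ < ρ)).card : ℝ) ≤ Real.exp κ) →
  ∃ I : Finset ι, (Fintype.card ι : ℝ) * Real.exp (-(40 + 1024 * κ * θ ^ 2)) ≤ (I.card : ℝ) ∧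
    ∀ i ∈ I, ∀ j ∈ I, θ < ‖x i + x j‖

/-- A2. The pigeonhole over `K` scales and over the mass classes. -/
def GrowthStmt : Prop := ∀ (N m K : ℕ) (x : Fin m → EuclideanSpace ℝ (Fin N)) (θ : ℝ),
  0 < m → 0 < K → (∀ i, ‖x i‖ = 1) → 0 < θ → 16 * θ * 32 ^ (K - 1) ≤ 1 →
  ∃ I : Finset (Fin m),
    (m : ℝ) * Real.exp (-(42 + 1024 * θ ^ 2 * (Real.log (2 * m) / K + 1))) ≤
      K * (Real.log m + 3) * (I.card : ℝ) ∧
    ∀ i ∈ I, ∀ j ∈ I, θ < ‖x i + x j‖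

/-- The Gaussian measure of the intersection of two half spaces at height `t`. -/
noncomputable def mu2 {N : ℕ} (t : ℝ) (u v : EuclideanSpace ℝ (Fin N)) : ℝ :=
  (Half.gau N).real {g | t ≤ ∑ i, g i * u i ∧ t ≤ ∑ i, g i * v i}

/-- A3. Bounds for this measure. -/
def CapStmt : Prop := ∀ (N : ℕ) (u v : EuclideanSpace ℝ (Fin N)) (t : ℝ), 0 < t → ‖u‖ = 1 →
  ‖v‖ = 1 → mu2 t u v * Real.exp (2 * t ^ 2 / ‖u + v‖ ^ 2) ≤ 1 ∧ (u + v = 0 → mu2 t u v = 0) ∧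
    (u + v ≠ 0 → 1 / 4 * Real.exp (-(4 * (t + 3) ^ 2 / ‖u + v‖ ^ 2)) ≤ mu2 t u v)

/-- A4. The grid, normalised. -/
def GridStmt : Prop := ∀ (q N : ℕ) (η : ℝ), 8 ≤ q → 0 < N → 0 < η → η < 1 / 32 →
  8 ≤ η * (q : ℝ) ^ 2 →
  ∀ m : ℕ, q ^ N ≤ m → ∃ x : Fin m → EuclideanSpace ℝ (Fin N), (∀ i, ‖x i‖ = 1) ∧
    ∀ I : Finset (Fin m), (∀ i ∈ I, ∀ j ∈ I, i ≠ j → 128 * η < ‖x i + x j‖ ^ 2) →
      (I.card : ℝ) ≤ 12 * m * Real.exp (-(η * N / 64))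

/-- B2. Biased product measures on blocks (Kneser type systems): sharp for `n ≤ log m`. -/
def KnStmt : Prop := ∀ (n m : ℕ) (c ε : ℝ), 0 < n → 0 < m → 0 < ε → ε ≤ c → c < 1 / 2 →
  (f n m c ε : ℝ) ≤ 6 / (1 / 2 - c) ^ 2 * m * Real.exp (-(ε / 2 *
    Real.log ((3 - 2 * c) / (1 + 2 * c)) * min (n : ℝ) (Real.log m)))

/-- B1. The grid bound with the Poisson tail: `Λ` grows with `log m / (ε n)`. -/
def WideStmt : Prop := ∀ (n m : ℕ) (c ε X Λ : ℝ), 0 < n → 0 < m → 0 < ε → ε ≤ c → c < 1 / 2 →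
  X = min (Real.log m) ((1 / 2 - c) ^ 2 / 16 * n) →
  Λ = 64 * (Real.log (8 / ε) + 3 * X / (ε * n)) / (1 / 2 - c) ^ 2 →
  (f n m c ε : ℝ) ≤ 13 * m * Real.exp (-(X / (32 * Λ * Real.log (9 * Λ))))

end Pool.Agent.Lib.MP_cecf76_co.HS
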