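import Mathlib
import Pool.Agent.Lib.MP_cecf76_co.HS.Stmts

set_option autoImplicit false

/-! Row A1: the odd Lipschitz function of a Gaussian vector, deterministic part. -/

namespace Pool.Agent.Lib.MP_cecf76_co.HS.A1

open Finset MeasureTheory Half

variable {N : ℕ}

/-- The linear functional of `g` at `z`. -/
noncomputable def D (g : Fin N → ℝ) (z : EuclideanSpace ℝ (Fin N)) : ℝ := dot g (fun k => z k)

lemma D_sub (g : Fin N → ℝ) (z w : EuclideanSpace ℝ (Fin N)) : D g (z - w) = D g z - D g w := by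
  simp only [D, dot, PiLp.sub_apply, mul_sub, Finset.sum_sub_distrib]

lemma D_neg (g : Fin N → ℝ) (z : EuclideanSpace ℝ (Fin N)) : D g (-z) = - D g z := by
  simp only [D, dot, PiLp.neg_apply, mul_neg, Finset.sum_neg_distrib]

lemma D_neg_left (g : Fin N → ℝ) (z : EuclideanSpace ℝ (Fin N)) : D (-g) z = - D g z := by
  simp only [D, dot, Pi.neg_apply, neg_mul, Finset.sum_neg_distrib]

lemma D_add_left (g : Fin N → ℝ) (s : ℝ) (x z : EuclideanSpace ℝ (Fin N)) :
    D (g + fun k => s * x k) z = D g z + s * inner ℝ x z := by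
  have h : inner ℝ x z = ∑ k, x k * z k := by
    rw [PiLp.inner_apply]
    apply Finset.sum_congr rfl
    intro k _
    simp [mul_comm]
  rw [h]
  simp only [D, dot, Pi.add_apply, add_mul, Finset.sum_add_distrib, Finset.mul_sum]
  congr 1
  apply Finset.sum_congr rfl
  intro k _
  ring

lemma continuous_D (z : EuclideanSpace ℝ (Fin N)) :
    Continuous (fun g : Fin N → ℝ => D g z) := by
  unfold D dot
  fun_prop

/-- The clamp. -/
noncomputable def cl (B t : ℝ) : ℝ := max (-B) (min B t)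

lemma cl_le {B t : ℝ} (hB : 0 ≤ B) : cl B t ≤ B := by
  unfold cl
  exact max_le (by linarith) (min_le_left _ _)

lemma le_cl {B t : ℝ} : -B ≤ cl B t := le_max_left _ _

lemma cl_neg {B t : ℝ} (hB : 0 ≤ B) : cl B (-t) = - cl B t := by
  unfold cl
  rcases le_total t B with h1 | h1 <;> rcases le_total (-B) t with h2 | h2
  · have e1 : min B t = t := min_eq_right h1
    have e2 : max (-B) t = t := max_eq_right h2
    have e3 : min B (-t) = -t := min_eq_right (by linarith)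
    have e4 : max (-B) (-t) = -t := max_eq_right (by linarith)
    rw [e1, e2, e3, e4]
  · have e1 : min B t = t := min_eq_right h1
    have e2 : max (-B) t = -B := max_eq_left h2
    have e3 : min B (-t) = B := min_eq_left (by linarith)
    have e4 : max (-B) B = B := max_eq_right (by linarith)
    rw [e1, e2, e3, e4, neg_neg]
  · have e1 : min B t = B := min_eq_left h1
    have e2 : max (-B) B = B := max_eq_right (by linarith)
    have e3 : min B (-t) = -t := min_eq_right (by linarith)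
    have e4 : max (-B) (-t) = -B := max_eq_left (by linarith)
    rw [e1, e2, e3, e4]
  · have hB0 : B = 0 := by linarith
    have ht : t = 0 := by linarith
    simp [hB0, ht]

lemma cl_eq {B t : ℝ} (h : |t| ≤ B) : cl B t = t := by
  unfold cl
  rw [min_eq_right (abs_le.mp h).2, max_eq_right (abs_le.mp h).1]

lemma continuous_cl (B : ℝ) : Continuous (cl B) := by
  unfold cl
  fun_prop

/-- The infimal convolution. -/
noncomputable def hh (Z : Finset (EuclideanSpace ℝ (Fin N))) (hZ : Z.Nonempty) (B L : ℝ)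
    (g : Fin N → ℝ) (y : EuclideanSpace ℝ (Fin N)) : ℝ :=
  Z.inf' hZ (fun z => cl B (D g z) + L * ‖z - y‖)

/-- The odd function. -/
noncomputable def GG (Z : Finset (EuclideanSpace ℝ (Fin N))) (hZ : Z.Nonempty) (B L : ℝ)
    (g : Fin N → ℝ) (y : EuclideanSpace ℝ (Fin N)) : ℝ :=
  (hh Z hZ B L g y - hh Z hZ B L g (-y)) / 2

variable (Z : Finset (EuclideanSpace ℝ (Fin N))) (hZ : Z.Nonempty) (B L : ℝ)

lemma hh_lip (hL : 0 ≤ L) (g : Fin N → ℝ) (y y' : EuclideanSpace ℝ (Fin N)) :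
    hh Z hZ B L g y ≤ hh Z hZ B L g y' + L * ‖y - y'‖ := by
  obtain ⟨z, hz, hz2⟩ := Finset.exists_mem_eq_inf' hZ (fun z => cl B (D g z) + L * ‖z - y'‖)
  have h1 : hh Z hZ B L g y ≤ cl B (D g z) + L * ‖z - y‖ := Finset.inf'_le _ hz
  have h2 : hh Z hZ B L g y' = cl B (D g z) + L * ‖z - y'‖ := hz2
  have h3 : ‖z - y‖ ≤ ‖z - y'‖ + ‖y - y'‖ := by
    have : z - y = (z - y') - (y - y') := by abel
    rw [this]
    exact norm_sub_le _ _
  have h4 := mul_le_mul_of_nonneg_left h3 hL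
  rw [h2]
  linarith

lemma GG_lip (hL : 0 ≤ L) (g : Fin N → ℝ) (y y' : EuclideanSpace ℝ (Fin N)) :
    GG Z hZ B L g y - GG Z hZ B L g y' ≤ L * ‖y - y'‖ := by
  have h1 := hh_lip Z hZ B L hL g y y'
  have h2 := hh_lip Z hZ B L hL g (-y') (-y)
  have h3 : ‖-y' - -y‖ = ‖y - y'‖ := by
    congr 1
    abel
  rw [h3] at h2
  unfold GG
  linarith

lemma GG_neg (g : Fin N → ℝ) (y : EuclideanSpace ℝ (Fin N)) :
    GG Z hZ B L g (-y) = - GG Z hZ B L g y := by
  unfold GG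
  rw [neg_neg]
  ring

lemma hh_neg_le (hs : ∀ z ∈ Z, -z ∈ Z) (g : Fin N → ℝ)
    (y : EuclideanSpace ℝ (Fin N)) :
    hh Z hZ B L (-g) y ≤ hh Z hZ B L g (-y) := by
  obtain ⟨z, hz, hz2⟩ := Finset.exists_mem_eq_inf' hZ (fun z => cl B (D g z) + L * ‖z - -y‖)
  have h1 : hh Z hZ B L (-g) y ≤ cl B (D (-g) (-z)) + L * ‖-z - y‖ := Finset.inf'_le _ (hs z hz)
  have h2 : hh Z hZ B L g (-y) = cl B (D g z) + L * ‖z - -y‖ := hz2
  have h3 : ‖-z - y‖ = ‖z - -y‖ := by
    rw [← norm_neg]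
    congr 1
    abel
  rw [D_neg, D_neg_left, neg_neg, h3] at h1
  rw [h2]
  exact h1

lemma hh_neg (hs : ∀ z ∈ Z, -z ∈ Z) (g : Fin N → ℝ)
    (y : EuclideanSpace ℝ (Fin N)) :
    hh Z hZ B L (-g) y = hh Z hZ B L g (-y) := by
  apply le_antisymm (hh_neg_le Z hZ B L hs g y)
  have h := hh_neg_le Z hZ B L hs (-g) (-y)
  rw [neg_neg, neg_neg] at h
  exact h

lemma GG_neg_left (hs : ∀ z ∈ Z, -z ∈ Z) (g : Fin N → ℝ)
    (y : EuclideanSpace ℝ (Fin N)) :
    GG Z hZ B L (-g) y = - GG Z hZ B L g y := by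
  unfold GG
  rw [hh_neg Z hZ B L hs, hh_neg Z hZ B L hs, neg_neg]
  ring

lemma continuous_hh (y : EuclideanSpace ℝ (Fin N)) :
    Continuous (fun g : Fin N → ℝ => hh Z hZ B L g y) := by
  unfold hh
  apply Continuous.finset_inf'_apply
  intro z _
  exact ((continuous_cl B).comp (continuous_D z)).add continuous_const

lemma continuous_GG (y : EuclideanSpace ℝ (Fin N)) :
    Continuous (fun g : Fin N → ℝ => GG Z hZ B L g y) := by
  unfold GG
  exact ((continuous_hh Z hZ B L y).sub (continuous_hh Z hZ B L (-y))).div_const 2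

/-- The minimiser is near. -/
lemma near_min {ρ : ℝ} (hρ : 0 < ρ) (hB : 0 < B) (hL : L = 4 * B / ρ) (g : Fin N → ℝ)
    (y : EuclideanSpace ℝ (Fin N)) (hy : ∃ z ∈ Z, ‖y - z‖ ≤ ρ / 8) :
    ∃ z ∈ Z, ‖y - z‖ < ρ ∧ hh Z hZ B L g y = cl B (D g z) + L * ‖z - y‖ := by
  obtain ⟨z, hz, hz2⟩ := Finset.exists_mem_eq_inf' hZ (fun z => cl B (D g z) + L * ‖z - y‖)
  refine ⟨z, hz, ?_, hz2⟩
  obtain ⟨w, hw, hw2⟩ := hy
  have h1 : hh Z hZ B L g y ≤ cl B (D g w) + L * ‖w - y‖ := Finset.inf'_le _ hw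
  have h2 : hh Z hZ B L g y = cl B (D g z) + L * ‖z - y‖ := hz2
  by_contra hcon
  rw [not_lt] at hcon
  have hLρ : L * ρ = 4 * B := by
    rw [hL]
    field_simp
  have hL0 : 0 ≤ L := by rw [hL]; positivity
  have h3 : 4 * B ≤ L * ‖z - y‖ := by
    rw [← hLρ, norm_sub_rev]
    exact mul_le_mul_of_nonneg_left hcon hL0
  have h4 : L * ‖w - y‖ ≤ B / 2 := by
    rw [norm_sub_rev]
    calc L * ‖y - w‖ ≤ L * (ρ / 8) := mul_le_mul_of_nonneg_left hw2 hL0
      _ = B / 2 := by rw [mul_div_assoc', hLρ]; ring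
  have h5 := cl_le (t := D g w) hB.le
  have h6 := le_cl (B := B) (t := D g z)
  linarith

lemma inner_near {x z : EuclideanSpace ℝ (Fin N)} (hx : ‖x‖ = 1) (hz : ‖z‖ = 1)
    (h : ‖x - z‖ ≤ 1) : 1 / 2 ≤ inner ℝ x z ∧ inner ℝ x z ≤ 1 := by
  have h1 := norm_sub_sq_real x z
  have h2 : ‖x - z‖ ^ 2 ≤ 1 := by
    have := norm_nonneg (x - z)
    nlinarith
  have h3 := sq_nonneg ‖x - z‖
  rw [hx, hz] at h1
  constructor <;> nlinarith

/-- The shift. -/
lemma shift_GG {ρ s : ℝ} (hρ : 0 < ρ) (hρ1 : ρ ≤ 1) (hB : 0 < B) (hs0 : 0 ≤ s)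
    (hL : L = 4 * B / ρ) (hZ1 : ∀ z ∈ Z, ‖z‖ = 1) (hsym : ∀ z ∈ Z, -z ∈ Z) (g : Fin N → ℝ)
    (x : EuclideanSpace ℝ (Fin N)) (hx : ‖x‖ = 1) (hnet : ∃ z ∈ Z, ‖x - z‖ ≤ ρ / 8)
    (hE : ∀ z ∈ Z, ‖x - z‖ < ρ → |D g z| ≤ B - s) :
    GG Z hZ B L g x + s / 2 ≤ GG Z hZ B L (g + fun k => s * x k) x := by
  have key : ∀ z ∈ Z, ‖x - z‖ < ρ →
      cl B (D g z) + s / 2 ≤ cl B (D (g + fun k => s * x k) z) := by
    intro z hz hn
    have h1 := hE z hz hn
    obtain ⟨h2, h3⟩ := inner_near hx (hZ1 z hz) (hn.le.trans hρ1)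
    rw [D_add_left, cl_eq (h1.trans (by linarith)), cl_eq]
    · nlinarith
    · have h4 := abs_le.mp h1
      rw [abs_le]
      constructor
      · nlinarith [h4.1]
      · nlinarith [h4.2]
  -- the value at x
  have hA : hh Z hZ B L g x + s / 2 ≤ hh Z hZ B L (g + fun k => s * x k) x := by
    obtain ⟨z, hz, hn, he⟩ := near_min Z hZ B L hρ hB hL (g + fun k => s * x k) x hnet
    have h1 : hh Z hZ B L g x ≤ cl B (D g z) + L * ‖z - x‖ := Finset.inf'_le _ hz
    have h2 := key z hz hn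
    rw [he]
    linarith
  -- the value at -x
  have hC : hh Z hZ B L (g + fun k => s * x k) (-x) ≤ hh Z hZ B L g (-x) - s / 2 := by
    have hnet2 : ∃ z ∈ Z, ‖-x - z‖ ≤ ρ / 8 := by
      obtain ⟨z, hz, hn⟩ := hnet
      refine ⟨-z, hsym z hz, ?_⟩
      have : -x - -z = -(x - z) := by abel
      rw [this, norm_neg]
      exact hn
    obtain ⟨z, hz, hn, he⟩ := near_min Z hZ B L hρ hB hL g (-x) hnet2
    have hn2 : ‖x - -z‖ < ρ := by
      have : x - -z = -(-x - z) := by abel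
      rw [this, norm_neg]
      exact hn
    have h1 : hh Z hZ B L (g + fun k => s * x k) (-x) ≤
        cl B (D (g + fun k => s * x k) z) + L * ‖z - -x‖ := Finset.inf'_le _ hz
    have h2 := key (-z) (hsym z hz) hn2
    rw [D_neg, D_neg, cl_neg hB.le, cl_neg hB.le] at h2
    rw [he]
    linarith
  unfold GG
  linarith

end Pool.Agent.Lib.MP_cecf76_co.HS.A1
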