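import Mathlib
import Pool.Agent.Lib.MP_cecf76_co.HS.A1_87

set_option autoImplicit false

/-! Row A1: the odd Lipschitz function of a Gaussian vector, probabilities. -/

namespace Pool.Agent.Lib.MP_cecf76_co.HS.A1

open Finset MeasureTheory Half

variable {N : ℕ}

lemma D_smul (g : Fin N → ℝ) (l : ℝ) (z : EuclideanSpace ℝ (Fin N)) :
    dot g (fun k => l * z k) = l * D g z := by
  simp only [D, dot, Finset.mul_sum]
  apply Finset.sum_congr rfl
  intro k _
  ring

lemma sum_sq_eq (l : ℝ) (z : EuclideanSpace ℝ (Fin N)) :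
    ∑ k, (l * z k) ^ 2 = l ^ 2 * ‖z‖ ^ 2 := by
  rw [EuclideanSpace.real_norm_sq_eq, Finset.mul_sum]
  apply Finset.sum_congr rfl
  intro k _
  ring

lemma onetail {r t : ℝ} (a : EuclideanSpace ℝ (Fin N)) (ha : ‖a‖ ≤ r) (hr : 0 < r) (ht : 0 < t) :
    (gau N).real {g | t ≤ D g a} ≤ Real.exp (-(t ^ 2 / (2 * r ^ 2))) := by
  set l : ℝ := t / r ^ 2 with hl
  have hl0 : 0 < l := by positivity
  have hint : Integrable (fun g => Real.exp (dot g (fun k => l * a k))) (gau N) :=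
    integrable_exp_dot _
  have h1 := mul_meas_ge_le_integral_of_nonneg
    (Filter.Eventually.of_forall (fun g => (Real.exp_pos _).le)) hint (Real.exp (l * t))
  rw [integral_exp_dot, sum_sq_eq] at h1
  have h2 : (gau N).real {g | t ≤ D g a} ≤
      (gau N).real {g | Real.exp (l * t) ≤ Real.exp (dot g (fun k => l * a k))} := by
    refine measureReal_mono (fun g hg => ?_)
    simp only [Set.mem_ofPred_eq] at hg ⊢
    rw [D_smul]
    exact Real.exp_le_exp.mpr (mul_le_mul_of_nonneg_left hg hl0.le)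
  have h3 : l ^ 2 * ‖a‖ ^ 2 / 2 ≤ l * t - t ^ 2 / (2 * r ^ 2) := by
    have h4 : ‖a‖ ^ 2 ≤ r ^ 2 := by
      have := norm_nonneg a
      nlinarith
    have h5 : l ^ 2 * ‖a‖ ^ 2 ≤ l ^ 2 * r ^ 2 := mul_le_mul_of_nonneg_left h4 (sq_nonneg l)
    have h6 : l ^ 2 * r ^ 2 = t ^ 2 / r ^ 2 := by
      rw [hl]
      field_simp
    have h7 : l * t = t ^ 2 / r ^ 2 := by
      rw [hl]
      field_simp
    have h8 : t ^ 2 / (2 * r ^ 2) = (t ^ 2 / r ^ 2) / 2 := by
      field_simp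
    rw [h7, h8]
    rw [h6] at h5
    linarith
  have h4 : Real.exp (l * t) * (gau N).real {g | t ≤ D g a} ≤
      Real.exp (l * t) * Real.exp (-(t ^ 2 / (2 * r ^ 2))) := by
    calc Real.exp (l * t) * (gau N).real {g | t ≤ D g a}
        ≤ Real.exp (l ^ 2 * ‖a‖ ^ 2 / 2) :=
          le_trans (mul_le_mul_of_nonneg_left h2 (Real.exp_pos _).le) h1
      _ ≤ Real.exp (l * t - t ^ 2 / (2 * r ^ 2)) := Real.exp_le_exp.mpr h3
      _ = Real.exp (l * t) * Real.exp (-(t ^ 2 / (2 * r ^ 2))) := by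
          rw [← Real.exp_add]
          congr 1
  exact le_of_mul_le_mul_left h4 (Real.exp_pos _)

lemma tail {r t : ℝ} (a : EuclideanSpace ℝ (Fin N)) (ha : ‖a‖ ≤ r) (hr : 0 < r) (ht : 0 < t) :
    (gau N).real {g | t < |D g a|} ≤ 2 * Real.exp (-(t ^ 2 / (2 * r ^ 2))) := by
  have h1 := onetail a ha hr ht
  have h2 := onetail (-a) (by rw [norm_neg]; exact ha) hr ht
  have h3 : (gau N).real {g | t < |D g a|} ≤
      (gau N).real ({g | t ≤ D g a} ∪ {g | t ≤ D g (-a)}) := by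
    refine measureReal_mono (fun g hg => ?_)
    simp only [Set.mem_ofPred_eq, Set.mem_union, D_neg] at hg ⊢
    rcases lt_abs.mp hg with h | h
    · exact Or.inl h.le
    · exact Or.inr h.le
  have h4 := measureReal_union_le (μ := gau N) {g | t ≤ D g a} {g | t ≤ D g (-a)}
  linarith

lemma exp_small : 2 * Real.exp (-(9 / 2)) + 2 * Real.exp (-4) ≤ (1 : ℝ) / 4 := by
  have h1 : Real.exp (-(9 / 2)) ≤ Real.exp (-4) := Real.exp_le_exp.mpr (by norm_num)
  have h2 : Real.exp (-4) = (Real.exp (-1)) ^ 4 := by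
    rw [← Real.exp_nat_mul]
    norm_num
  have h3 : Real.exp (-1) ≤ 1 / 2 := by
    have h4 := Real.exp_one_gt_d9
    rw [Real.exp_neg, inv_eq_one_div]
    apply one_div_le_one_div_of_le (by norm_num) (by linarith)
  have h5 : (Real.exp (-1)) ^ 4 ≤ (1 / 2) ^ 4 :=
    pow_le_pow_left₀ (Real.exp_pos _).le h3 4
  norm_num at h5
  rw [h2] at h1 ⊢
  linarith

/-- The bad event. -/
lemma bad_le (Z : Finset (EuclideanSpace ℝ (Fin N))) {ρ κ c : ℝ} (hρ : 0 < ρ) (hκ : 0 ≤ κ)
    (x : EuclideanSpace ℝ (Fin N)) (hx : ‖x‖ = 1)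
    (hc : 3 + ρ * Real.sqrt (2 * κ + 8) ≤ c)
    (hcard : ((Z.filter (fun z => ‖x - z‖ < ρ)).card : ℝ) ≤ Real.exp κ) :
    (gau N).real {g | ∃ z ∈ Z, ‖x - z‖ < ρ ∧ c < |D g z|} ≤ 1 / 4 := by
  classical
  set T : ℝ := ρ * Real.sqrt (2 * κ + 8) with hT
  have hs0 : 0 < Real.sqrt (2 * κ + 8) := Real.sqrt_pos.mpr (by linarith)
  have hT0 : 0 < T := by positivity
  have hsub : {g : Fin N → ℝ | ∃ z ∈ Z, ‖x - z‖ < ρ ∧ c < |D g z|} ⊆
      {g | 3 < |D g x|} ∪ ⋃ z ∈ Z.filter (fun z => ‖x - z‖ < ρ), {g | T < |D g (z - x)|} := by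
    rintro g ⟨z, hz, hn, hg⟩
    by_cases h3 : 3 < |D g x|
    · exact Or.inl h3
    · right
      rw [not_lt] at h3
      simp only [Set.mem_iUnion, Set.mem_ofPred_eq, exists_prop]
      refine ⟨z, Finset.mem_filter.mpr ⟨hz, hn⟩, ?_⟩
      have h4 : |D g z| ≤ |D g x| + |D g (z - x)| := by
        have : D g z = D g x + D g (z - x) := by rw [D_sub]; ring
        rw [this]
        exact abs_add_le _ _
      linarith
  have h1 : (gau N).real {g | ∃ z ∈ Z, ‖x - z‖ < ρ ∧ c < |D g z|} ≤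
      (gau N).real {g | 3 < |D g x|} +
      (gau N).real (⋃ z ∈ Z.filter (fun z => ‖x - z‖ < ρ), {g | T < |D g (z - x)|}) :=
    (measureReal_mono hsub).trans (measureReal_union_le _ _)
  have h2 : (gau N).real {g | 3 < |D g x|} ≤ 2 * Real.exp (-(9 / 2)) := by
    have h := tail (r := 1) (t := 3) x hx.le one_pos (by norm_num)
    norm_num at h ⊢
    exact h
  have h3 : (gau N).real (⋃ z ∈ Z.filter (fun z => ‖x - z‖ < ρ), {g | T < |D g (z - x)|}) ≤
      ∑ z ∈ Z.filter (fun z => ‖x - z‖ < ρ), 2 * Real.exp (-(κ + 4)) := by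
    refine (measureReal_biUnion_finset_le _ _).trans (Finset.sum_le_sum ?_)
    intro z hz
    have hn := (Finset.mem_filter.mp hz).2
    have h := tail (r := ρ) (t := T) (z - x) (by rw [norm_sub_rev]; exact hn.le) hρ hT0
    have e : T ^ 2 / (2 * ρ ^ 2) = κ + 4 := by
      rw [hT, mul_pow, Real.sq_sqrt (by linarith)]
      field_simp
      ring
    rw [e] at h
    exact h
  rw [Finset.sum_const, nsmul_eq_mul] at h3
  have h4 : ((Z.filter (fun z => ‖x - z‖ < ρ)).card : ℝ) * (2 * Real.exp (-(κ + 4))) ≤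
      2 * Real.exp (-4) := by
    calc ((Z.filter (fun z => ‖x - z‖ < ρ)).card : ℝ) * (2 * Real.exp (-(κ + 4)))
        ≤ Real.exp κ * (2 * Real.exp (-(κ + 4))) :=
          mul_le_mul_of_nonneg_right hcard (by positivity)
      _ = 2 * (Real.exp κ * Real.exp (-(κ + 4))) := by ring
      _ = 2 * Real.exp (-4) := by
          rw [← Real.exp_add]
          congr 2
          ring
  have h5 := exp_small
  linarith


/-- The probability that a fixed index is chosen. -/
lemma prob_ge (Z : Finset (EuclideanSpace ℝ (Fin N))) (hZ : Z.Nonempty) {θ ρ κ : ℝ}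
    (hθ : 0 < θ) (hθρ : 16 * θ ≤ ρ) (hρ1 : ρ ≤ 1) (hκ : 0 ≤ κ)
    (hZ1 : ∀ z ∈ Z, ‖z‖ = 1) (hsym : ∀ z ∈ Z, -z ∈ Z)
    (x : EuclideanSpace ℝ (Fin N)) (hx : ‖x‖ = 1) (hnet : ∃ z ∈ Z, ‖x - z‖ ≤ ρ / 8)
    (hcard : ((Z.filter (fun z => ‖x - z‖ < ρ)).card : ℝ) ≤ Real.exp κ) {B L : ℝ}
    (hB : B = 2 * (3 + ρ * Real.sqrt (2 * κ + 8))) (hL : L = 4 * B / ρ) :
    Real.exp (-(40 + 1024 * κ * θ ^ 2)) ≤
      (gau N).real {g | L * θ / 2 < GG Z hZ B L g x} := by
  have hρ : 0 < ρ := by linarith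
  set S : ℝ := Real.sqrt (2 * κ + 8) with hS
  have hS0 : 0 < S := Real.sqrt_pos.mpr (by linarith)
  have hSS : S ^ 2 = 2 * κ + 8 := Real.sq_sqrt (by linarith)
  have hB0 : 0 < B := by rw [hB]; positivity
  have hL0 : 0 < L := by rw [hL]; positivity
  set s : ℝ := 2 * (L * θ) with hs
  have hs0 : 0 < s := by positivity
  -- bounds for the shift
  have hsB : s ≤ B / 2 := by
    have e : s = B * (8 * θ / ρ) := by
      rw [hs, hL]
      field_simp
      ring
    have h1 : 8 * θ / ρ ≤ 1 / 2 := by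
      rw [div_le_iff₀ hρ]
      linarith
    rw [e]
    nlinarith
  have hs3 : s ≤ 3 + 16 * θ * S := by
    have e : s = 48 * θ / ρ + 16 * θ * S := by
      rw [hs, hL, hB]
      field_simp
      ring
    have h1 : 48 * θ / ρ ≤ 3 := by
      rw [div_le_iff₀ hρ]
      linarith
    rw [e]
    linarith
  have hs4 : s ^ 2 ≤ 34 + 1024 * κ * θ ^ 2 := by
    have h1 : s ^ 2 ≤ (3 + 16 * θ * S) ^ 2 := pow_le_pow_left₀ hs0.le hs3 2
    have h2 : (3 + 16 * θ * S) ^ 2 ≤ 18 + 512 * θ ^ 2 * S ^ 2 := by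
      nlinarith [sq_nonneg (3 - 16 * θ * S)]
    have h3 : 16 * θ ≤ 1 := by linarith
    have h4 : θ ^ 2 ≤ 1 / 256 := by nlinarith
    rw [hSS] at h2
    nlinarith
  -- the event
  have hcont : Continuous (fun g : Fin N → ℝ => GG Z hZ B L g x) := continuous_GG Z hZ B L x
  have hmE : MeasurableSet {g : Fin N → ℝ | L * θ / 2 < GG Z hZ B L g x} :=
    (isOpen_lt continuous_const hcont).measurableSet
  have hm0 : MeasurableSet {g : Fin N → ℝ | 0 ≤ GG Z hZ B L g x} :=
    (isClosed_le continuous_const hcont).measurableSet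
  -- half of the probability
  have hhalf : 1 / 2 ≤ (gau N).real {g : Fin N → ℝ | 0 ≤ GG Z hZ B L g x} := by
    have h1 := gau_neg_real hm0
    have h2 : {g : Fin N → ℝ | -g ∈ {g : Fin N → ℝ | 0 ≤ GG Z hZ B L g x}} =
        {g : Fin N → ℝ | GG Z hZ B L g x ≤ 0} := by
      ext g
      simp only [Set.mem_ofPred_eq]
      rw [GG_neg_left Z hZ B L hsym]
      constructor <;> intro h <;> linarith
    rw [h2] at h1
    have h3 : (gau N).real (Set.univ : Set (Fin N → ℝ)) ≤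
        (gau N).real ({g : Fin N → ℝ | GG Z hZ B L g x ≤ 0} ∪
          {g : Fin N → ℝ | 0 ≤ GG Z hZ B L g x}) := by
      refine measureReal_mono (fun g _ => ?_)
      rcases le_total (GG Z hZ B L g x) 0 with h | h
      · exact Or.inl h
      · exact Or.inr h
    have h4 := measureReal_union_le (μ := gau N) {g : Fin N → ℝ | GG Z hZ B L g x ≤ 0}
      {g : Fin N → ℝ | 0 ≤ GG Z hZ B L g x}
    rw [probReal_univ] at h3
    linarith
  -- the bad event
  have hbad : (gau N).real {g | ∃ z ∈ Z, ‖x - z‖ < ρ ∧ B - s < |D g z|} ≤ 1 / 4 := by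
    refine bad_le Z hρ hκ x hx ?_ hcard
    have : B / 2 = 3 + ρ * S := by rw [hB]; ring
    linarith
  -- the good event is inside the shifted event
  have hincl : (gau N).real {g : Fin N → ℝ | 0 ≤ GG Z hZ B L g x} ≤
      (gau N).real {g | ∃ z ∈ Z, ‖x - z‖ < ρ ∧ B - s < |D g z|} +
      (gau N).real {g | g + (fun k => s * x k) ∈
        {g : Fin N → ℝ | L * θ / 2 < GG Z hZ B L g x}} := by
    refine le_trans (measureReal_mono (fun g hg => ?_)) (measureReal_union_le _ _)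
    by_cases hb : ∃ z ∈ Z, ‖x - z‖ < ρ ∧ B - s < |D g z|
    · exact Or.inl hb
    · right
      simp only [Set.mem_ofPred_eq] at hg ⊢
      have hE : ∀ z ∈ Z, ‖x - z‖ < ρ → |D g z| ≤ B - s := by
        intro z hz hn
        by_contra hcon
        exact hb ⟨z, hz, hn, not_le.mp hcon⟩
      have h1 := shift_GG Z hZ B L hρ hρ1 hB0 hs0.le hL hZ1 hsym g x hx hnet hE
      have h2 : L * θ / 2 < s / 2 := by
        rw [hs]
        have : 0 < L * θ := by positivity
        linarith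
      linarith
  have hq : 1 / 4 ≤ (gau N).real {g | g + (fun k => s * x k) ∈
        {g : Fin N → ℝ | L * θ / 2 < GG Z hZ B L g x}} := by
    linarith
  have hsh := shift_le hmE (fun k => s * x k)
  rw [sum_sq_eq, hx] at hsh
  have h16 : (1 : ℝ) / 16 ≤ ((gau N).real {g | g + (fun k => s * x k) ∈
        {g : Fin N → ℝ | L * θ / 2 < GG Z hZ B L g x}}) ^ 2 := by
    nlinarith
  have hfin : 1 / 16 * Real.exp (-(s ^ 2)) ≤
      (gau N).real {g | L * θ / 2 < GG Z hZ B L g x} := by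
    have h1 : (1 : ℝ) / 16 ≤ (gau N).real {g | L * θ / 2 < GG Z hZ B L g x} *
        Real.exp (s ^ 2 * 1 ^ 2) := h16.trans hsh
    rw [one_pow, mul_one] at h1
    have h2 : Real.exp (s ^ 2) * Real.exp (-(s ^ 2)) = 1 := by
      rw [← Real.exp_add]
      simp
    calc 1 / 16 * Real.exp (-(s ^ 2))
        ≤ ((gau N).real {g | L * θ / 2 < GG Z hZ B L g x} * Real.exp (s ^ 2)) *
          Real.exp (-(s ^ 2)) := mul_le_mul_of_nonneg_right h1 (Real.exp_pos _).le
      _ = (gau N).real {g | L * θ / 2 < GG Z hZ B L g x} := by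
          rw [mul_assoc, h2, mul_one]
  refine le_trans ?_ hfin
  have h17 : Real.exp (-3) ≤ (1 : ℝ) / 16 := by
    have h4 := Real.exp_one_gt_d9
    have h5 : Real.exp (-3) = (Real.exp (-1)) ^ 3 := by
      rw [← Real.exp_nat_mul]
      norm_num
    have h3 : Real.exp (-1) ≤ 1 / 2.7 := by
      rw [Real.exp_neg, inv_eq_one_div]
      apply one_div_le_one_div_of_le (by norm_num) (by linarith)
    have h6 : (Real.exp (-1)) ^ 3 ≤ (1 / 2.7) ^ 3 :=
      pow_le_pow_left₀ (Real.exp_pos _).le h3 3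
    rw [h5]
    refine h6.trans ?_
    norm_num
  calc Real.exp (-(40 + 1024 * κ * θ ^ 2))
      ≤ Real.exp (-3 + -(s ^ 2)) := by
        apply Real.exp_le_exp.mpr
        linarith
    _ = Real.exp (-3) * Real.exp (-(s ^ 2)) := Real.exp_add _ _
    _ ≤ 1 / 16 * Real.exp (-(s ^ 2)) := mul_le_mul_of_nonneg_right h17 (Real.exp_pos _).le

end Pool.Agent.Lib.MP_cecf76_co.HS.A1

namespace Pool.Agent.Lib.MP_cecf76_co.HS

open Finset MeasureTheory Half A1

/-- Row A1. -/
theorem core : CoreStmt := by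
  classical
  intro N ι _ x Z θ ρ κ hx hZ1 hsym hθ hθρ hρ1 hκ hnet hcard
  rcases isEmpty_or_nonempty ι with hι | hι
  · refine ⟨∅, ?_, ?_⟩
    · simp
    · intro i hi
      simp at hi
  obtain ⟨i0⟩ := hι
  obtain ⟨z0, hz0, _⟩ := hnet i0
  have hZ : Z.Nonempty := ⟨z0, hz0⟩
  have hρ : 0 < ρ := by linarith
  set B : ℝ := 2 * (3 + ρ * Real.sqrt (2 * κ + 8)) with hB
  set L : ℝ := 4 * B / ρ with hL
  have hB0 : 0 < B := by rw [hB]; positivity
  have hL0 : 0 < L := by rw [hL]; positivity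
  set A : ι → Set (Fin N → ℝ) := fun i => {g | L * θ / 2 < GG Z hZ B L g (x i)} with hA
  have hmA : ∀ i, MeasurableSet (A i) := fun i =>
    (isOpen_lt continuous_const (continuous_GG Z hZ B L (x i))).measurableSet
  have hP : ∀ i, Real.exp (-(40 + 1024 * κ * θ ^ 2)) ≤ (gau N).real (A i) := fun i =>
    prob_ge Z hZ hθ hθρ hρ1 hκ hZ1 hsym (x i) (hx i) (hnet i) (hcard i) hB hL
  -- the expected number of chosen indices
  set F : (Fin N → ℝ) → ℝ := fun g => ∑ i, (A i).indicator (fun _ => (1 : ℝ)) g with hF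
  have hFi : ∀ i, Integrable (fun g => (A i).indicator (fun _ => (1 : ℝ)) g) (gau N) := fun i =>
    (integrable_const 1).indicator (hmA i)
  have hFint : Integrable F (gau N) := integrable_finsetSum _ (fun i _ => hFi i)
  have hFval : ∫ g, F g ∂(gau N) = ∑ i, (gau N).real (A i) := by
    rw [hF, integral_finsetSum _ (fun i _ => hFi i)]
    apply Finset.sum_congr rfl
    intro i _
    rw [integral_indicator_const _ (hmA i)]
    simp
  obtain ⟨g, hg⟩ := exists_integral_le hFint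
  rw [hFval] at hg
  refine ⟨Finset.univ.filter (fun i => g ∈ A i), ?_, ?_⟩
  · have h1 : F g = ((Finset.univ.filter (fun i => g ∈ A i)).card : ℝ) := by
      rw [hF]
      simp only [Set.indicator_apply]
      rw [Finset.sum_ite]
      simp
    rw [← h1]
    refine le_trans ?_ hg
    have h2 : ∑ _i : ι, Real.exp (-(40 + 1024 * κ * θ ^ 2)) ≤ ∑ i, (gau N).real (A i) :=
      Finset.sum_le_sum (fun i _ => hP i)
    rw [Finset.sum_const, nsmul_eq_mul, Finset.card_univ] at h2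
    exact h2
  · intro i hi j hj
    have h1 : L * θ / 2 < GG Z hZ B L g (x i) := (Finset.mem_filter.mp hi).2
    have h2 : L * θ / 2 < GG Z hZ B L g (x j) := (Finset.mem_filter.mp hj).2
    have h3 := GG_lip Z hZ B L hL0.le g (x i) (-(x j))
    rw [GG_neg, sub_neg_eq_add, sub_neg_eq_add] at h3
    have h4 : L * θ < L * ‖x i + x j‖ := by linarith
    exact lt_of_mul_lt_mul_left h4 hL0.le

end Pool.Agent.Lib.MP_cecf76_co.HS
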