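import Mathlib
import Pool.Agent.Lib.MP_cecf76_co.HS.Stmts

set_option autoImplicit false

/-! A3: the Gaussian measure of the intersection of two half spaces. -/

namespace Pool.Agent.Lib.MP_cecf76_co.HS

open Finset Classical MeasureTheory Half

variable {N : ℕ}

lemma dot_eq (g : Fin N → ℝ) (u : EuclideanSpace ℝ (Fin N)) :
    dot g (fun i => u i) = ∑ i, g i * u i := rfl

lemma sum_sq (u : EuclideanSpace ℝ (Fin N)) : ∑ i, (u i) ^ 2 = ‖u‖ ^ 2 := by
  rw [EuclideanSpace.norm_sq_eq]
  simp

/-- Chernoff's bound for a linear functional. -/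
lemma tail (a : EuclideanSpace ℝ (Fin N)) (t r : ℝ) (hr : 0 < r) (ha : ‖a‖ ≤ r) (ht : 0 ≤ t) :
    (gau N).real {g | t < ∑ i, g i * a i} ≤ Real.exp (-(t ^ 2 / (2 * r ^ 2))) := by
  set l : ℝ := t / r ^ 2 with hl
  have hl0 : 0 ≤ l := by positivity
  set b : Fin N → ℝ := fun i => l * a i with hb
  have hb2 : ∑ i, b i ^ 2 = l ^ 2 * ‖a‖ ^ 2 := by
    rw [← sum_sq, Finset.mul_sum]
    exact Finset.sum_congr rfl fun i _ => by rw [hb]; ring
  have h1 : ∀ g : Fin N → ℝ, dot g b = l * ∑ i, g i * a i := by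
    intro g
    rw [dot, Finset.mul_sum]
    exact Finset.sum_congr rfl fun i _ => by rw [hb]; ring
  have hms : MeasurableSet {g : Fin N → ℝ | t < ∑ i, g i * a i} := by
    refine measurableSet_lt measurable_const ?_
    exact measurable_dot (fun i => a i)
  have h2 : (gau N).real {g | t < ∑ i, g i * a i} * Real.exp (l * t) ≤
      ∫ g, Real.exp (dot g b) ∂(gau N) := by
    have h3 : ∀ g : Fin N → ℝ, ({g : Fin N → ℝ | t < ∑ i, g i * a i}).indicator
        (fun _ => Real.exp (l * t)) g ≤ Real.exp (dot g b) := by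
      intro g
      by_cases hg : g ∈ {g : Fin N → ℝ | t < ∑ i, g i * a i}
      · rw [Set.indicator_of_mem hg, h1]
        exact Real.exp_le_exp.2 (mul_le_mul_of_nonneg_left (le_of_lt hg) hl0)
      · rw [Set.indicator_of_notMem hg]
        positivity
    have h4 := integral_mono ((integrable_const (μ := gau N) (Real.exp (l * t))).indicator hms)
      (integrable_exp_dot b) h3
    rw [integral_indicator_const _ hms, smul_eq_mul] at h4
    exact h4
  rw [integral_exp_dot, hb2] at h2
  have h5 : l ^ 2 * ‖a‖ ^ 2 / 2 ≤ l ^ 2 * r ^ 2 / 2 := by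
    have : ‖a‖ ^ 2 ≤ r ^ 2 := pow_le_pow_left₀ (norm_nonneg _) ha 2
    nlinarith [sq_nonneg l]
  have h6 : Real.exp (l ^ 2 * ‖a‖ ^ 2 / 2) ≤
      Real.exp (-(t ^ 2 / (2 * r ^ 2))) * Real.exp (l * t) := by
    rw [← Real.exp_add]
    refine Real.exp_le_exp.2 (h5.trans (le_of_eq ?_))
    rw [hl]
    field_simp
    ring
  exact le_of_mul_le_mul_right (h2.trans h6) (Real.exp_pos _)

/-- The two-sided version. -/
lemma tail_abs (a : EuclideanSpace ℝ (Fin N)) (t r : ℝ) (hr : 0 < r) (ha : ‖a‖ ≤ r) (ht : 0 ≤ t) :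
    (gau N).real {g | t < |∑ i, g i * a i|} ≤ 2 * Real.exp (-(t ^ 2 / (2 * r ^ 2))) := by
  have h1 := tail a t r hr ha ht
  have h2 := tail (-a) t r hr (by rwa [norm_neg]) ht
  have h3 : {g : Fin N → ℝ | t < |∑ i, g i * a i|} ⊆
      {g | t < ∑ i, g i * a i} ∪ {g | t < ∑ i, g i * (-a) i} := by
    intro g hg
    have hg' : t < |∑ i, g i * a i| := hg
    rcases lt_abs.1 hg' with h | h
    · exact Or.inl h
    · refine Or.inr ?_
      change t < ∑ i, g i * (-a) i
      have : ∑ i, g i * (-a) i = -∑ i, g i * a i := by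
        rw [← Finset.sum_neg_distrib]
        refine Finset.sum_congr rfl fun i _ => ?_
        simp
      rw [this]; exact h
  calc (gau N).real {g | t < |∑ i, g i * a i|}
      ≤ (gau N).real ({g | t < ∑ i, g i * a i} ∪ {g | t < ∑ i, g i * (-a) i}) :=
        measureReal_mono h3
    _ ≤ (gau N).real {g | t < ∑ i, g i * a i} + (gau N).real {g | t < ∑ i, g i * (-a) i} :=
        measureReal_union_le _ _
    _ ≤ _ := by linarith

theorem cap : CapStmt := by
  intro N u v t ht hu hv
  have hms : MeasurableSet {g : Fin N → ℝ | t ≤ ∑ i, g i * u i ∧ t ≤ ∑ i, g i * v i} := by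
    exact (measurableSet_le measurable_const (measurable_dot (fun i => u i))).inter
      (measurableSet_le measurable_const (measurable_dot (fun i => v i)))
  have hsum : ∀ g : Fin N → ℝ, ∑ i, g i * (u + v) i = ∑ i, g i * u i + ∑ i, g i * v i := by
    intro g
    rw [← Finset.sum_add_distrib]
    refine Finset.sum_congr rfl fun i _ => ?_
    simp [mul_add]
  have hzero : u + v = 0 → mu2 t u v = 0 := by
    intro h
    have h1 : {g : Fin N → ℝ | t ≤ ∑ i, g i * u i ∧ t ≤ ∑ i, g i * v i} = ∅ := by
      refine Set.eq_empty_of_forall_notMem fun g hg => ?_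
      have h2 := hsum g
      rw [h] at h2
      simp only [PiLp.zero_apply, mul_zero, Finset.sum_const_zero] at h2
      have h3 := hg.1
      have h4 := hg.2
      linarith
    rw [mu2, h1]
    simp
  refine ⟨?_, hzero, ?_⟩
  · -- upper bound
    by_cases hw : u + v = 0
    · rw [hzero hw]; simp
    have hw0 : 0 < ‖u + v‖ := norm_pos_iff.2 hw
    set W : ℝ := ‖u + v‖ ^ 2 with hW
    have hW0 : 0 < W := by positivity
    set l : ℝ := 2 * t / W with hl
    have hl0 : 0 ≤ l := by positivity
    set b : Fin N → ℝ := fun i => l * (u + v) i with hb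
    have hb2 : ∑ i, b i ^ 2 = l ^ 2 * W := by
      rw [hW, ← sum_sq, Finset.mul_sum]
      exact Finset.sum_congr rfl fun i _ => by rw [hb]; ring
    have h1 : ∀ g : Fin N → ℝ, dot g b = l * ∑ i, g i * (u + v) i := by
      intro g
      rw [dot, Finset.mul_sum]
      exact Finset.sum_congr rfl fun i _ => by rw [hb]; ring
    have h3 : ∀ g : Fin N → ℝ, ({g : Fin N → ℝ | t ≤ ∑ i, g i * u i ∧
        t ≤ ∑ i, g i * v i}).indicator (fun _ => Real.exp (l * (2 * t))) g ≤
          Real.exp (dot g b) := by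
      intro g
      by_cases hg : g ∈ {g : Fin N → ℝ | t ≤ ∑ i, g i * u i ∧ t ≤ ∑ i, g i * v i}
      · rw [Set.indicator_of_mem hg, h1, hsum]
        exact Real.exp_le_exp.2 (mul_le_mul_of_nonneg_left (by linarith [hg.1, hg.2]) hl0)
      · rw [Set.indicator_of_notMem hg]
        positivity
    have h4 := integral_mono ((integrable_const (μ := gau N)
      (Real.exp (l * (2 * t)))).indicator hms) (integrable_exp_dot b) h3
    rw [integral_indicator_const _ hms, smul_eq_mul, integral_exp_dot, hb2] at h4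
    have h5 : Real.exp (l * (2 * t)) = Real.exp (2 * t ^ 2 / W) * Real.exp (l ^ 2 * W / 2) := by
      rw [← Real.exp_add]
      congr 1
      rw [hl]
      field_simp
      ring
    rw [h5, ← mul_assoc] at h4
    have h6 := le_of_mul_le_mul_right (h4.trans (one_mul _).ge) (Real.exp_pos _)
    exact h6
  · -- lower bound
    intro hw
    have hw0 : 0 < ‖u + v‖ := norm_pos_iff.2 hw
    set W : ℝ := ‖u + v‖ with hW
    set r : ℝ := 2 * (t + 3) / W ^ 2 with hr
    set b : Fin N → ℝ := fun i => r * (u + v) i with hb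
    have hb2 : ∑ i, b i ^ 2 = 4 * (t + 3) ^ 2 / W ^ 2 := by
      have h1 : ∑ i, b i ^ 2 = r ^ 2 * ‖u + v‖ ^ 2 := by
        rw [← sum_sq, Finset.mul_sum]
        exact Finset.sum_congr rfl fun i _ => by rw [hb]; ring
      rw [h1, ← hW, hr]
      field_simp
      ring
    -- inner products
    have hin : ∀ a : EuclideanSpace ℝ (Fin N), ∑ i, b i * a i = r * inner ℝ a (u + v) := by
      intro a
      rw [PiLp.inner_apply, Finset.mul_sum]
      refine Finset.sum_congr rfl fun i _ => ?_
      simp [hb]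
      ring
    have hW2 : W ^ 2 = 2 + 2 * inner ℝ u v := by
      rw [hW, norm_add_sq_real, hu, hv]; ring
    have hiu : inner ℝ u (u + v) = W ^ 2 / 2 := by
      rw [inner_add_right, real_inner_self_eq_norm_sq, hu, hW2]; ring
    have hiv : inner ℝ v (u + v) = W ^ 2 / 2 := by
      rw [inner_add_right, real_inner_self_eq_norm_sq, hv, hW2, real_inner_comm]; ring
    have hru : ∑ i, b i * u i = t + 3 := by
      rw [hin, hiu, hr]; field_simp
    have hrv : ∑ i, b i * v i = t + 3 := by
      rw [hin, hiv, hr]; field_simp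
    have h1 := shift_le hms b
    have h2 : 1 / 2 ≤ (gau N).real {g | g + b ∈ {g : Fin N → ℝ | t ≤ ∑ i, g i * u i ∧
        t ≤ ∑ i, g i * v i}} := by
      have h3 : ({g : Fin N → ℝ | 3 < |∑ i, g i * u i|} ∪ {g | 3 < |∑ i, g i * v i|})ᶜ ⊆
          {g | g + b ∈ {g : Fin N → ℝ | t ≤ ∑ i, g i * u i ∧ t ≤ ∑ i, g i * v i}} := by
        intro g hg
        simp only [Set.mem_compl_iff, Set.mem_union, Set.mem_ofPred_eq, not_or, not_lt] at hg
        have ha := abs_le.1 hg.1
        have hb' := abs_le.1 hg.2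
        have e1 : ∑ i, (g + b) i * u i = ∑ i, g i * u i + ∑ i, b i * u i := by
          rw [← Finset.sum_add_distrib]
          exact Finset.sum_congr rfl fun i _ => by rw [Pi.add_apply]; ring
        have e2 : ∑ i, (g + b) i * v i = ∑ i, g i * v i + ∑ i, b i * v i := by
          rw [← Finset.sum_add_distrib]
          exact Finset.sum_congr rfl fun i _ => by rw [Pi.add_apply]; ring
        simp only [Set.mem_ofPred_eq]
        rw [e1, e2, hru, hrv]
        constructor <;> linarith
      have hm1 : MeasurableSet ({g : Fin N → ℝ | 3 < |∑ i, g i * u i|} ∪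
          {g | 3 < |∑ i, g i * v i|}) := by
        have e1 : Measurable (fun g : Fin N → ℝ => |∑ i, g i * u i|) :=
          (measurable_dot (fun i => u i)).abs
        have e2 : Measurable (fun g : Fin N → ℝ => |∑ i, g i * v i|) :=
          (measurable_dot (fun i => v i)).abs
        exact (measurableSet_lt measurable_const e1).union (measurableSet_lt measurable_const e2)
      have h4 := measureReal_mono (μ := gau N) h3
      rw [probReal_compl_eq_one_sub hm1] at h4
      have h5 : (gau N).real ({g : Fin N → ℝ | 3 < |∑ i, g i * u i|} ∪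
          {g | 3 < |∑ i, g i * v i|}) ≤ 1 / 2 := by
        refine (measureReal_union_le _ _).trans ?_
        have t1 := tail_abs u 3 1 one_pos hu.le (by norm_num)
        have t2 := tail_abs v 3 1 one_pos hv.le (by norm_num)
        have e : Real.exp (-((3 : ℝ) ^ 2 / (2 * 1 ^ 2))) ≤ 1 / 8 := by
          have h7 : Real.exp (-((3 : ℝ) ^ 2 / (2 * 1 ^ 2))) ≤ Real.exp (-3) :=
            Real.exp_le_exp.2 (by norm_num)
          have h8 : (2.7182818283 : ℝ) < Real.exp 1 := Real.exp_one_gt_d9
          have h9 : (8 : ℝ) ≤ Real.exp 3 := by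
            have : Real.exp 3 = Real.exp 1 ^ 3 := by rw [← Real.exp_nat_mul]; norm_num
            rw [this]
            calc (8 : ℝ) = 2 ^ 3 := by norm_num
              _ ≤ Real.exp 1 ^ 3 := pow_le_pow_left₀ (by norm_num) (by linarith) 3
          refine h7.trans ?_
          rw [Real.exp_neg, one_div]
          exact inv_anti₀ (by norm_num) h9
        linarith
      linarith
    have h3 : (1 / 2 : ℝ) ^ 2 ≤ ((gau N).real {g | g + b ∈ {g : Fin N → ℝ | t ≤ ∑ i, g i * u i ∧
        t ≤ ∑ i, g i * v i}}) ^ 2 := pow_le_pow_left₀ (by norm_num) h2 2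
    rw [hb2] at h1
    have h4 := h3.trans h1
    rw [mu2, Real.exp_neg, ← div_eq_mul_inv, div_le_iff₀ (Real.exp_pos _)]
    linarith

end Pool.Agent.Lib.MP_cecf76_co.HS
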