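import Mathlib
import Pool.Agent.Lib.MP_cecf76_co.Grid.Asm
import Pool.Agent.Lib.MP_cecf76_co.Grid.Tensor
import Pool.Agent.Lib.MP_cecf76_co.Grid.OneDim
import Pool.Agent.Lib.MP_cecf76_co.Grid.Good
import Pool.Agent.Lib.MP_cecf76_co.HS.Stmts

set_option autoImplicit false

/-! A4: the normalised grid: unit vectors with few pairwise far from antipodal. -/

namespace Pool.Agent.Lib.MP_cecf76_co.HS

open Finset Classical Grid

/-- The centred vector of a grid point. -/
noncomputable def vec (q : ℕ) {N : ℕ} (v : Fin N → Fin q) : EuclideanSpace ℝ (Fin N) :=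
  WithLp.toLp 2 (fun i => ctr q (v i))

lemma vec_sq (q : ℕ) {N : ℕ} (v : Fin N → Fin q) : ‖vec q v‖ ^ 2 = ∑ i, ctr q (v i) ^ 2 := by
  rw [EuclideanSpace.norm_sq_eq]
  simp [vec]

lemma vec_add_sq (q : ℕ) {N : ℕ} (v w : Fin N → Fin q) :
    ‖vec q v + vec q w‖ ^ 2 = ∑ i, (ctr q (v i) + ctr q (w i)) ^ 2 := by
  rw [EuclideanSpace.norm_sq_eq]
  simp [vec]

lemma good_sq {q N : ℕ} {v : Fin N → Fin q} (hv : Good q N v) :
    (N : ℝ) * q ^ 2 / 16 ≤ ‖vec q v‖ ^ 2 := by
  rw [vec_sq]
  set S : Finset (Fin N) := univ.filter (fun i => (q : ℝ) / 2 ≤ |ctr q (v i)|) with hS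
  have h1 : (N : ℝ) ≤ 4 * (S.card : ℝ) := by
    have : N ≤ 4 * S.card := hv
    exact_mod_cast this
  have h2 : ∑ i ∈ S, ((q : ℝ) / 2) ^ 2 ≤ ∑ i ∈ S, ctr q (v i) ^ 2 := by
    refine Finset.sum_le_sum fun i hi => ?_
    have h3 := (Finset.mem_filter.1 hi).2
    rw [← sq_abs (ctr q (v i))]
    exact pow_le_pow_left₀ (by positivity) h3 2
  have h3 : ∑ i ∈ S, ctr q (v i) ^ 2 ≤ ∑ i, ctr q (v i) ^ 2 :=
    Finset.sum_le_sum_of_subset_of_nonneg (Finset.subset_univ _) fun i _ _ => sq_nonneg _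
  rw [Finset.sum_const, nsmul_eq_mul] at h2
  nlinarith [sq_nonneg (q : ℝ)]

lemma near_norm {q N : ℕ} (hq : 0 < q) (hN : 0 < N) {η : ℝ} (hη : 0 < η)
    (hηq : 8 ≤ η * (q : ℝ) ^ 2) {v w : Fin N → Fin q} (hv : Good q N v) (hw : Good q N w)
    (h : ∑ i, cost q (v i) (Fin.rev (w i)) < η * N / 32) :
    ‖(‖vec q v‖)⁻¹ • vec q v + (‖vec q w‖)⁻¹ • vec q w‖ ^ 2 ≤ 128 * η := by
  have hqR : (0 : ℝ) < q := by exact_mod_cast hq
  have hNR : (0 : ℝ) < N := by exact_mod_cast hN
  have h1 := near_sum hq h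
  rw [← vec_add_sq] at h1
  have hv1 := good_sq hv
  have hw1 := good_sq hw
  set a : ℝ := ‖vec q v‖ with ha
  set b : ℝ := ‖vec q w‖ with hb
  set S : ℝ := ‖vec q v + vec q w‖ with hS
  have hpos : 0 < (N : ℝ) * q ^ 2 / 16 := by positivity
  have ha0 : 0 < a := by
    rcases (norm_nonneg (vec q v)).eq_or_lt with h0 | h0
    · rw [← ha] at h0
      rw [← h0] at hv1
      norm_num at hv1
      linarith
    · exact h0
  have hb0 : 0 < b := by
    rcases (norm_nonneg (vec q w)).eq_or_lt with h0 | h0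
    · rw [← hb] at h0
      rw [← h0] at hw1
      norm_num at hw1
      linarith
    · exact h0
  have hab : |a - b| ≤ S := by
    have h3 := abs_norm_sub_norm_le (vec q v) (-(vec q w))
    rw [norm_neg, sub_neg_eq_add] at h3
    exact h3
  have e : a⁻¹ • vec q v + b⁻¹ • vec q w =
      a⁻¹ • (vec q v + vec q w) + (b⁻¹ - a⁻¹) • vec q w := by
    rw [smul_add, sub_smul]
    abel
  have h4 : ‖a⁻¹ • vec q v + b⁻¹ • vec q w‖ ≤ 2 * S / a := by
    rw [e]
    refine (norm_add_le _ _).trans ?_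
    rw [norm_smul, norm_smul, Real.norm_of_nonneg (by positivity : (0 : ℝ) ≤ a⁻¹), Real.norm_eq_abs,
      ← hS, ← hb]
    have e2 : |b⁻¹ - a⁻¹| * b = |a - b| / a := by
      have : b⁻¹ - a⁻¹ = (a - b) / (a * b) := by field_simp
      rw [this, abs_div, abs_of_pos (by positivity : 0 < a * b)]
      field_simp
    rw [e2]
    have e3 : a⁻¹ * S = S / a := by rw [inv_mul_eq_div]
    rw [e3, ← add_div]
    exact div_le_div_of_nonneg_right (by linarith) ha0.le
  have h5 : ‖a⁻¹ • vec q v + b⁻¹ • vec q w‖ ^ 2 ≤ (2 * S / a) ^ 2 :=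
    pow_le_pow_left₀ (norm_nonneg _) h4 2
  refine h5.trans ?_
  rw [div_pow, div_le_iff₀ (by positivity)]
  have h6 : S ^ 2 ≤ 2 * (η * q ^ 2) * N := by
    have e4 : 32 * (q : ℝ) ^ 2 * (η * N / 32) + 8 * N = (η * q ^ 2) * N + 8 * N := by ring
    rw [e4] at h1
    nlinarith
  have h7 : 128 * η * ((N : ℝ) * q ^ 2 / 16) ≤ 128 * η * a ^ 2 :=
    mul_le_mul_of_nonneg_left hv1 (by positivity)
  calc (2 * S) ^ 2 = 4 * S ^ 2 := by ring
    _ ≤ 4 * (2 * (η * q ^ 2) * N) := by linarith
    _ = 128 * η * ((N : ℝ) * q ^ 2 / 16) := by ring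
    _ ≤ _ := h7

theorem grid : GridStmt := by
  intro q N η hq hN hη hη1 hηq m hm
  have hq0 : 0 < q := by omega
  have hqR : (0 : ℝ) < q := by exact_mod_cast hq0
  have hNR : (0 : ℝ) < N := by exact_mod_cast hN
  let V := {v : Fin N → Fin q // Good q N v}
  let near : V → V → Prop := fun v w => ∑ i, cost q (v.1 i) (Fin.rev (w.1 i)) < η * N / 32
  have hVcard : (Fintype.card V : ℝ) ≤ (q : ℝ) ^ N := by
    have h1 : Fintype.card V ≤ Fintype.card (Fin N → Fin q) :=
      Fintype.card_le_of_injective Subtype.val Subtype.val_injective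
    rw [Fintype.card_fun, Fintype.card_fin, Fintype.card_fin] at h1
    exact_mod_cast h1
  have hVcard2 : (q : ℝ) ^ N ≤ 6 * (Fintype.card V : ℝ) := by
    have h1 := Grid.good q N hq
    have h2 : Fintype.card V = (univ.filter (fun v : Fin N → Fin q => Good q N v)).card :=
      Fintype.card_subtype _
    rw [h2]; exact h1
  have hV0R : (0 : ℝ) < Fintype.card V := by
    have : (0 : ℝ) < (q : ℝ) ^ N := by positivity
    linarith
  have hV0 : 0 < Fintype.card V := by exact_mod_cast hV0R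
  set M : ℕ := Fintype.card V with hM
  have hMm : M ≤ m := by
    have h1 : (M : ℝ) ≤ m := hVcard.trans (by exact_mod_cast hm)
    exact_mod_cast h1
  let e : Fin M ≃ V := (Fintype.equivFin V).symm
  let h : Fin m → V := fun i => e ⟨i.val % M, Nat.mod_lt _ hV0⟩
  have hpos : ∀ v : V, 0 < ‖vec q v.1‖ := by
    intro v
    have h1 := good_sq v.2
    have hp : 0 < (N : ℝ) * q ^ 2 / 16 := by positivity
    rcases (norm_nonneg (vec q v.1)).eq_or_lt with h0 | h0
    · rw [← h0] at h1
      norm_num at h1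
      linarith
    · exact h0
  let x : V → EuclideanSpace ℝ (Fin N) := fun v => (‖vec q v.1‖)⁻¹ • vec q v.1
  have hx1 : ∀ v, ‖x v‖ = 1 := by
    intro v
    simp only [x]
    rw [norm_smul, Real.norm_of_nonneg (by positivity : (0 : ℝ) ≤ (‖vec q v.1‖)⁻¹)]
    exact inv_mul_cancel₀ (hpos v).ne'
  refine ⟨fun i => x (h i), fun i => hx1 (h i), ?_⟩
  intro I hI
  set F := I.image h with hF
  have hfar : ∀ u ∈ F, ∀ w ∈ F, ¬ near u w := by
    intro u hu w hw huw
    obtain ⟨i, hi, rfl⟩ := mem_image.1 hu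
    obtain ⟨j, hj, rfl⟩ := mem_image.1 hw
    have h2 := near_norm hq0 hN hη hηq (h i).2 (h j).2 huw
    by_cases hij : i = j
    · subst hij
      have h3 : ‖x (h i) + x (h i)‖ ^ 2 = 4 := by
        rw [← two_smul ℝ (x (h i)), norm_smul, hx1]
        norm_num
      have h4 : ‖x (h i) + x (h i)‖ ^ 2 ≤ 128 * η := h2
      linarith
    · have h3 := hI i hi j hj hij
      have h4 : ‖x (h i) + x (h j)‖ ^ 2 ≤ 128 * η := h2
      linarith
  have hFcard : (F.card : ℝ) ≤ (q : ℝ) ^ N * Real.exp (-(η * N / 64)) := by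
    have h1 := iso (tensor oneDim) q N (F.map (Function.Embedding.subtype _)) (η * N / 32) hq0 (by
      intro u hu w hw
      rw [mem_map] at hu hw
      obtain ⟨u', hu', rfl⟩ := hu
      obtain ⟨w', hw', rfl⟩ := hw
      have := hfar u' hu' w' hw'
      simp only [near, not_lt] at this
      exact this)
    rw [card_map] at h1
    refine h1.trans (le_of_eq ?_)
    congr 2
    ring
  have hfib : ∀ a ∈ F, (I.filter (fun i => h i = a)).card ≤ m / M + 1 := by
    intro a _
    have h1 : (I.filter (fun i => h i = a)).card ≤ (Finset.range (m / M + 1)).card := by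
      apply Finset.card_le_card_of_injOn (fun i => i.val / M)
      · intro i _
        simp only [Finset.coe_range, Set.mem_Iio]
        have := Nat.div_le_div_right (c := M) i.isLt.le
        omega
      · intro i hi j hj hij
        simp only [Finset.coe_filter, Set.mem_ofPred_eq] at hi hj
        have h2 : h i = h j := by rw [hi.2, hj.2]
        have h3 : i.val % M = j.val % M := by
          have := e.injective h2
          simpa using this
        apply Fin.ext
        rw [← Nat.div_add_mod i.val M, ← Nat.div_add_mod j.val M, h3]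
        congr 2
    simpa using h1
  have hcardI : I.card ≤ (m / M + 1) * F.card :=
    Finset.card_le_mul_card_image (f := h) I (m / M + 1) hfib
  have hcardI' : (I.card : ℝ) ≤ (2 * m / M) * F.card := by
    have h1 : (I.card : ℝ) ≤ ((m / M + 1 : ℕ) : ℝ) * F.card := by exact_mod_cast hcardI
    refine h1.trans (mul_le_mul_of_nonneg_right ?_ (by positivity))
    push_cast
    have h2 : (((m / M : ℕ)) : ℝ) ≤ (m : ℝ) / M := Nat.cast_div_le
    have h3 : (1 : ℝ) ≤ (m : ℝ) / M := by
      rw [one_le_div hV0R]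
      exact_mod_cast hMm
    have h4 : 2 * (m : ℝ) / M = (m : ℝ) / M + (m : ℝ) / M := by ring
    rw [h4]
    linarith
  calc (I.card : ℝ) ≤ (2 * m / M) * F.card := hcardI'
    _ ≤ (2 * m / M) * ((q : ℝ) ^ N * Real.exp (-(η * N / 64))) :=
        mul_le_mul_of_nonneg_left hFcard (by positivity)
    _ ≤ (2 * m / M) * ((6 * M) * Real.exp (-(η * N / 64))) := by
        apply mul_le_mul_of_nonneg_left _ (by positivity)
        exact mul_le_mul_of_nonneg_right hVcard2 (Real.exp_pos _).le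
    _ = 12 * m * Real.exp (-(η * N / 64)) := by
        field_simp
        ring

end Pool.Agent.Lib.MP_cecf76_co.HS
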