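import Mathlib
import Pool.Agent.Lib.MP_cecf76_co.HS.Stmts
import Pool.Agent.Lib.MP_cecf76_co.HS.Cap83
import Pool.Agent.Lib.MP_cecf76_co.HS.Grid83

set_option autoImplicit false

/-! A5: assembly of the two bounds for half space systems. -/

namespace Pool.Agent.Lib.MP_cecf76_co.HS

open Finset Classical

/-- The lower bound. -/
lemma hs_lower (hG : GrowthStmt) (t : ℝ) (ht : 0 < t) : ∃ C L₀ : ℝ, 0 < C ∧ 1 < L₀ ∧ ∀ ε L : ℝ,
    0 < ε → L = Real.log (1 / ε) → L₀ ≤ L → ∃ b : ℝ, 0 < b ∧ ∀ (N m : ℕ)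
      (v : Fin m → EuclideanSpace ℝ (Fin N)), 0 < m → (∀ i, ‖v i‖ = 1) → ∃ I : Finset (Fin m),
        b * (m : ℝ) ^ (1 - C / (L * Real.log L)) ≤ (I.card : ℝ) ∧
        ∀ i ∈ I, ∀ j ∈ I, i ≠ j → ε < mu2 t (v i) (v j) := by
  set s : ℝ := t + 3 with hs
  have hs3 : 3 < s := by linarith
  set A : ℝ := 114688 * s ^ 2 with hA
  have hA0 : 0 < A := by positivity
  refine ⟨2 * A, (2048 * s ^ 2) ^ 2, by positivity, ?_, ?_⟩
  · have h1 : (1 : ℝ) < 2048 * s ^ 2 := by nlinarith
    nlinarith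
  intro ε L hε hL hL0
  have hbig : (18432 : ℝ) ≤ 2048 * s ^ 2 := by nlinarith
  set D : ℝ := 2048 * s ^ 2 with hD
  have hLD : D ^ 2 ≤ L := hL0
  have hLbig : (18432 : ℝ) ≤ L := by nlinarith
  have hL1 : 0 < L := by linarith
  have hlogL : 0 < Real.log L := Real.log_pos (by linarith)
  have hlog4 : Real.log 4 < 2 := by
    have h2 : Real.log 4 = 2 * Real.log 2 := by
      rw [show (4 : ℝ) = 2 ^ 2 by norm_num, Real.log_pow]; norm_num
    have h3 : Real.log 2 < (0.6931471808 : ℝ) := Real.log_two_lt_d9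
    linarith
  set P : ℝ := L - Real.log 4 with hP
  have hP2 : L / 2 ≤ P := by linarith
  have hP0 : 0 < P := by linarith
  have hexpP : Real.exp (-P) = 4 * ε := by
    rw [hP, neg_sub, Real.exp_sub, Real.exp_log (by norm_num), hL, Real.exp_log (by positivity)]
    field_simp
  set θ : ℝ := Real.sqrt (4 * s ^ 2 / P) with hθ
  have hθ2 : θ ^ 2 = 4 * s ^ 2 / P := Real.sq_sqrt (by positivity)
  have hθ0 : 0 < θ := Real.sqrt_pos.2 (by positivity)
  have hθL : θ ^ 2 ≤ 8 * s ^ 2 / L := by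
    rw [hθ2, div_le_div_iff₀ hP0 hL1]
    nlinarith [sq_nonneg s]
  have hθL2 : 256 * θ ^ 2 ≤ D / L := by
    have : 256 * (8 * s ^ 2 / L) = D / L := by rw [hD]; ring
    linarith
  have hDL : D / L ≤ 1 := by
    rw [div_le_one hL1]; nlinarith
  have hθ16 : 16 * θ ≤ 1 := by
    by_contra hcon
    push Not at hcon
    nlinarith
  -- number of scales
  set y : ℝ := Real.log (1 / (16 * θ)) / Real.log 32 with hy
  have hlog32 : 0 < Real.log 32 := Real.log_pos (by norm_num)
  have hlog32' : Real.log 32 ≤ 3.5 := by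
    have h2 : Real.log 32 = 5 * Real.log 2 := by
      rw [show (32 : ℝ) = 2 ^ 5 by norm_num, Real.log_pow]; norm_num
    have h3 : Real.log 2 < (0.6931471808 : ℝ) := Real.log_two_lt_d9
    linarith
  have hy0 : 0 ≤ y := by
    apply div_nonneg _ hlog32.le
    apply Real.log_nonneg
    rw [one_le_div (by positivity)]
    exact hθ16
  have hyL : Real.log L / 14 ≤ y := by
    rw [hy, div_le_div_iff₀ (by norm_num) hlog32]
    have h1 : Real.log (1 / (16 * θ)) = Real.log (1 / (256 * θ ^ 2)) / 2 := by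
      have : 1 / (256 * θ ^ 2) = (1 / (16 * θ)) ^ 2 := by field_simp; norm_num
      rw [this, Real.log_pow]; push_cast; ring
    have h2 : Real.log (L / D) ≤ Real.log (1 / (256 * θ ^ 2)) := by
      apply Real.log_le_log (by positivity)
      rw [div_le_div_iff₀ (by positivity) (by positivity)]
      rw [le_div_iff₀ hL1] at hθL2
      linarith
    have h3 : Real.log L / 2 ≤ Real.log (L / D) := by
      rw [Real.log_div hL1.ne' (by positivity)]
      have h4 : Real.log (D ^ 2) ≤ Real.log L := Real.log_le_log (by positivity) hLD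
      rw [Real.log_pow] at h4
      push_cast at h4
      linarith
    nlinarith
  set K : ℕ := ⌊y⌋₊ + 1 with hK
  have hK0 : 0 < K := by omega
  have hKy : y ≤ K := by
    rw [hK]; push_cast
    exact (Nat.lt_floor_add_one y).le
  have hK0R : (0 : ℝ) < K := by exact_mod_cast hK0
  have hKscale : 16 * θ * 32 ^ (K - 1) ≤ 1 := by
    have h1 : K - 1 = ⌊y⌋₊ := by omega
    rw [h1]
    have h2 : ((⌊y⌋₊ : ℕ) : ℝ) ≤ y := Nat.floor_le hy0
    have h3 : (32 : ℝ) ^ ⌊y⌋₊ ≤ 1 / (16 * θ) := by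
      rw [← Real.log_le_log_iff (by positivity) (by positivity), Real.log_pow]
      rw [hy, le_div_iff₀ hlog32] at h2
      exact h2
    calc 16 * θ * 32 ^ ⌊y⌋₊ ≤ 16 * θ * (1 / (16 * θ)) :=
          mul_le_mul_of_nonneg_left h3 (by positivity)
      _ = 1 := by field_simp
  set x : ℝ := A / (L * Real.log L) with hx
  have hx0 : 0 < x := by positivity
  refine ⟨Real.exp (-(46 + x * Real.log 2)) / (K * (1 / x + 3)), by positivity, ?_⟩
  intro N m v hm hv
  obtain ⟨I, hI1, hI2⟩ := hG N m K v θ hm hK0 hv hθ0 hKscale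
  have hmR : (1 : ℝ) ≤ m := by exact_mod_cast hm
  have hm0 : (0 : ℝ) < m := by linarith
  have hlogm : 0 ≤ Real.log m := Real.log_nonneg hmR
  refine ⟨I, ?_, ?_⟩
  · have e1 : Real.log (2 * m) = Real.log 2 + Real.log m :=
      Real.log_mul (by norm_num) hm0.ne'
    have h2m : 0 ≤ Real.log (2 * m) := Real.log_nonneg (by linarith)
    have h1 : 1024 * θ ^ 2 * (Real.log (2 * m) / K + 1) ≤ x * Real.log (2 * m) + 4 := by
      have h2 : 1024 * θ ^ 2 ≤ 4 := by linarith
      have h3 : 1024 * θ ^ 2 / K ≤ x := by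
        rw [div_le_iff₀ hK0R]
        have h4 : x * (Real.log L / 14) ≤ x * K :=
          mul_le_mul_of_nonneg_left (hyL.trans hKy) hx0.le
        have h5 : x * (Real.log L / 14) = 1024 * (8 * s ^ 2 / L) := by
          rw [hx, hA]; field_simp; norm_num
        linarith
      have h4 : 1024 * θ ^ 2 * (Real.log (2 * m) / K + 1) =
          (1024 * θ ^ 2 / K) * Real.log (2 * m) + 1024 * θ ^ 2 := by
        field_simp
      rw [h4]
      have := mul_le_mul_of_nonneg_right h3 h2m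
      linarith
    have h2 : Real.exp (-(46 + x * Real.log 2)) * (m : ℝ) ^ (1 - x) ≤
        m * Real.exp (-(42 + 1024 * θ ^ 2 * (Real.log (2 * m) / K + 1))) := by
      have e2 : (m : ℝ) ^ (1 - x) = m * Real.exp (-(x * Real.log m)) := by
        rw [Real.rpow_def_of_pos hm0, mul_sub, mul_one, sub_eq_add_neg, Real.exp_add,
          Real.exp_log hm0]
        congr 2
        ring
      rw [e2, mul_left_comm, ← Real.exp_add]
      refine mul_le_mul_of_nonneg_left (Real.exp_le_exp.2 ?_) hm0.le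
      rw [e1] at h1 ⊢
      linarith
    have h3 : (Real.log m + 3) ≤ (1 / x + 3) * (m : ℝ) ^ x := by
      have h4 : 1 + x * Real.log m ≤ (m : ℝ) ^ x := by
        rw [Real.rpow_def_of_pos hm0]
        have := Real.add_one_le_exp (Real.log m * x)
        linarith
      have h5 : (1 : ℝ) ≤ (m : ℝ) ^ x := by nlinarith
      have h6 : (1 / x) * (1 + x * Real.log m) ≤ (1 / x) * (m : ℝ) ^ x :=
        mul_le_mul_of_nonneg_left h4 (by positivity)
      have h7 : (1 / x) * (1 + x * Real.log m) = 1 / x + Real.log m := by field_simp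
      have h8 : 0 < 1 / x := by positivity
      nlinarith
    have h4 : K * (Real.log m + 3) * (I.card : ℝ) ≤
        K * ((1 / x + 3) * (m : ℝ) ^ x) * (I.card : ℝ) :=
      mul_le_mul_of_nonneg_right (mul_le_mul_of_nonneg_left h3 hK0R.le) (by positivity)
    have h5 := h2.trans (hI1.trans h4)
    have hmx : 0 < (m : ℝ) ^ x := Real.rpow_pos_of_pos hm0 x
    have e3 : (m : ℝ) ^ (1 - x) = (m : ℝ) ^ (1 - 2 * A / (L * Real.log L)) * (m : ℝ) ^ x := by
      rw [← Real.rpow_add hm0]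
      congr 1
      rw [hx]; ring
    rw [e3, ← mul_assoc] at h5
    have h6 : K * ((1 / x + 3) * (m : ℝ) ^ x) * (I.card : ℝ) =
        (K * (1 / x + 3) * (I.card : ℝ)) * (m : ℝ) ^ x := by ring
    rw [h6] at h5
    have h7 := le_of_mul_le_mul_right h5 hmx
    rw [div_mul_eq_mul_div, div_le_iff₀ (by positivity)]
    linarith
  · intro i hi j hj _
    have h1 := hI2 i hi j hj
    have hne : v i + v j ≠ 0 := by
      intro h0
      rw [h0, norm_zero] at h1
      linarith
    have h2 := (cap N (v i) (v j) t ht (hv i) (hv j)).2.2 hne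
    refine lt_of_lt_of_le ?_ h2
    have hw0 : 0 < ‖v i + v j‖ := hθ0.trans h1
    have h3 : 4 * s ^ 2 / ‖v i + v j‖ ^ 2 < P := by
      rw [div_lt_iff₀ (by positivity)]
      have h4 : θ ^ 2 < ‖v i + v j‖ ^ 2 := pow_lt_pow_left₀ h1 hθ0.le (by norm_num)
      have h5 : P * θ ^ 2 = 4 * s ^ 2 := by rw [hθ2]; field_simp
      nlinarith
    have h4 : Real.exp (-P) < Real.exp (-(4 * s ^ 2 / ‖v i + v j‖ ^ 2)) :=
      Real.exp_lt_exp.2 (by linarith)
    rw [hexpP] at h4
    linarith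

/-- The upper bound. -/
lemma hs_upper (t : ℝ) (ht : 0 < t) : ∃ c L₀ : ℝ, 0 < c ∧ 1 < L₀ ∧ ∀ ε L : ℝ,
    0 < ε → L = Real.log (1 / ε) → L₀ ≤ L → ∀ m : ℕ, 0 < m → ∃ (N : ℕ)
      (v : Fin m → EuclideanSpace ℝ (Fin N)), (∀ i, ‖v i‖ = 1) ∧ ∀ I : Finset (Fin m),
        (∀ i ∈ I, ∀ j ∈ I, i ≠ j → ε < mu2 t (v i) (v j)) →
          (I.card : ℝ) ≤ 13 * (m : ℝ) ^ (1 - c / (L * Real.log L)) := by
  refine ⟨t ^ 2 / 4096, 8 * t ^ 2 + 576 / t ^ 2 + 8, by positivity, ?_, ?_⟩
  · have : 0 < 8 * t ^ 2 + 576 / t ^ 2 := by positivity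
    linarith
  intro ε L hε hL hL0 m hm
  have hp1 : 0 < 8 * t ^ 2 := by positivity
  have hp2 : 0 < 576 / t ^ 2 := by positivity
  have hL8 : 8 ≤ L := by linarith
  have hLt : 8 * t ^ 2 ≤ L := by linarith
  have hLt2 : 576 / t ^ 2 ≤ L := by linarith
  have hL1 : 0 < L := by linarith
  have hlogL1 : 1 ≤ Real.log L := by
    have h1 : Real.log 8 ≤ Real.log L := Real.log_le_log (by norm_num) hL8
    have h2 : Real.log 8 = 3 * Real.log 2 := by
      rw [show (8 : ℝ) = 2 ^ 3 by norm_num, Real.log_pow]; norm_num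
    have h3 : (0.6931471803 : ℝ) < Real.log 2 := Real.log_two_gt_d9
    linarith
  have hlogL : 0 < Real.log L := by linarith
  have hexpL : Real.exp (-L) = ε := by
    rw [hL, one_div, Real.log_inv, neg_neg, Real.exp_log hε]
  have hmR : (1 : ℝ) ≤ m := by exact_mod_cast hm
  have hm0 : (0 : ℝ) < m := by linarith
  have hlogm : 0 ≤ Real.log m := Real.log_nonneg hmR
  set Λ : ℝ := 64 * L / t ^ 2 with hΛ
  have hΛ512 : 512 ≤ Λ := by
    rw [hΛ, le_div_iff₀ (by positivity)]; linarith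
  have hΛ0 : 0 < Λ := by linarith
  set η : ℝ := t ^ 2 / (64 * L) with hη
  have hη0 : 0 < η := by positivity
  have hηΛ : η * Λ = 1 := by rw [hη, hΛ]; field_simp
  have hη32 : η < 1 / 32 := by
    have : η = 1 / Λ := by field_simp; linarith
    rw [this, div_lt_div_iff₀ hΛ0 (by norm_num)]
    linarith
  set q : ℕ := ⌈Real.sqrt (8 * Λ)⌉₊ with hq
  have hsq : Real.sqrt (8 * Λ) ^ 2 = 8 * Λ := Real.sq_sqrt (by positivity)
  have hs64 : 64 ≤ Real.sqrt (8 * Λ) := by
    apply Real.le_sqrt_of_sq_le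
    linarith
  have hq1 : Real.sqrt (8 * Λ) ≤ q := Nat.le_ceil _
  have hq2 : (q : ℝ) ≤ Real.sqrt (8 * Λ) + 1 := (Nat.ceil_lt_add_one (by positivity)).le
  have hq8R : (64 : ℝ) ≤ q := hs64.trans hq1
  have hq8 : 8 ≤ q := by
    have : 64 ≤ q := by exact_mod_cast hq8R
    omega
  have hq0R : (0 : ℝ) < q := by linarith
  have hqsq : 8 * Λ ≤ (q : ℝ) ^ 2 := by
    rw [← hsq]; exact pow_le_pow_left₀ (by positivity) hq1 2
  have hηq : 8 ≤ η * (q : ℝ) ^ 2 := by
    have h1 : η * (8 * Λ) ≤ η * (q : ℝ) ^ 2 := mul_le_mul_of_nonneg_left hqsq hη0.le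
    have h2 : η * (8 * Λ) = 8 := by
      calc η * (8 * Λ) = 8 * (η * Λ) := by ring
        _ = 8 := by rw [hηΛ]; norm_num
    linarith
  have hqsq2 : (q : ℝ) ^ 2 ≤ 9 * Λ := by
    have h1 : (q : ℝ) ^ 2 ≤ (Real.sqrt (8 * Λ) + 1) ^ 2 := pow_le_pow_left₀ hq0R.le hq2 2
    have h2 : (Real.sqrt (8 * Λ) + 1) ^ 2 = 8 * Λ + 2 * Real.sqrt (8 * Λ) + 1 := by
      rw [add_sq, hsq]; ring
    have h3 : 2 * Real.sqrt (8 * Λ) + 1 ≤ Λ := by
      have h4 : Real.sqrt (8 * Λ) * 64 ≤ Real.sqrt (8 * Λ) * Real.sqrt (8 * Λ) :=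
        mul_le_mul_of_nonneg_left hs64 (by positivity)
      have h5 : Real.sqrt (8 * Λ) * Real.sqrt (8 * Λ) = 8 * Λ := by rw [← sq]; exact hsq
      linarith
    linarith
  have hlogq : Real.log q ≤ Real.log L := by
    have h1 := Real.log_le_log (by positivity) hqsq2
    rw [Real.log_pow] at h1
    have h2 : Real.log (9 * Λ) ≤ Real.log (L ^ 2) := by
      apply Real.log_le_log (by positivity)
      have h3 : 9 * Λ = (576 / t ^ 2) * L := by rw [hΛ]; ring
      rw [h3, sq L]
      exact mul_le_mul_of_nonneg_right hLt2 hL1.le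
    rw [Real.log_pow] at h2
    push_cast at h1 h2
    linarith
  have hlogq0 : 0 < Real.log q := Real.log_pos (by linarith)
  set y : ℝ := t ^ 2 / 4096 / (L * Real.log L) with hy
  have hy0 : 0 < y := by positivity
  have hye : y = η / (64 * Real.log L) := by rw [hy, hη]; field_simp; norm_num
  have hrp : (m : ℝ) ^ (1 - y) = m * Real.exp (-(y * Real.log m)) := by
    rw [Real.rpow_def_of_pos hm0, mul_sub, mul_one, sub_eq_add_neg, Real.exp_add,
      Real.exp_log hm0]
    congr 2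
    ring
  set N : ℕ := ⌊Real.log m / Real.log q⌋₊ with hN
  have hN1 : (N : ℝ) ≤ Real.log m / Real.log q := Nat.floor_le (by positivity)
  have hN2 : Real.log m / Real.log q < N + 1 := Nat.lt_floor_add_one _
  have hN3 : (N : ℝ) * Real.log q ≤ Real.log m := by rwa [le_div_iff₀ hlogq0] at hN1
  have hN4 : Real.log m < (N + 1) * Real.log q := by rwa [div_lt_iff₀ hlogq0] at hN2
  have hymain : y * Real.log m ≤ η * (N + 1) / 64 := by
    have h1 : y * Real.log m ≤ y * ((N + 1) * Real.log q) :=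
      mul_le_mul_of_nonneg_left hN4.le hy0.le
    have h2 : y * ((N + 1) * Real.log q) ≤ y * ((N + 1) * Real.log L) :=
      mul_le_mul_of_nonneg_left (mul_le_mul_of_nonneg_left hlogq (by positivity)) hy0.le
    have h3 : y * (((N : ℝ) + 1) * Real.log L) = η * (N + 1) / 64 := by
      rw [hye]; field_simp
    linarith
  have hpair : ∀ {n : ℕ} (u w : EuclideanSpace ℝ (Fin n)), ‖u‖ = 1 → ‖w‖ = 1 →
      ε < mu2 t u w → 128 * η < ‖u + w‖ ^ 2 := by
    intro n u w hu hw h
    by_contra hcon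
    push Not at hcon
    have hc := cap n u w t ht hu hw
    by_cases h0 : u + w = 0
    · rw [hc.2.1 h0] at h
      linarith
    · have hw0 : 0 < ‖u + w‖ := norm_pos_iff.2 h0
      have h1 : L ≤ 2 * t ^ 2 / ‖u + w‖ ^ 2 := by
        rw [le_div_iff₀ (by positivity)]
        have h2 : L * (128 * η) = 2 * t ^ 2 := by rw [hη]; field_simp; norm_num
        have h3 := mul_le_mul_of_nonneg_left hcon hL1.le
        linarith
      have h2 : Real.exp L ≤ Real.exp (2 * t ^ 2 / ‖u + w‖ ^ 2) := Real.exp_le_exp.2 h1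
      have h3 : ε * Real.exp L = 1 := by
        rw [← hexpL, ← Real.exp_add]; simp
      have h4 : ε * Real.exp L < mu2 t u w * Real.exp (2 * t ^ 2 / ‖u + w‖ ^ 2) := by
        calc ε * Real.exp L < mu2 t u w * Real.exp L :=
              mul_lt_mul_of_pos_right h (Real.exp_pos _)
          _ ≤ _ := mul_le_mul_of_nonneg_left h2 (hε.le.trans h.le)
      linarith [hc.1]
  rcases Nat.eq_zero_or_pos N with h0 | h0
  · refine ⟨1, fun _ => EuclideanSpace.single 0 1, fun i => by simp, ?_⟩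
    intro I _
    have h1 : (I.card : ℝ) ≤ m := by
      have : I.card ≤ Fintype.card (Fin m) := Finset.card_le_univ I
      rw [Fintype.card_fin] at this
      exact_mod_cast this
    rw [h0] at hymain
    have h2 : -(1 / 2) ≤ -(y * Real.log m) := by
      push_cast at hymain
      linarith
    have h3 := Real.add_one_le_exp (-(y * Real.log m))
    rw [hrp]
    nlinarith
  · obtain ⟨v, hv1, hv2⟩ := grid q N η hq8 h0 hη0 hη32 hηq m (by
      have h1 : (q : ℝ) ^ N ≤ m := by
        rw [← Real.log_le_log_iff (by positivity) hm0, Real.log_pow]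
        exact hN3
      exact_mod_cast h1)
    refine ⟨N, v, hv1, ?_⟩
    intro I hI
    have h1 := hv2 I (fun i hi j hj hij => hpair _ _ (hv1 i) (hv1 j) (hI i hi j hj hij))
    refine h1.trans ?_
    rw [hrp]
    have hstep : -(η * N / 64) ≤ 1 / 2048 + -(y * Real.log m) := by
      have : η * (N + 1) / 64 = η * N / 64 + η / 64 := by ring
      linarith
    have h9 := Real.exp_le_exp.2 hstep
    rw [Real.exp_add] at h9
    have h10 : Real.exp (1 / 2048) ≤ 13 / 12 := by
      have h11 := Real.abs_exp_sub_one_sub_id_le (x := (1 / 2048 : ℝ))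
        (by rw [abs_of_pos (by norm_num)]; norm_num)
      have h12 := (abs_le.1 h11).2
      norm_num at h12 ⊢
      linarith
    have hp := Real.exp_pos (-(y * Real.log m))
    calc 12 * (m : ℝ) * Real.exp (-(η * N / 64))
        ≤ 12 * m * (Real.exp (1 / 2048) * Real.exp (-(y * Real.log m))) :=
          mul_le_mul_of_nonneg_left h9 (by positivity)
      _ ≤ 12 * m * (13 / 12 * Real.exp (-(y * Real.log m))) := by
          apply mul_le_mul_of_nonneg_left _ (by positivity)
          exact mul_le_mul_of_nonneg_right h10 hp.le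
      _ = _ := by ring

end Pool.Agent.Lib.MP_cecf76_co.HS
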