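import Mathlib
import Pool.Agent.Lib.MP_cecf76_co.HS.Stmts
import Pool.Agent.Lib.MP_cecf76_co.Grid.Asm
import Pool.Agent.Lib.MP_cecf76_co.Grid.Tensor
import Pool.Agent.Lib.MP_cecf76_co.Grid.OneDim
import Pool.Agent.Lib.MP_cecf76_co.Grid.Good

set_option autoImplicit false

/-! Row A4: the normalised grid has no large subset without near-antipodal pairs. -/

namespace Pool.Agent.Lib.MP_cecf76_co.HS

open Finset Classical Grid

namespace A4

/-- The centred grid point as a vector. -/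
noncomputable def vec {q N : ℕ} (v : Fin N → Fin q) : EuclideanSpace ℝ (Fin N) :=
  WithLp.toLp 2 (fun i => ctr q (v i))

lemma vec_sq {q N : ℕ} (v : Fin N → Fin q) : ‖vec v‖ ^ 2 = ∑ i, (ctr q (v i)) ^ 2 := by
  rw [EuclideanSpace.real_norm_sq_eq]
  rfl

lemma vec_add_sq {q N : ℕ} (v w : Fin N → Fin q) :
    ‖vec v + vec w‖ ^ 2 = ∑ i, (ctr q (v i) + ctr q (w i)) ^ 2 := by
  rw [EuclideanSpace.real_norm_sq_eq]
  rfl

lemma vec_big {q N : ℕ} {v : Fin N → Fin q} (hv : Good q N v) :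
    (N : ℝ) * (q : ℝ) ^ 2 / 16 ≤ ‖vec v‖ ^ 2 := by
  rw [vec_sq]
  set K : Finset (Fin N) := univ.filter (fun i => (q : ℝ) / 2 ≤ |ctr q (v i)|) with hK
  have hK4 : (N : ℝ) ≤ 4 * (K.card : ℝ) := by exact_mod_cast hv
  have h1 : ∑ _i ∈ K, ((q : ℝ) / 2) ^ 2 ≤ ∑ i ∈ K, (ctr q (v i)) ^ 2 := by
    apply Finset.sum_le_sum
    intro i hi
    have h2 := (Finset.mem_filter.mp hi).2
    rw [← sq_abs (ctr q (v i))]
    exact pow_le_pow_left₀ (by positivity) h2 2
  have h3 : ∑ i ∈ K, (ctr q (v i)) ^ 2 ≤ ∑ i, (ctr q (v i)) ^ 2 :=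
    Finset.sum_le_sum_of_subset_of_nonneg (Finset.subset_univ _) (fun i _ _ => sq_nonneg _)
  rw [Finset.sum_const, nsmul_eq_mul] at h1
  have h4 : (N : ℝ) * (q : ℝ) ^ 2 / 16 ≤ (K.card : ℝ) * ((q : ℝ) / 2) ^ 2 := by
    have : 0 ≤ (q : ℝ) ^ 2 := by positivity
    nlinarith
  linarith

/-- Normalised vectors of near-antipodal vectors are near-antipodal. -/
lemma norm_add_le' {N : ℕ} (a b : EuclideanSpace ℝ (Fin N)) (ha : a ≠ 0) (hb : b ≠ 0) :
    ‖(‖a‖⁻¹) • a + (‖b‖⁻¹) • b‖ ≤ 2 * ‖a + b‖ / ‖a‖ := by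
  have ha0 : 0 < ‖a‖ := norm_pos_iff.mpr ha
  have hb0 : 0 < ‖b‖ := norm_pos_iff.mpr hb
  have e : (‖a‖⁻¹) • a + (‖b‖⁻¹) • b = (‖a‖⁻¹) • (a + b) + (‖b‖⁻¹ - ‖a‖⁻¹) • b := by
    rw [smul_add, sub_smul]
    abel
  have h1 : ‖(‖a‖⁻¹) • (a + b)‖ = ‖a + b‖ / ‖a‖ := by
    rw [norm_smul, norm_inv, norm_norm, inv_mul_eq_div]
  have h2 : ‖(‖b‖⁻¹ - ‖a‖⁻¹) • b‖ ≤ ‖a + b‖ / ‖a‖ := by
    rw [norm_smul, Real.norm_eq_abs]
    have e2 : |‖b‖⁻¹ - ‖a‖⁻¹| * ‖b‖ = |‖a‖ - ‖b‖| / ‖a‖ := by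
      have e3 : ‖b‖⁻¹ - ‖a‖⁻¹ = (‖a‖ - ‖b‖) / (‖a‖ * ‖b‖) := by
        field_simp
      rw [e3, abs_div, abs_of_pos (mul_pos ha0 hb0)]
      field_simp
    rw [e2]
    apply div_le_div_of_nonneg_right _ ha0.le
    have h3 := abs_norm_sub_norm_le a (-b)
    rw [norm_neg, sub_neg_eq_add] at h3
    exact h3
  rw [e]
  calc ‖(‖a‖⁻¹) • (a + b) + (‖b‖⁻¹ - ‖a‖⁻¹) • b‖
      ≤ ‖(‖a‖⁻¹) • (a + b)‖ + ‖(‖b‖⁻¹ - ‖a‖⁻¹) • b‖ := norm_add_le _ _
    _ ≤ ‖a + b‖ / ‖a‖ + ‖a + b‖ / ‖a‖ := by rw [h1]; linarith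
    _ = 2 * ‖a + b‖ / ‖a‖ := by ring

/-- The unit vector of a grid point. -/
noncomputable def uv {q N : ℕ} (v : Fin N → Fin q) : EuclideanSpace ℝ (Fin N) :=
  (‖vec v‖⁻¹) • vec v

lemma vec_ne {q N : ℕ} (hq : 0 < q) (hN : 0 < N) {v : Fin N → Fin q} (hv : Good q N v) :
    vec v ≠ 0 := by
  intro h
  have h1 := vec_big hv
  rw [h, norm_zero] at h1
  have hqR : (0 : ℝ) < q := by exact_mod_cast hq
  have hNR : (0 : ℝ) < N := by exact_mod_cast hN
  have : 0 < (N : ℝ) * (q : ℝ) ^ 2 / 16 := by positivity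
  norm_num at h1
  linarith

lemma uv_norm {q N : ℕ} (hq : 0 < q) (hN : 0 < N) {v : Fin N → Fin q} (hv : Good q N v) :
    ‖uv v‖ = 1 := by
  unfold uv
  rw [norm_smul, norm_inv, norm_norm]
  exact inv_mul_cancel₀ (norm_ne_zero_iff.mpr (vec_ne hq hN hv))

lemma uv_near {q N : ℕ} {η : ℝ} (hq : 0 < q) (hN : 0 < N) (hηq : 8 ≤ η * (q : ℝ) ^ 2)
    {v w : Fin N → Fin q} (hv : Good q N v) (hw : Good q N w)
    (h : ∑ i, cost q (v i) (Fin.rev (w i)) < η * N / 32) :
    ‖uv v + uv w‖ ^ 2 ≤ 128 * η := by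
  have hqR : (0 : ℝ) < q := by exact_mod_cast hq
  have hNR : (0 : ℝ) < N := by exact_mod_cast hN
  have h1 := near_sum hq h
  rw [← vec_add_sq] at h1
  have h2 : ‖vec v + vec w‖ ^ 2 ≤ 2 * η * N * (q : ℝ) ^ 2 := by
    refine h1.trans ?_
    have h7 : (N : ℝ) * 8 ≤ N * (η * (q : ℝ) ^ 2) := mul_le_mul_of_nonneg_left hηq hNR.le
    nlinarith
  have h3 := vec_big hv
  have h4 := norm_add_le' (vec v) (vec w) (vec_ne hq hN hv) (vec_ne hq hN hw)
  have hpos : 0 < ‖vec v‖ := norm_pos_iff.mpr (vec_ne hq hN hv)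
  have h5 : ‖uv v + uv w‖ ^ 2 ≤ (2 * ‖vec v + vec w‖ / ‖vec v‖) ^ 2 :=
    pow_le_pow_left₀ (norm_nonneg _) h4 2
  refine h5.trans ?_
  rw [div_pow, div_le_iff₀ (by positivity)]
  have hη0 : 0 ≤ η := by
    by_contra hcon
    have : η * (q : ℝ) ^ 2 ≤ 0 := mul_nonpos_of_nonpos_of_nonneg (not_le.mp hcon).le (by positivity)
    linarith
  have h6 : 128 * η * ((N : ℝ) * (q : ℝ) ^ 2 / 16) ≤ 128 * η * ‖vec v‖ ^ 2 :=
    mul_le_mul_of_nonneg_left h3 (by positivity)
  nlinarith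

end A4

open A4

/-- Row A4. -/
theorem grid : GridStmt := by
  intro q N η hq hN hη hη1 hηq m hm
  have hq0 : 0 < q := by omega
  have hqR : (0 : ℝ) < q := by exact_mod_cast hq0
  have hNR : (0 : ℝ) < N := by exact_mod_cast hN
  let V := {v : Fin N → Fin q // Good q N v}
  let near : V → V → Prop := fun v w => ∑ i, cost q (v.1 i) (Fin.rev (w.1 i)) < η * N / 32
  have hVcard : (Fintype.card V : ℝ) ≤ (q : ℝ) ^ N := by
    have h1 : Fintype.card V ≤ Fintype.card (Fin N → Fin q) :=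
      Fintype.card_le_of_injective Subtype.val Subtype.val_injective
    rw [Fintype.card_fun, Fintype.card_fin, Fintype.card_fin] at h1
    exact_mod_cast h1
  have hVcard2 : (q : ℝ) ^ N ≤ 6 * (Fintype.card V : ℝ) := by
    have h1 := good q N hq
    have h2 : Fintype.card V = (univ.filter (fun v : Fin N → Fin q => Good q N v)).card :=
      Fintype.card_subtype _
    rw [h2]; exact h1
  have hV0R : (0 : ℝ) < Fintype.card V := by
    have : (0 : ℝ) < (q : ℝ) ^ N := by positivity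
    linarith
  have hV0 : 0 < Fintype.card V := by exact_mod_cast hV0R
  have hs2 : ∀ v w : V, near v w → ‖uv v.1 + uv w.1‖ ^ 2 ≤ 128 * η := fun v w h =>
    uv_near hq0 hN hηq v.2 w.2 h
  set M : ℕ := Fintype.card V with hM
  have hMm : M ≤ m := by
    have h1 : (M : ℝ) ≤ m := hVcard.trans (by exact_mod_cast hm)
    exact_mod_cast h1
  let e : Fin M ≃ V := (Fintype.equivFin V).symm
  let h : Fin m → V := fun i => e ⟨i.val % M, Nat.mod_lt _ hV0⟩
  refine ⟨fun i => uv (h i).1, fun i => uv_norm hq0 hN (h i).2, ?_⟩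
  intro I hI
  set F := I.image h with hF
  have hfar : ∀ x ∈ F, ∀ y ∈ F, ¬ near x y := by
    intro x hx y hy hxy
    obtain ⟨i, hi, rfl⟩ := mem_image.1 hx
    obtain ⟨j, hj, rfl⟩ := mem_image.1 hy
    have h2 := hs2 _ _ hxy
    by_cases hij : i = j
    · subst hij
      have h3 : ‖uv (h i).1 + uv (h i).1‖ ^ 2 = 4 := by
        rw [← two_smul ℝ, norm_smul, uv_norm hq0 hN (h i).2]
        norm_num
      rw [h3] at h2
      linarith
    · have h3 := hI i hi j hj hij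
      linarith
  have hFcard : (F.card : ℝ) ≤ (q : ℝ) ^ N * Real.exp (-(η * N / 64)) := by
    have h1 := iso (tensor oneDim) q N (F.map (Function.Embedding.subtype _)) (η * N / 32) hq0 (by
      intro x hx y hy
      rw [mem_map] at hx hy
      obtain ⟨x', hx', rfl⟩ := hx
      obtain ⟨y', hy', rfl⟩ := hy
      have := hfar x' hx' y' hy'
      simp only [near, not_lt] at this
      exact this)
    rw [card_map] at h1
    refine h1.trans (le_of_eq ?_)
    congr 2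
    ring
  have hfib : ∀ a ∈ F, (I.filter (fun i => h i = a)).card ≤ m / M + 1 := by
    intro a _
    have h1 : (I.filter (fun i => h i = a)).card ≤ (Finset.range (m / M + 1)).card := by
      apply Finset.card_le_card_of_injOn (fun i => i.val / M)
      · intro i _
        simp only [Finset.coe_range, Set.mem_Iio]
        have := Nat.div_le_div_right (c := M) i.isLt.le
        omega
      · intro i hi j hj hij
        simp only [Finset.coe_filter, Set.mem_ofPred_eq] at hi hj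
        have h2 : h i = h j := by rw [hi.2, hj.2]
        have h3 : i.val % M = j.val % M := by
          have := e.injective h2
          simpa using this
        apply Fin.ext
        rw [← Nat.div_add_mod i.val M, ← Nat.div_add_mod j.val M, h3]
        congr 2
    simpa using h1
  have hcardI : I.card ≤ (m / M + 1) * F.card :=
    Finset.card_le_mul_card_image (f := h) I (m / M + 1) hfib
  have hcardI' : (I.card : ℝ) ≤ (2 * m / M) * F.card := by
    have h1 : (I.card : ℝ) ≤ ((m / M + 1 : ℕ) : ℝ) * F.card := by exact_mod_cast hcardI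
    refine h1.trans (mul_le_mul_of_nonneg_right ?_ (by positivity))
    push_cast
    have h2 : (((m / M : ℕ)) : ℝ) ≤ (m : ℝ) / M := Nat.cast_div_le
    have h3 : (1 : ℝ) ≤ (m : ℝ) / M := by
      rw [one_le_div hV0R]
      exact_mod_cast hMm
    have h4 : 2 * (m : ℝ) / M = (m : ℝ) / M + (m : ℝ) / M := by ring
    rw [h4]
    linarith
  calc (I.card : ℝ) ≤ (2 * m / M) * F.card := hcardI'
    _ ≤ (2 * m / M) * ((q : ℝ) ^ N * Real.exp (-(η * N / 64))) :=
        mul_le_mul_of_nonneg_left hFcard (by positivity)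
    _ ≤ (2 * m / M) * ((6 * M) * Real.exp (-(η * N / 64))) := by
        apply mul_le_mul_of_nonneg_left _ (by positivity)
        exact mul_le_mul_of_nonneg_right hVcard2 (Real.exp_pos _).le
    _ = 12 * m * Real.exp (-(η * N / 64)) := by
        field_simp
        ring

end Pool.Agent.Lib.MP_cecf76_co.HS
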