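import Pool.Agent.Lib.MP_cecf76_co.HS.Stmts

set_option autoImplicit false

/-! A2: the pigeonhole over the scales and over the mass classes (helper32). -/

namespace Pool.Agent.Lib.MP_cecf76_co.HS

open Finset Classical

namespace G32

variable {N m : ℕ}

/-- the points `± x j` -/
noncomputable def pt (x : Fin m → EuclideanSpace ℝ (Fin N)) (q : Fin m × Bool) :
    EuclideanSpace ℝ (Fin N) := if q.2 then x q.1 else -x q.1

theorem pt_true (x : Fin m → EuclideanSpace ℝ (Fin N)) (j : Fin m) : pt x (j, true) = x j := by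
  simp [pt]

theorem pt_false (x : Fin m → EuclideanSpace ℝ (Fin N)) (j : Fin m) : pt x (j, false) = -x j := by
  simp [pt]

theorem pt_not (x : Fin m → EuclideanSpace ℝ (Fin N)) (j : Fin m) (b : Bool) :
    pt x (j, !b) = -pt x (j, b) := by
  cases b <;> simp [pt]

/-- the points near `y` -/
noncomputable def near (x : Fin m → EuclideanSpace ℝ (Fin N)) (r : ℝ)
    (y : EuclideanSpace ℝ (Fin N)) : Finset (Fin m × Bool) :=
  univ.filter fun q => ‖y - pt x q‖ < r

theorem mem_near (x : Fin m → EuclideanSpace ℝ (Fin N)) (r : ℝ) (y : EuclideanSpace ℝ (Fin N))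
    (q : Fin m × Bool) : q ∈ near x r y ↔ ‖y - pt x q‖ < r := by
  unfold near
  rw [mem_filter]
  exact ⟨fun h => h.2, fun h => ⟨mem_univ _, h⟩⟩

theorem near_neg (x : Fin m → EuclideanSpace ℝ (Fin N)) (r : ℝ) (y : EuclideanSpace ℝ (Fin N)) :
    (near x r (-y)).card = (near x r y).card := by
  have key : ∀ (y : EuclideanSpace ℝ (Fin N)) (q : Fin m × Bool), q ∈ near x r (-y) →
      (q.1, !q.2) ∈ near x r y := by
    rintro y ⟨j, b⟩ hq
    rw [mem_near] at hq ⊢
    have h1 : y - pt x (j, !b) = -(-y - pt x (j, b)) := by rw [pt_not]; abel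
    rw [h1, norm_neg]
    exact hq
  refine card_bij' (fun q _ => (q.1, !q.2)) (fun q _ => (q.1, !q.2)) (fun q hq => key y q hq)
    (fun q hq => key (-y) q (by rwa [neg_neg])) ?_ ?_
  · rintro ⟨j, b⟩ _; simp
  · rintro ⟨j, b⟩ _; simp

/-- the number of points at distance less than `2 / 32 ^ k` -/
noncomputable def cnt (x : Fin m → EuclideanSpace ℝ (Fin N)) (i : Fin m) (k : ℕ) : ℕ :=
  (near x (2 * (1 / 32) ^ k) (x i)).card

theorem cnt_pos (x : Fin m → EuclideanSpace ℝ (Fin N)) (i : Fin m) (k : ℕ) : 1 ≤ cnt x i k := by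
  apply card_pos.2
  refine ⟨(i, true), ?_⟩
  rw [mem_near, pt_true, sub_self, norm_zero]
  positivity

theorem cnt_le (x : Fin m → EuclideanSpace ℝ (Fin N)) (i : Fin m) (k : ℕ) : cnt x i k ≤ 2 * m := by
  refine (card_le_univ _).trans ?_
  simp [Fintype.card_prod, mul_comm]

/-- one scale with small growth -/
theorem exists_scale (x : Fin m → EuclideanSpace ℝ (Fin N)) (K : ℕ) (hK : 0 < K)
    (i : Fin m) : ∃ k < K, (cnt x i k : ℝ) ≤ Real.exp (Real.log (2 * m) / K) * cnt x i (k + 1) := by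
  by_contra hcon
  push Not at hcon
  have hKpos : (0 : ℝ) < K := by exact_mod_cast hK
  have hpos : ∀ k, (0 : ℝ) < cnt x i k := fun k => by exact_mod_cast cnt_pos x i k
  have h1 : ∀ k < K, Real.log (2 * m) / K + Real.log (cnt x i (k + 1)) < Real.log (cnt x i k) := by
    intro k hk
    have h2 := hcon k hk
    have h3 := Real.log_lt_log (mul_pos (Real.exp_pos _) (hpos (k + 1))) h2
    rwa [Real.log_mul (Real.exp_pos _).ne' (hpos (k + 1)).ne', Real.log_exp] at h3
  have h2 : ∀ n ≤ K, n * (Real.log (2 * m) / K) + Real.log (cnt x i n) ≤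
      Real.log (cnt x i 0) := by
    intro n hn
    induction n with
    | zero => simp
    | succ n ih =>
      have h3 := ih (by omega)
      have h4 := h1 n (by omega)
      push_cast
      linarith
  have h2' : Real.log (2 * m) + Real.log (cnt x i K) < Real.log (cnt x i 0) := by
    obtain ⟨n, rfl⟩ : ∃ n, K = n + 1 := ⟨K - 1, by omega⟩
    have h3 := h2 n (by omega)
    have h4 := h1 n (by omega)
    have h5 : ((n : ℝ) + 1) * (Real.log (2 * m) / ((n : ℝ) + 1)) = Real.log (2 * m) := by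
      field_simp
    push_cast at h3 h4 ⊢
    linarith
  have h5 : Real.log (cnt x i 0) ≤ Real.log (2 * m) := by
    apply Real.log_le_log (hpos 0)
    exact_mod_cast cnt_le x i 0
  have h6 : 0 ≤ Real.log (cnt x i K) := Real.log_nonneg (by exact_mod_cast cnt_pos x i K)
  linarith

/-- a symmetric net -/
theorem exists_net (x : Fin m → EuclideanSpace ℝ (Fin N)) (hx : ∀ i, ‖x i‖ = 1)
    (U : Finset (Fin m)) (r : ℝ) (hr0 : 0 < r) (hr : r ≤ 2) :
    ∃ Z : Finset (EuclideanSpace ℝ (Fin N)),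
      (∀ z ∈ Z, ∃ j ∈ U, z = x j ∨ z = -x j) ∧ (∀ z ∈ Z, -z ∈ Z) ∧
      (∀ z ∈ Z, ∀ w ∈ Z, z ≠ w → r ≤ ‖z - w‖) ∧ ∀ i ∈ U, ∃ z ∈ Z, ‖x i - z‖ ≤ r := by
  let W : Finset (EuclideanSpace ℝ (Fin N)) := U.image x ∪ U.image (fun j => -x j)
  let S : Finset (Finset (EuclideanSpace ℝ (Fin N))) := W.powerset.filter fun Z =>
    (∀ z ∈ Z, -z ∈ Z) ∧ ∀ z ∈ Z, ∀ w ∈ Z, z ≠ w → r ≤ ‖z - w‖
  have hS : S.Nonempty := ⟨∅, by simp [S]⟩
  obtain ⟨Z, hZS, hmax⟩ := exists_max_image S card hS
  have hZ := (mem_filter.1 hZS)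
  obtain ⟨hZW, hneg, hsep⟩ := hZ
  rw [mem_powerset] at hZW
  refine ⟨Z, ?_, hneg, hsep, ?_⟩
  · intro z hz
    have := hZW hz
    simp only [W, mem_union, mem_image] at this
    rcases this with ⟨j, hj, rfl⟩ | ⟨j, hj, rfl⟩
    · exact ⟨j, hj, Or.inl rfl⟩
    · exact ⟨j, hj, Or.inr rfl⟩
  · intro i hi
    by_contra hcon
    push Not at hcon
    have hni : x i ∉ Z := by
      intro h
      have h1 := hcon _ h
      rw [sub_self, norm_zero] at h1
      linarith
    have hneg' : ∀ z ∈ Z, r < ‖-x i - z‖ := by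
      intro z hz
      have h1 := hcon _ (hneg z hz)
      have h2 : -x i - z = -(x i - -z) := by abel
      rw [h2, norm_neg]
      exact h1
    have h2 : r ≤ ‖x i - -x i‖ := by
      have : x i - -x i = (2 : ℝ) • x i := by
        rw [sub_neg_eq_add, two_smul]
      rw [this, norm_smul, hx i]
      simpa using hr
    have h2' : r ≤ ‖-x i - x i‖ := by
      rw [norm_sub_rev]
      exact h2
    have hmem : insert (x i) (insert (-x i) Z) ∈ S := by
      simp only [S, mem_filter, mem_powerset]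
      refine ⟨?_, ?_, ?_⟩
      · intro z hz
        rw [mem_insert, mem_insert] at hz
        rcases hz with rfl | rfl | hz
        · exact mem_union_left _ (mem_image_of_mem x hi)
        · exact mem_union_right _ (mem_image_of_mem (fun j => -x j) hi)
        · exact hZW hz
      · intro z hz
        rw [mem_insert, mem_insert] at hz
        rcases hz with rfl | rfl | hz
        · exact mem_insert_of_mem (mem_insert_self _ _)
        · rw [neg_neg]; exact mem_insert_self _ _
        · exact mem_insert_of_mem (mem_insert_of_mem (hneg z hz))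
      · intro z hz w hw hzw
        rw [mem_insert, mem_insert] at hz hw
        rcases hz with rfl | rfl | hz <;> rcases hw with rfl | rfl | hw
        · exact absurd rfl hzw
        · exact h2
        · exact (hcon w hw).le
        · exact h2'
        · exact absurd rfl hzw
        · exact (hneg' w hw).le
        · rw [norm_sub_rev]; exact (hcon z hz).le
        · rw [norm_sub_rev]; exact (hneg' z hz).le
        · exact hsep z hz w hw hzw
    have h3 := hmax _ hmem
    have h4 : Z.card < (insert (x i) (insert (-x i) Z)).card := by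
      apply card_lt_card
      refine ⟨fun z hz => mem_insert_of_mem (mem_insert_of_mem hz), fun h => hni ?_⟩
      exact h (mem_insert_self _ _)
    omega

/-- the net has few points near `x i` -/
theorem net_card (x : Fin m → EuclideanSpace ℝ (Fin N)) (U : Finset (Fin m)) (k a : ℕ)
    (hU : ∀ j ∈ U, 2 ^ a ≤ cnt x j (k + 1)) (Z : Finset (EuclideanSpace ℝ (Fin N)))
    (hZ : ∀ z ∈ Z, ∃ j ∈ U, z = x j ∨ z = -x j)
    (hsep : ∀ z ∈ Z, ∀ w ∈ Z, z ≠ w → (1 / 32 : ℝ) ^ k / 8 ≤ ‖z - w‖) (i : Fin m) :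
    (Z.filter (fun z => ‖x i - z‖ < (1 / 32 : ℝ) ^ k)).card * 2 ^ a ≤ cnt x i k := by
  have hr : (2 * (1 / 32 : ℝ) ^ (k + 1)) = (1 / 32 : ℝ) ^ k / 16 := by
    rw [pow_succ]; ring
  have hρ : (0 : ℝ) < (1 / 32 : ℝ) ^ k := by positivity
  have hdisj : ∀ z ∈ Z.filter (fun z => ‖x i - z‖ < (1 / 32 : ℝ) ^ k),
      ∀ w ∈ Z.filter (fun z => ‖x i - z‖ < (1 / 32 : ℝ) ^ k), z ≠ w →
      Disjoint (near x (2 * (1 / 32) ^ (k + 1)) z) (near x (2 * (1 / 32) ^ (k + 1)) w) := by
    intro z hz w hw hzw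
    rw [disjoint_left]
    intro q hq1 hq2
    rw [mem_near, hr] at hq1 hq2
    have h1 := hsep z (mem_filter.1 hz).1 w (mem_filter.1 hw).1 hzw
    have h2 : ‖z - w‖ ≤ ‖z - pt x q‖ + ‖w - pt x q‖ := by
      have : z - w = (z - pt x q) - (w - pt x q) := by abel
      rw [this]
      exact norm_sub_le _ _
    linarith
  have hcard : ∀ z ∈ Z.filter (fun z => ‖x i - z‖ < (1 / 32 : ℝ) ^ k),
      2 ^ a ≤ (near x (2 * (1 / 32) ^ (k + 1)) z).card := by
    intro z hz
    obtain ⟨j, hj, hzj⟩ := hZ z (mem_filter.1 hz).1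
    rcases hzj with rfl | rfl
    · exact hU j hj
    · rw [near_neg]; exact hU j hj
  calc (Z.filter (fun z => ‖x i - z‖ < (1 / 32 : ℝ) ^ k)).card * 2 ^ a
      = ∑ z ∈ Z.filter (fun z => ‖x i - z‖ < (1 / 32 : ℝ) ^ k), 2 ^ a := by
        rw [sum_const, smul_eq_mul]
    _ ≤ ∑ z ∈ Z.filter (fun z => ‖x i - z‖ < (1 / 32 : ℝ) ^ k),
        (near x (2 * (1 / 32) ^ (k + 1)) z).card := sum_le_sum hcard
    _ = ((Z.filter (fun z => ‖x i - z‖ < (1 / 32 : ℝ) ^ k)).biUnion
        (fun z => near x (2 * (1 / 32) ^ (k + 1)) z)).card := (card_biUnion hdisj).symm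
    _ ≤ cnt x i k := by
        apply card_le_card
        intro q hq
        rw [mem_biUnion] at hq
        obtain ⟨z, hz, hq⟩ := hq
        rw [mem_near, hr] at hq
        rw [mem_near]
        have h1 := (mem_filter.1 hz).2
        have h2 : ‖x i - pt x q‖ ≤ ‖x i - z‖ + ‖z - pt x q‖ := by
          have : x i - pt x q = (x i - z) + (z - pt x q) := by abel
          rw [this]
          exact norm_add_le _ _
        linarith

end G32

open G32 in
theorem growth32 (hcore : CoreStmt) : GrowthStmt := by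
  intro N m K x θ hm hK hx hθ hθK
  have hmpos : (0 : ℝ) < m := by exact_mod_cast hm
  have hm1 : (1 : ℝ) ≤ m := by exact_mod_cast hm
  have hKpos : (0 : ℝ) < K := by exact_mod_cast hK
  have hlm : 0 ≤ Real.log m := Real.log_nonneg hm1
  have hl2m : 0 ≤ Real.log (2 * m) := Real.log_nonneg (by linarith)
  -- the classes
  choose kk hkk hkk' using exists_scale x K hK
  let L := Nat.log 2 (2 * m)
  let cls : Fin m → ℕ × ℕ := fun i => (kk i, Nat.log 2 (cnt x i (kk i + 1)))
  have hmaps : ∀ i ∈ (univ : Finset (Fin m)), cls i ∈ range K ×ˢ range (L + 1) := by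
    intro i _
    rw [mem_product, mem_range, mem_range]
    have h1 : Nat.log 2 (cnt x i (kk i + 1)) ≤ Nat.log 2 (2 * m) :=
      Nat.log_mono_right (cnt_le x i _)
    exact ⟨hkk i, Nat.lt_succ_of_le h1⟩
  have hne : (range K ×ˢ range (L + 1)).Nonempty := by
    refine ⟨(0, 0), ?_⟩
    rw [mem_product, mem_range, mem_range]
    exact ⟨hK, Nat.succ_pos _⟩
  obtain ⟨⟨k, a⟩, hka, hU⟩ := exists_le_card_fiber_of_nsmul_le_card_of_maps_to (M := ℝ)
    (b := (m : ℝ) / (K * (L + 1))) hmaps hne (by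
      rw [card_product, card_range, card_range, nsmul_eq_mul, card_univ, Fintype.card_fin]
      push_cast
      rw [mul_div_cancel₀]
      positivity)
  rw [mem_product, mem_range, mem_range] at hka
  obtain ⟨hk, -⟩ := hka
  set U := (univ : Finset (Fin m)).filter (fun i => cls i = (k, a)) with hUdef
  have hUmem : ∀ i ∈ U, kk i = k ∧ Nat.log 2 (cnt x i (k + 1)) = a := by
    intro i hi
    have h1 := (mem_filter.1 hi).2
    have h2 : kk i = k := congrArg Prod.fst h1
    have h3 : Nat.log 2 (cnt x i (kk i + 1)) = a := congrArg Prod.snd h1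
    exact ⟨h2, by rw [← h2]; exact h3⟩
  have hlow : ∀ i ∈ U, 2 ^ a ≤ cnt x i (k + 1) := by
    intro i hi
    rw [← (hUmem i hi).2]
    exact Nat.pow_log_le_self 2 (by have := cnt_pos x i (k + 1); omega)
  have hupp : ∀ i ∈ U, (cnt x i (k + 1) : ℝ) ≤ 2 * 2 ^ a := by
    intro i hi
    have h1 : cnt x i (k + 1) < 2 ^ (a + 1) := by
      rw [← (hUmem i hi).2]
      exact Nat.lt_pow_succ_log_self (by norm_num) _
    have h2 : ((cnt x i (k + 1) : ℕ) : ℝ) ≤ ((2 ^ (a + 1) : ℕ) : ℝ) := by exact_mod_cast h1.le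
    rw [pow_succ] at h2
    push_cast at h2
    linarith
  set ρ : ℝ := (1 / 32 : ℝ) ^ k with hρdef
  have hρ : 0 < ρ := by positivity
  have hρ1 : ρ ≤ 1 := pow_le_one₀ (by norm_num) (by norm_num)
  obtain ⟨Z, hZ1, hZ2, hZ3, hZ4⟩ := exists_net x hx U (ρ / 8) (by positivity) (by linarith)
  set κ : ℝ := Real.log (2 * m) / K + Real.log 2 with hκ
  have hκ0 : 0 ≤ κ := by positivity
  have hκ1 : κ ≤ Real.log (2 * m) / K + 1 := by
    have := Real.log_two_lt_d9
    linarith
  have hρθ : 16 * θ ≤ ρ := by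
    have h1 : (32 : ℝ) ^ (K - 1) * (1 / 32) ^ k ≥ 1 := by
      obtain ⟨n, hn⟩ : ∃ n, K - 1 = k + n := ⟨K - 1 - k, by omega⟩
      rw [hn, pow_add]
      have h2 : (32 : ℝ) ^ k * (1 / 32) ^ k = 1 := by rw [← mul_pow]; norm_num
      have h3 : (1 : ℝ) ≤ 32 ^ n := one_le_pow₀ (by norm_num)
      nlinarith
    have h2 : (0 : ℝ) < 32 ^ (K - 1) := by positivity
    have h4 : 16 * θ * (32 ^ (K - 1) * (1 / 32) ^ k) ≤ (1 / 32) ^ k := by
      have := mul_le_mul_of_nonneg_right hθK hρ.le
      rw [one_mul] at this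
      calc 16 * θ * (32 ^ (K - 1) * (1 / 32) ^ k) = 16 * θ * 32 ^ (K - 1) * ρ := by
            rw [hρdef]; ring
        _ ≤ _ := this
    nlinarith
  obtain ⟨I, hI1, hI2⟩ := hcore N {i // i ∈ U} (fun i => x i.1) Z θ ρ κ (fun i => hx _)
    (by
      intro z hz
      obtain ⟨j, _, hj⟩ := hZ1 z hz
      rcases hj with rfl | rfl
      · exact hx j
      · rw [norm_neg]; exact hx j)
    hZ2 hθ hρθ hρ1 hκ0 (fun i => hZ4 i.1 i.2)
    (by
      intro i
      have h1 := net_card x U k a hlow Z hZ1 hZ3 i.1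
      have h2 := hkk' i.1
      rw [(hUmem i.1 i.2).1] at h2
      have h3 := hupp i.1 i.2
      have h4 : ((Z.filter (fun z => ‖x i.1 - z‖ < ρ)).card : ℝ) * 2 ^ a ≤ cnt x i.1 k := by
        exact_mod_cast h1
      have h5 : ((Z.filter (fun z => ‖x i.1 - z‖ < ρ)).card : ℝ) * 2 ^ a ≤
          (Real.exp (Real.log (2 * m) / K) * 2) * 2 ^ a := by
        calc _ ≤ (cnt x i.1 k : ℝ) := h4
          _ ≤ Real.exp (Real.log (2 * m) / K) * cnt x i.1 (k + 1) := h2
          _ ≤ Real.exp (Real.log (2 * m) / K) * (2 * 2 ^ a) :=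
            mul_le_mul_of_nonneg_left h3 (Real.exp_pos _).le
          _ = _ := by ring
      have h6 := le_of_mul_le_mul_right h5 (by positivity)
      rw [hκ, Real.exp_add, Real.exp_log (by norm_num)]
      convert h6 using 3)
  refine ⟨I.map ⟨Subtype.val, Subtype.val_injective⟩, ?_, ?_⟩
  · rw [card_map]
    rw [Fintype.card_coe] at hI1
    have hL : (L : ℝ) + 1 ≤ Real.log m / Real.log 2 + 2 := by
      have h1 : (L : ℝ) ≤ Real.logb 2 (2 * m) := by
        have := Real.natLog_le_logb (2 * m) 2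
        push_cast at this
        exact this
      have h2 : Real.logb 2 (2 * m) = 1 + Real.log m / Real.log 2 := by
        rw [Real.logb, Real.log_mul (by norm_num) hmpos.ne', add_div, div_self]
        exact (Real.log_pos (by norm_num)).ne'
      linarith
    have hlog2 : (0.69 : ℝ) < Real.log 2 := by
      have := Real.log_two_gt_d9
      linarith
    have hL' : (L : ℝ) + 1 ≤ Real.exp 2 * (Real.log m + 3) := by
      have h1 : Real.log m / Real.log 2 ≤ 2 * Real.log m := by
        rw [div_le_iff₀ (by linarith)]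
        nlinarith
      have h2 : (2 : ℝ) ≤ Real.exp 2 := by
        have := Real.add_one_le_exp (2 : ℝ)
        linarith
      nlinarith
    have hexp : Real.exp (-(40 + 1024 * κ * θ ^ 2)) ≥
        Real.exp 2 * Real.exp (-(42 + 1024 * θ ^ 2 * (Real.log (2 * m) / K + 1))) := by
      rw [ge_iff_le, ← Real.exp_add]
      apply Real.exp_le_exp.2
      nlinarith [sq_nonneg θ, mul_le_mul_of_nonneg_left hκ1 (by positivity : (0:ℝ) ≤ 1024 * θ ^ 2)]
    have hUc : (m : ℝ) ≤ K * (L + 1) * U.card := by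
      have h1 : (m : ℝ) / (K * (L + 1)) ≤ U.card := hU
      rwa [div_le_iff₀ (by positivity), mul_comm] at h1
    set E := Real.exp (-(42 + 1024 * θ ^ 2 * (Real.log (2 * m) / K + 1))) with hE
    have hEpos : 0 < E := Real.exp_pos _
    calc (m : ℝ) * E ≤ K * (L + 1) * U.card * E := mul_le_mul_of_nonneg_right hUc hEpos.le
      _ ≤ K * (Real.exp 2 * (Real.log m + 3)) * U.card * E := by
        gcongr
      _ = K * (Real.log m + 3) * (U.card * (Real.exp 2 * E)) := by ring
      _ ≤ K * (Real.log m + 3) * (I.card : ℝ) := by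
        apply mul_le_mul_of_nonneg_left _ (by positivity)
        calc (U.card : ℝ) * (Real.exp 2 * E) ≤
            U.card * Real.exp (-(40 + 1024 * κ * θ ^ 2)) :=
              mul_le_mul_of_nonneg_left hexp (by positivity)
          _ ≤ _ := hI1
  · intro i hi j hj
    rw [mem_map] at hi hj
    obtain ⟨i', hi', rfl⟩ := hi
    obtain ⟨j', hj', rfl⟩ := hj
    exact hI2 i' hi' j' hj'

end Pool.Agent.Lib.MP_cecf76_co.HS
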