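import Mathlib
import Pool.Agent.Lib.MP_cecf76_co.HS.Stmts

set_option autoImplicit false

/-! Row B2: biased product measures on blocks. -/

namespace Pool.Agent.Lib.MP_cecf76_co.HS

open Finset Classical

namespace Kn

/-- The weights of one coordinate. -/
noncomputable def w (p : ℝ) (a : Bool) : ℝ := if a then p else 1 - p

/-- The biased product measure. -/
noncomputable def mu {k : ℕ} (p : ℝ) (x : Fin k → Bool) : ℝ := ∏ i, w p (x i)

/-- The factor of one coordinate. -/
noncomputable def ee (Z : ℝ) (a b : Bool) : ℝ := if a && b then Z else 1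

lemma w_nonneg {p : ℝ} (h0 : 0 ≤ p) (h1 : p ≤ 1) (a : Bool) : 0 ≤ w p a := by
  unfold w
  split
  · exact h0
  · linarith

lemma mu_nonneg {k : ℕ} {p : ℝ} (h0 : 0 ≤ p) (h1 : p ≤ 1) (x : Fin k → Bool) : 0 ≤ mu p x :=
  prod_nonneg (fun _ _ => w_nonneg h0 h1 _)

lemma sum_cons {N : ℕ} (F : (Fin (N + 1) → Bool) → ℝ) :
    ∑ x, F x = ∑ a : Bool, ∑ x : Fin N → Bool, F (Fin.cons a x) := by
  rw [← (Fin.consEquiv (fun _ : Fin (N + 1) => Bool)).sum_comp, Fintype.sum_prod_type]
  rfl

lemma sum_prod : ∀ {k : ℕ} (F : Fin k → Bool → ℝ),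
    ∑ x : Fin k → Bool, ∏ i, F i (x i) = ∏ i, ∑ a, F i a := by
  intro k
  induction k with
  | zero => intro F; simp
  | succ k ih =>
    intro F
    rw [sum_cons, Fin.prod_univ_succ, ← ih (fun i => F i.succ), Finset.sum_mul]
    apply Finset.sum_congr rfl
    intro a _
    rw [Finset.mul_sum]
    apply Finset.sum_congr rfl
    intro x _
    rw [Fin.prod_univ_succ]
    simp

lemma w_sum (p : ℝ) : ∑ a, w p a = 1 := by
  simp [w]

lemma mu_sum {k : ℕ} (p : ℝ) : ∑ x : Fin k → Bool, mu p x = 1 := by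
  unfold mu
  rw [sum_prod (fun _ a => w p a)]
  exact Finset.prod_eq_one (fun _ _ => w_sum p)

lemma mu_marg {k : ℕ} (p : ℝ) (j : Fin k) :
    ∑ x : Fin k → Bool, mu p x * (if x j = true then 1 else 0) = p := by
  have h1 : ∀ x : Fin k → Bool, mu p x * (if x j = true then 1 else 0) =
      ∏ i, (w p (x i) * (if i = j then (if x i = true then 1 else 0) else 1)) := by
    intro x
    rw [Finset.prod_mul_distrib]
    unfold mu
    congr 1
    rw [Finset.prod_ite_eq' univ j (fun i => if x i = true then (1 : ℝ) else 0)]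
    simp
  simp_rw [h1]
  rw [sum_prod (fun i a => w p a * (if i = j then (if a = true then 1 else 0) else 1))]
  rw [Finset.prod_eq_single j]
  · simp [w]
  · intro i _ hij
    simp [hij, w]
  · intro h
    exact absurd (mem_univ j) h

lemma onedim {p Z C s t u v : ℝ} (hp : 0 ≤ p) (hp1 : p ≤ 1) (hZ : p ^ 2 * Z = (1 - p) ^ 2)
    (hs0 : 0 ≤ s) (hv0 : 0 ≤ v) (hs : s ≤ C) (hu : u ≤ C)
    (hv : v ≤ C) (ht : t ≤ C * Z) (hst : s * t = u * v) :
    (1 - p) ^ 2 * s + p * (1 - p) * (u + v) + p ^ 2 * t ≤ C := by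
  have hC : 0 ≤ C := hs0.trans hs
  have h1 : p * (1 - p) * (u + v) ≤ p * (1 - p) * (2 * C) :=
    mul_le_mul_of_nonneg_left (by linarith) (mul_nonneg hp (by linarith))
  have hCC : (1 - p) ^ 2 * C + p * (1 - p) * (2 * C) + p ^ 2 * C = C := by ring
  rcases le_or_gt t C with h | h
  · have h2 : (1 - p) ^ 2 * s ≤ (1 - p) ^ 2 * C := mul_le_mul_of_nonneg_left hs (sq_nonneg _)
    have h3 : p ^ 2 * t ≤ p ^ 2 * C := mul_le_mul_of_nonneg_left h (sq_nonneg _)
    linarith
  · have htp : 0 < t := hC.trans_lt h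
    have h2 : s * t ≤ C * C := by
      rw [hst]
      exact mul_le_mul hu hv hv0 hC
    have h3 : p ^ 2 * t ≤ (1 - p) ^ 2 * C := by
      calc p ^ 2 * t ≤ p ^ 2 * (C * Z) := mul_le_mul_of_nonneg_left ht (sq_nonneg _)
        _ = (p ^ 2 * Z) * C := by ring
        _ = (1 - p) ^ 2 * C := by rw [hZ]
    have h4 : ((1 - p) ^ 2 * s + p ^ 2 * t) * t ≤ ((1 - p) ^ 2 * C + p ^ 2 * C) * t := by
      have h5 : (1 - p) ^ 2 * (s * t) ≤ (1 - p) ^ 2 * (C * C) :=
        mul_le_mul_of_nonneg_left h2 (sq_nonneg _)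
      have h6 : 0 ≤ (t - C) * ((1 - p) ^ 2 * C - p ^ 2 * t) :=
        mul_nonneg (by linarith) (by linarith)
      nlinarith
    have h5 : (1 - p) ^ 2 * s + p ^ 2 * t ≤ (1 - p) ^ 2 * C + p ^ 2 * C :=
      le_of_mul_le_mul_right h4 htp
    linarith

lemma tensor {p Z : ℝ} (hp : 0 ≤ p) (hp1 : p ≤ 1) (hZ : p ^ 2 * Z = (1 - p) ^ 2) :
    ∀ (k : ℕ) (f g : (Fin k → Bool) → ℝ) (C : ℝ), (∀ x, 0 ≤ f x) → (∀ x, 0 ≤ g x) →
    (∀ x y, f x * g y ≤ C * ∏ i, ee Z (x i) (y i)) →
    (∑ x, mu p x * f x) * (∑ y, mu p y * g y) ≤ C := by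
  intro k
  induction k with
  | zero =>
    intro f g C hf hg h
    have h1 := h Fin.elim0 Fin.elim0
    simp only [Finset.univ_eq_empty, Finset.prod_empty, mul_one] at h1
    have h2 : ∀ F : (Fin 0 → Bool) → ℝ, ∑ x, mu p x * F x = F Fin.elim0 := by
      intro F
      rw [Fintype.sum_unique]
      simp only [mu, Finset.univ_eq_empty, Finset.prod_empty, one_mul]
      congr 1
    rw [h2, h2]
    exact h1
  | succ k ih =>
    intro f g C hf hg h
    have hdec : ∀ F : (Fin (k + 1) → Bool) → ℝ, ∑ x, mu p x * F x =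
        p * (∑ x : Fin k → Bool, mu p x * F (Fin.cons true x)) +
        (1 - p) * (∑ x : Fin k → Bool, mu p x * F (Fin.cons false x)) := by
      intro F
      rw [sum_cons, Fintype.sum_bool, Finset.mul_sum, Finset.mul_sum]
      congr 1
      · apply Finset.sum_congr rfl
        intro x _
        unfold mu
        rw [Fin.prod_univ_succ]
        simp only [Fin.cons_zero, Fin.cons_succ, w]
        simp
        ring
      · apply Finset.sum_congr rfl
        intro x _
        unfold mu
        rw [Fin.prod_univ_succ]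
        simp only [Fin.cons_zero, Fin.cons_succ, w]
        simp
        ring
    rw [hdec f, hdec g]
    have hpair : ∀ a b : Bool, (∑ x : Fin k → Bool, mu p x * f (Fin.cons a x)) *
        (∑ x : Fin k → Bool, mu p x * g (Fin.cons b x)) ≤ C * ee Z a b := by
      intro a b
      apply ih (fun x => f (Fin.cons a x)) (fun y => g (Fin.cons b y)) (C * ee Z a b)
        (fun _ => hf _) (fun _ => hg _)
      intro x y
      have h1 := h (Fin.cons a x) (Fin.cons b y)
      rw [Fin.prod_univ_succ] at h1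
      simp only [Fin.cons_zero, Fin.cons_succ] at h1
      rw [mul_assoc]
      exact h1
    have hfn : ∀ a : Bool, 0 ≤ ∑ x : Fin k → Bool, mu p x * f (Fin.cons a x) := fun a =>
      sum_nonneg (fun x _ => mul_nonneg (mu_nonneg hp hp1 x) (hf _))
    have hgn : ∀ a : Bool, 0 ≤ ∑ x : Fin k → Bool, mu p x * g (Fin.cons a x) := fun a =>
      sum_nonneg (fun x _ => mul_nonneg (mu_nonneg hp hp1 x) (hg _))
    set F1 := ∑ x : Fin k → Bool, mu p x * f (Fin.cons true x) with hF1
    set F0 := ∑ x : Fin k → Bool, mu p x * f (Fin.cons false x) with hF0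
    set G1 := ∑ x : Fin k → Bool, mu p x * g (Fin.cons true x) with hG1
    set G0 := ∑ x : Fin k → Bool, mu p x * g (Fin.cons false x) with hG0
    have e11 := hpair true true
    have e10 := hpair true false
    have e01 := hpair false true
    have e00 := hpair false false
    simp only [ee, Bool.and_self, if_true, Bool.and_false, Bool.false_and,
      Bool.false_eq_true, if_false, mul_one] at e11 e10 e01 e00
    have := onedim (s := F0 * G0) (t := F1 * G1) (u := F0 * G1) (v := F1 * G0) (C := C) hp hp1 hZ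
      (mul_nonneg (hfn false) (hgn false)) (mul_nonneg (hfn true) (hgn false))
      e00 e01 e10 e11 (by ring)
    calc (p * F1 + (1 - p) * F0) * (p * G1 + (1 - p) * G0)
        = (1 - p) ^ 2 * (F0 * G0) + p * (1 - p) * (F0 * G1 + F1 * G0) + p ^ 2 * (F1 * G1) := by
          ring
      _ ≤ C := this

/-- Families with many common ones are small. -/
lemma small {k : ℕ} {p z t : ℝ} (hp : 0 < p) (hp1 : p ≤ 1) (hz : z = (1 - p) / p) (hz1 : 1 ≤ z)
    (F : Finset (Fin k → Bool))
    (hF : ∀ x ∈ F, ∀ y ∈ F, t ≤ ((univ.filter (fun i => x i = true ∧ y i = true)).card : ℝ)) :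
    ∑ x ∈ F, mu p x ≤ Real.exp (-(t * Real.log z)) := by
  have hz0 : 0 < z := by linarith
  have hlz : 0 ≤ Real.log z := Real.log_nonneg hz1
  have hZ : p ^ 2 * z ^ 2 = (1 - p) ^ 2 := by
    rw [hz]
    field_simp
  set E : ℝ := Real.exp (t * Real.log z) with hE
  have hE0 : 0 < E := Real.exp_pos _
  have key := tensor hp.le hp1 hZ k (fun x => if x ∈ F then E else 0)
    (fun x => if x ∈ F then E else 0) 1 (fun x => by split <;> positivity)
    (fun x => by split <;> positivity) (by
      intro x y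
      have hprod : ∏ i, ee (z ^ 2) (x i) (y i) =
          (z ^ 2) ^ (univ.filter (fun i => x i = true ∧ y i = true)).card := by
        unfold ee
        rw [Finset.prod_ite, Finset.prod_const, Finset.prod_const_one, mul_one]
        congr 2
        ext i
        simp
      rw [one_mul, hprod]
      have hpos : 0 ≤ (z ^ 2) ^ (univ.filter (fun i => x i = true ∧ y i = true)).card := by
        positivity
      by_cases hx : x ∈ F
      · by_cases hy : y ∈ F
        · rw [if_pos hx, if_pos hy]
          have h1 := hF x hx y hy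
          have h2 : (z ^ 2) ^ (univ.filter (fun i => x i = true ∧ y i = true)).card =
              Real.exp (2 * (((univ.filter (fun i => x i = true ∧ y i = true)).card : ℝ) *
                Real.log z)) := by
            rw [← pow_mul, ← Real.exp_log hz0, ← Real.exp_nat_mul, Real.log_exp]
            congr 1
            push_cast
            ring
          rw [h2, hE, ← Real.exp_add]
          apply Real.exp_le_exp.mpr
          nlinarith
        · rw [if_neg hy, mul_zero]
          exact hpos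
      · rw [if_neg hx, zero_mul]
        exact hpos)
  have e1 : ∑ x : Fin k → Bool, mu p x * (if x ∈ F then E else 0) = E * ∑ x ∈ F, mu p x := by
    rw [Finset.mul_sum, ← Finset.sum_filter_add_sum_filter_not univ (fun x => x ∈ F)]
    have h1 : ∑ x ∈ univ.filter (fun x => ¬ x ∈ F), mu p x * (if x ∈ F then E else 0) = 0 := by
      apply Finset.sum_eq_zero
      intro x hx
      rw [if_neg (Finset.mem_filter.mp hx).2, mul_zero]
    rw [h1, add_zero]
    have h2 : univ.filter (fun x => x ∈ F) = F := by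
      ext x
      simp
    rw [h2]
    apply Finset.sum_congr rfl
    intro x hx
    rw [if_pos hx]
    ring
  rw [e1] at key
  have hm0 : 0 ≤ ∑ x ∈ F, mu p x := sum_nonneg (fun x _ => mu_nonneg hp.le hp1 x)
  have h3 : E * ∑ x ∈ F, mu p x ≤ 1 := by
    by_contra hcon
    have h4 : 1 < E * ∑ x ∈ F, mu p x := not_le.mp hcon
    nlinarith
  rw [Real.exp_neg, ← hE, ← one_div, le_div_iff₀ hE0]
  linarith

/-- The sets. -/
def AA {n k : ℕ} (hk : 0 < k) (x : Fin k → Bool) : Finset (Fin n) :=
  univ.filter (fun i : Fin n => x ⟨i.val % k, Nat.mod_lt _ hk⟩ = true)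

lemma AA_mean {n k : ℕ} (hk : 0 < k) (p : ℝ) :
    ∑ x : Fin k → Bool, mu p x * ((AA (n := n) hk x).card : ℝ) = n * p := by
  have h1 : ∀ x : Fin k → Bool, ((AA (n := n) hk x).card : ℝ) =
      ∑ i : Fin n, if x ⟨i.val % k, Nat.mod_lt _ hk⟩ = true then (1 : ℝ) else 0 := by
    intro x
    unfold AA
    rw [Finset.card_filter]
    push_cast
    rfl
  simp_rw [h1, Finset.mul_sum]
  rw [Finset.sum_comm]
  have h2 : ∀ i : Fin n, ∑ x : Fin k → Bool, mu p x *
      (if x ⟨i.val % k, Nat.mod_lt _ hk⟩ = true then (1 : ℝ) else 0) = p :=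
    fun i => mu_marg p _
  rw [Finset.sum_congr rfl (fun i _ => h2 i)]
  simp

lemma AA_big {n k : ℕ} (hn : 0 < n) (hk : 0 < k) {p c : ℝ} (hp : 0 ≤ p) (hp1 : p ≤ 1)
    (hc : 0 ≤ c) :
    p - c ≤ ∑ x ∈ univ.filter (fun x : Fin k → Bool => c * n < ((AA (n := n) hk x).card : ℝ)),
      mu p x := by
  have hnR : (0 : ℝ) < n := by exact_mod_cast hn
  set G := univ.filter (fun x : Fin k → Bool => c * n < ((AA (n := n) hk x).card : ℝ)) with hG
  have h1 := AA_mean (n := n) hk p
  rw [← Finset.sum_filter_add_sum_filter_not univ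
    (fun x : Fin k → Bool => c * n < ((AA (n := n) hk x).card : ℝ))] at h1
  have h2 : ∑ x ∈ G, mu p x * ((AA (n := n) hk x).card : ℝ) ≤ n * ∑ x ∈ G, mu p x := by
    rw [Finset.mul_sum]
    apply Finset.sum_le_sum
    intro x _
    rw [mul_comm]
    apply mul_le_mul_of_nonneg_right _ (mu_nonneg hp hp1 x)
    have := Finset.card_le_univ (AA (n := n) hk x)
    rw [Fintype.card_fin] at this
    exact_mod_cast this
  have h3 : ∑ x ∈ univ.filter (fun x : Fin k → Bool => ¬ c * n < ((AA (n := n) hk x).card : ℝ)),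
      mu p x * ((AA (n := n) hk x).card : ℝ) ≤ c * n := by
    calc ∑ x ∈ univ.filter (fun x : Fin k → Bool => ¬ c * n < ((AA (n := n) hk x).card : ℝ)),
          mu p x * ((AA (n := n) hk x).card : ℝ)
        ≤ ∑ x ∈ univ.filter (fun x : Fin k → Bool =>
            ¬ c * n < ((AA (n := n) hk x).card : ℝ)), mu p x * (c * n) := by
          apply Finset.sum_le_sum
          intro x hx
          apply mul_le_mul_of_nonneg_left _ (mu_nonneg hp hp1 x)
          exact not_lt.mp (Finset.mem_filter.mp hx).2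
      _ ≤ ∑ x : Fin k → Bool, mu p x * (c * n) := by
          apply Finset.sum_le_sum_of_subset_of_nonneg (Finset.filter_subset _ _)
          intro x _ _
          exact mul_nonneg (mu_nonneg hp hp1 x) (by positivity)
      _ = c * n := by rw [← Finset.sum_mul, mu_sum, one_mul]
  have h4 : n * p ≤ n * (∑ x ∈ G, mu p x + c) := by
    rw [← h1, mul_add]
    linarith
  have h5 := le_of_mul_le_mul_left h4 hnR
  linarith

lemma AA_inter {n k : ℕ} (hk : 0 < k) (hkn : k ≤ n) {ε : ℝ} (x y : Fin k → Bool)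
    (h : ε * n < ((AA (n := n) hk x ∩ AA hk y).card : ℝ)) :
    ε * k / 2 ≤ ((univ.filter (fun i => x i = true ∧ y i = true)).card : ℝ) := by
  have hkR : (0 : ℝ) < k := by exact_mod_cast hk
  have hnR : (0 : ℝ) < n := by
    have : 0 < n := by omega
    exact_mod_cast this
  set b : Fin n → Fin k := fun i => ⟨i.val % k, Nat.mod_lt _ hk⟩ with hb
  have h1 : (AA (n := n) hk x ∩ AA hk y).card ≤ (n / k + 1) *
      ((AA (n := n) hk x ∩ AA hk y).image b).card := by
    apply Finset.card_le_mul_card_image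
    intro a _
    have h2 : ((AA (n := n) hk x ∩ AA hk y).filter (fun i => b i = a)).card ≤
        (Finset.range (n / k + 1)).card := by
      apply Finset.card_le_card_of_injOn (fun i : Fin n => i.val / k)
      · intro i _
        simp only [Finset.coe_range, Set.mem_Iio]
        have := Nat.div_le_div_right (c := k) i.isLt.le
        omega
      · intro i hi j hj hij
        have e1 : b i = a := (Finset.mem_filter.mp hi).2
        have e2 : b j = a := (Finset.mem_filter.mp hj).2
        have e3 : i.val % k = j.val % k := by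
          have := e1.trans e2.symm
          simpa [hb] using this
        have e4 : i.val / k = j.val / k := hij
        apply Fin.ext
        rw [← Nat.div_add_mod i.val k, ← Nat.div_add_mod j.val k, e3, e4]
    simpa using h2
  have h2 : ((AA (n := n) hk x ∩ AA hk y).image b).card ≤
      (univ.filter (fun i => x i = true ∧ y i = true)).card := by
    apply Finset.card_le_card
    intro j hj
    obtain ⟨i, hi, rfl⟩ := Finset.mem_image.mp hj
    have h3 := Finset.mem_inter.mp hi
    exact Finset.mem_filter.mpr ⟨Finset.mem_univ _, (Finset.mem_filter.mp h3.1).2,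
      (Finset.mem_filter.mp h3.2).2⟩
  have h3 : ((n / k + 1 : ℕ) : ℝ) * k ≤ 2 * n := by
    have e1 : (n / k) * k ≤ n := Nat.div_mul_le_self n k
    have e2 : (n / k + 1) * k ≤ 2 * n := by
      rw [add_mul, one_mul]
      omega
    exact_mod_cast e2
  have h4 : ((AA (n := n) hk x ∩ AA hk y).card : ℝ) ≤ ((n / k + 1 : ℕ) : ℝ) *
      ((univ.filter (fun i => x i = true ∧ y i = true)).card : ℝ) := by
    have := h1.trans (Nat.mul_le_mul_left (n / k + 1) h2)
    exact_mod_cast this
  set J : ℝ := ((univ.filter (fun i => x i = true ∧ y i = true)).card : ℝ) with hJ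
  have hJ0 : 0 ≤ J := Nat.cast_nonneg _
  have h5 : ε * n * k ≤ 2 * n * J := by
    calc ε * n * k ≤ (((n / k + 1 : ℕ) : ℝ) * J) * k :=
          mul_le_mul_of_nonneg_right (h.le.trans h4) hkR.le
      _ = (((n / k + 1 : ℕ) : ℝ) * k) * J := by ring
      _ ≤ 2 * n * J := mul_le_mul_of_nonneg_right h3 hJ0
  have h6 : n * (ε * k) ≤ n * (2 * J) := by linarith
  have h7 := le_of_mul_le_mul_left h6 hnR
  linarith

/-- A map with prescribed fibre sizes. -/
lemma exists_map {α : Type} (m : ℕ) (G : Finset α) (N : α → ℕ)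
    (h : m ≤ ∑ x ∈ G, N x) :
    ∃ φ : Fin m → α, (∀ i, φ i ∈ G) ∧ ∀ x, (univ.filter (fun i => φ i = x)).card ≤ N x := by
  have h1 : m ≤ (G.sigma (fun x => Finset.range (N x))).card := by
    rw [Finset.card_sigma]
    simpa using h
  obtain ⟨T, hT, hTc⟩ := Finset.exists_subset_card_eq h1
  let e : Fin m ≃ T := (T.equivFinOfCardEq hTc).symm
  refine ⟨fun i => (e i).1.1, ?_, ?_⟩
  · intro i
    exact (Finset.mem_sigma.mp (hT (e i).2)).1
  · intro x
    have h2 : (univ.filter (fun i => (e i).1.1 = x)).card ≤ (Finset.range (N x)).card := by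
      apply Finset.card_le_card_of_injOn (fun i : Fin m => (e i).1.2)
      · intro i hi
        have e1 : (e i).1.1 = x := (Finset.mem_filter.mp hi).2
        have e2 := (Finset.mem_sigma.mp (hT (e i).2)).2
        rw [e1] at e2
        exact e2
      · intro i hi j hj hij
        have e1 : (e i).1.1 = x := (Finset.mem_filter.mp hi).2
        have e2 : (e j).1.1 = x := (Finset.mem_filter.mp hj).2
        apply e.injective
        apply Subtype.ext
        apply Sigma.ext
        · exact e1.trans e2.symm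
        · exact heq_of_eq hij
    simpa using h2

/-- The bound for `k` blocks. -/
lemma main {n m k : ℕ} {c ε p z g σ : ℝ} (hn : 0 < n) (hm : 0 < m) (hk : 0 < k) (hkn : k ≤ n)
    (hkm : (k : ℝ) ≤ Real.log m) (hε : 0 < ε) (hεc : ε ≤ c) (hc : c < 1 / 2)
    (hp : p = 1 / 4 + c / 2) (hz : z = (1 - p) / p) (hg : g = 1 / 2 - c) (hz1 : 1 ≤ z)
    (hlz : ε / 2 * Real.log z ≤ 3 / 10)
    (hσ : σ = Real.exp (-(ε * k / 2 * Real.log z))) :
    (f n m c ε : ℝ) ≤ m * σ * (2 / g + 1) := by
  have hnR : (0 : ℝ) < n := by exact_mod_cast hn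
  have hmR : (0 : ℝ) < m := by exact_mod_cast hm
  have hkR : (0 : ℝ) < k := by exact_mod_cast hk
  have hp0 : 0 < p := by rw [hp]; linarith
  have hp1 : p ≤ 1 := by rw [hp]; linarith
  have hg0 : 0 < g := by rw [hg]; linarith
  have hσ0 : 0 < σ := by rw [hσ]; exact Real.exp_pos _
  set G := univ.filter (fun x : Fin k → Bool => c * n < ((AA (n := n) hk x).card : ℝ)) with hG
  set M : ℝ := ∑ x ∈ G, mu p x with hM
  have hMg : g / 2 ≤ M := by
    have h1 := AA_big (n := n) hn hk hp0.le hp1 (by linarith : 0 ≤ c)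
    have h2 : p - c = g / 2 := by rw [hp, hg]; ring
    rw [h2] at h1
    exact h1
  have hM0 : 0 < M := by linarith
  obtain ⟨φ, hφG, hφ⟩ := exists_map m G (fun x => ⌈(m : ℝ) * mu p x / M⌉₊) (by
    have h1 : (m : ℝ) ≤ ∑ x ∈ G, ((⌈(m : ℝ) * mu p x / M⌉₊ : ℕ) : ℝ) := by
      calc (m : ℝ) = ∑ x ∈ G, (m : ℝ) * mu p x / M := by
            rw [← Finset.sum_div, ← Finset.mul_sum, ← hM]
            field_simp
        _ ≤ _ := Finset.sum_le_sum (fun x _ => Nat.le_ceil _)
    exact_mod_cast h1)
  apply f_le (A := fun i => AA hk (φ i))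
  · intro i
    exact (Finset.mem_filter.mp (hφG i)).2
  · intro I hI
    set F := I.image φ with hF
    have hFpair : ∀ x ∈ F, ∀ y ∈ F,
        ε * k / 2 ≤ ((univ.filter (fun i => x i = true ∧ y i = true)).card : ℝ) := by
      intro x hx y hy
      obtain ⟨i, hi, rfl⟩ := Finset.mem_image.mp hx
      obtain ⟨j, hj, rfl⟩ := Finset.mem_image.mp hy
      apply AA_inter (n := n) hk hkn
      by_cases hij : i = j
      · subst hij
        rw [Finset.inter_self]
        have h1 := (Finset.mem_filter.mp (hφG i)).2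
        have h2 : ε * n ≤ c * n := mul_le_mul_of_nonneg_right hεc hnR.le
        linarith
      · exact hI i hi j hj hij
    have hFmu := small hp0 hp1 hz hz1 F hFpair
    rw [← hσ] at hFmu
    have h1 : (I.card : ℝ) ≤ ∑ x ∈ F, ((m : ℝ) * mu p x / M + 1) := by
      rw [Finset.card_eq_sum_card_image φ I]
      push_cast
      apply Finset.sum_le_sum
      intro x _
      have h2 : (I.filter (fun i => φ i = x)).card ≤ ⌈(m : ℝ) * mu p x / M⌉₊ := by
        have e1 := Finset.card_le_card
          (Finset.filter_subset_filter (fun i => φ i = x) (Finset.subset_univ I))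
        have e2 : (univ.filter (fun i => φ i = x)).card ≤ ⌈(m : ℝ) * mu p x / M⌉₊ := by
          have e3 := hφ x
          have e4 : (univ.filter (fun i => φ i = x)).card =
              (@Finset.filter (Fin m) (fun i => φ i = x) (fun a => propDecidable _) univ).card := by
            congr
          rw [e4]
          exact e3
        exact e1.trans e2
      have h3 : ((⌈(m : ℝ) * mu p x / M⌉₊ : ℕ) : ℝ) ≤ (m : ℝ) * mu p x / M + 1 :=
        (Nat.ceil_lt_add_one (div_nonneg (mul_nonneg hmR.le (mu_nonneg hp0.le hp1 x))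
          hM0.le)).le
      have h4 : ((I.filter (fun i => φ i = x)).card : ℝ) ≤
          ((⌈(m : ℝ) * mu p x / M⌉₊ : ℕ) : ℝ) := by exact_mod_cast h2
      exact h4.trans h3
    have h2 : ∑ x ∈ F, ((m : ℝ) * mu p x / M + 1) = m * (∑ x ∈ F, mu p x) / M + F.card := by
      rw [Finset.sum_add_distrib, ← Finset.sum_div, ← Finset.mul_sum]
      simp
    have h3 : m * (∑ x ∈ F, mu p x) / M ≤ m * σ * (2 / g) := by
      have e1 : m * (∑ x ∈ F, mu p x) / M ≤ m * σ / M := by
        apply div_le_div_of_nonneg_right _ hM0.le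
        exact mul_le_mul_of_nonneg_left hFmu hmR.le
      have e2 : m * σ / M ≤ m * σ / (g / 2) :=
        div_le_div_of_nonneg_left (by positivity) (by positivity) hMg
      have e3 : m * σ / (g / 2) = m * σ * (2 / g) := by field_simp
      linarith
    have h4 : (F.card : ℝ) ≤ m * σ := by
      have e1 : (F.card : ℝ) ≤ 2 ^ k := by
        have := Finset.card_le_univ F
        simp only [Fintype.card_pi, Fintype.card_bool, Finset.prod_const, Finset.card_univ,
          Fintype.card_fin] at this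
        exact_mod_cast this
      have e2 : (2 : ℝ) ^ k = Real.exp (k * Real.log 2) := by
        rw [Real.exp_nat_mul, Real.exp_log (by norm_num)]
      have e3 : (m : ℝ) * σ = Real.exp (Real.log m + -(ε * k / 2 * Real.log z)) := by
        rw [Real.exp_add, Real.exp_log hmR, hσ]
      rw [e3]
      rw [e2] at e1
      refine e1.trans (Real.exp_le_exp.mpr ?_)
      have h5 : Real.log 2 < 0.6931471808 := Real.log_two_lt_d9
      have h6 : ε * k / 2 * Real.log z ≤ 3 / 10 * k := by
        have := mul_le_mul_of_nonneg_right hlz hkR.le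
        linarith
      have h7 : k * Real.log 2 ≤ k * (7 / 10) :=
        mul_le_mul_of_nonneg_left (by linarith) hkR.le
      linarith
    calc (I.card : ℝ) ≤ m * (∑ x ∈ F, mu p x) / M + F.card := by rw [← h2]; exact h1
      _ ≤ m * σ * (2 / g) + m * σ := add_le_add h3 h4
      _ = m * σ * (2 / g + 1) := by ring

lemma log_three : Real.log 3 ≤ 6 / 5 := by
  have h1 : (2.7182818283 : ℝ) < Real.exp 1 := Real.exp_one_gt_d9
  have h2 : (1 / 5 : ℝ) + 1 ≤ Real.exp (1 / 5) := Real.add_one_le_exp _
  have h3 : (3 : ℝ) ≤ Real.exp (6 / 5) := by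
    rw [show (6 / 5 : ℝ) = 1 + 1 / 5 by norm_num, Real.exp_add]
    nlinarith
  calc Real.log 3 ≤ Real.log (Real.exp (6 / 5)) := Real.log_le_log (by norm_num) h3
    _ = 6 / 5 := Real.log_exp _

end Kn

/-- Row B2. -/
theorem kn : KnStmt := by
  intro n m c ε hn hm hε hεc hc
  have hnR : (0 : ℝ) < n := by exact_mod_cast hn
  have hmR : (0 : ℝ) < m := by exact_mod_cast hm
  have hm1 : (1 : ℝ) ≤ m := by exact_mod_cast hm
  have hlm : 0 ≤ Real.log m := Real.log_nonneg hm1
  have hc0 : 0 < c := by linarith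
  set g : ℝ := 1 / 2 - c with hg
  have hg0 : 0 < g := by rw [hg]; linarith
  have hg1 : g ≤ 1 / 2 := by rw [hg]; linarith
  set z : ℝ := (3 - 2 * c) / (1 + 2 * c) with hz
  have hz1 : 1 ≤ z := by
    rw [hz, le_div_iff₀ (by linarith)]
    linarith
  have hz3 : z ≤ 3 := by
    rw [hz, div_le_iff₀ (by linarith)]
    linarith
  have hlz0 : 0 ≤ Real.log z := Real.log_nonneg hz1
  have hlz1 : Real.log z ≤ 6 / 5 := (Real.log_le_log (by linarith) hz3).trans Kn.log_three
  have hlz : ε / 2 * Real.log z ≤ 3 / 10 := by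
    have h1 : ε / 2 * Real.log z ≤ 1 / 4 * (6 / 5) :=
      mul_le_mul (by linarith) hlz1 hlz0 (by norm_num)
    linarith
  have hpz : z = (1 - (1 / 4 + c / 2)) / (1 / 4 + c / 2) := by
    rw [hz, div_eq_div_iff (by linarith) (by linarith)]
    ring
  set k : ℕ := min n ⌊Real.log m⌋₊ with hk
  set σ : ℝ := Real.exp (-(ε * k / 2 * Real.log z)) with hσ
  have hσ0 : 0 < σ := Real.exp_pos _
  have hkm : (k : ℝ) ≤ Real.log m := by
    have h1 : (k : ℝ) ≤ (⌊Real.log m⌋₊ : ℝ) := by exact_mod_cast min_le_right _ _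
    exact h1.trans (Nat.floor_le hlm)
  have hmin : min (n : ℝ) (Real.log m) ≤ k + 1 := by
    rcases le_total n ⌊Real.log m⌋₊ with h | h
    · have h1 : k = n := by rw [hk]; exact min_eq_left h
      rw [h1]
      exact (min_le_left _ _).trans (by linarith)
    · have h1 : k = ⌊Real.log m⌋₊ := by rw [hk]; exact min_eq_right h
      rw [h1]
      exact (min_le_right _ _).trans (Nat.lt_floor_add_one _).le
  have hmain : (f n m c ε : ℝ) ≤ m * σ * (2 / g + 1) := by
    rcases Nat.eq_zero_or_pos k with h0 | h0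
    · have h1 : σ = 1 := by
        rw [hσ, h0]
        simp
      rw [h1, mul_one]
      have h2 : (f n m c ε : ℝ) ≤ m := by exact_mod_cast (f_mem n m c ε).1
      have h3 : 0 < 2 / g := by positivity
      nlinarith
    · exact Kn.main hn hm h0 (by rw [hk]; exact min_le_left _ _) hkm hε hεc hc rfl hpz hg hz1
        hlz hσ
  have hexp : 7 / 10 * σ ≤ Real.exp (-(ε / 2 * Real.log z * min (n : ℝ) (Real.log m))) := by
    have h1 : ε / 2 * Real.log z * min (n : ℝ) (Real.log m) ≤
        ε * k / 2 * Real.log z + 3 / 10 := by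
      have h2 : ε / 2 * Real.log z * min (n : ℝ) (Real.log m) ≤
          ε / 2 * Real.log z * (k + 1) :=
        mul_le_mul_of_nonneg_left hmin (by positivity)
      linarith
    have h3 : (7 / 10 : ℝ) ≤ Real.exp (-(3 / 10)) := by
      have := Real.add_one_le_exp (-(3 / 10 : ℝ))
      linarith
    calc 7 / 10 * σ ≤ Real.exp (-(3 / 10)) * σ := mul_le_mul_of_nonneg_right h3 hσ0.le
      _ = Real.exp (-(3 / 10) + -(ε * k / 2 * Real.log z)) := by rw [Real.exp_add, hσ]
      _ ≤ _ := Real.exp_le_exp.mpr (by linarith)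
  have hcoef : 2 / g + 1 ≤ 6 / g ^ 2 * (7 / 10) := by
    rw [div_add_one hg0.ne', div_mul_eq_mul_div, div_le_div_iff₀ hg0 (by positivity)]
    nlinarith
  calc (f n m c ε : ℝ) ≤ m * σ * (2 / g + 1) := hmain
    _ ≤ m * σ * (6 / g ^ 2 * (7 / 10)) := mul_le_mul_of_nonneg_left hcoef (by positivity)
    _ = 6 / g ^ 2 * m * (7 / 10 * σ) := by ring
    _ ≤ 6 / g ^ 2 * m * Real.exp (-(ε / 2 * Real.log z * min (n : ℝ) (Real.log m))) :=
        mul_le_mul_of_nonneg_left hexp (by positivity)

end Pool.Agent.Lib.MP_cecf76_co.HS
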