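import Mathlib
import Pool.Agent.Lib.MP_cecf76_co.Core
import Pool.Agent.Lib.MP_cecf76_co.Grid.Asm
import Pool.Agent.Lib.MP_cecf76_co.Grid.Tensor
import Pool.Agent.Lib.MP_cecf76_co.Grid.OneDim
import Pool.Agent.Lib.MP_cecf76_co.Grid.LO
import Pool.Agent.Lib.MP_cecf76_co.Grid.Hoeff
import Pool.Agent.Lib.MP_cecf76_co.Grid.Good
import Pool.Agent.Lib.MP_cecf76_co.Grid.Samp
import Pool.Agent.Lib.MP_cecf76_co.HS.Stmts

set_option autoImplicit false

/-! B1: the grid bound with a Poisson tail for the sampling. -/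

namespace Pool.Agent.Lib.MP_cecf76_co.HS

open Finset Classical Grid

section

variable {Ω : Type} [Fintype Ω]

/-- few samples see a small set often (Poisson tail) -/
lemma high2 [Nonempty Ω] (B : Finset Ω) (n : ℕ) (ε p : ℝ) (hp : 0 < p) (hpe : p ≤ ε)
    (hB : (B.card : ℝ) ≤ p * Fintype.card Ω) :
    ((univ.filter (fun s : Fin n → Ω =>
      ε * n < ((univ.filter (fun i => s i ∈ B)).card : ℝ))).card : ℝ) ≤
      (Fintype.card Ω : ℝ) ^ n * Real.exp (-(ε * n * (Real.log (ε / p) - 1))) := by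
  have hM : (0 : ℝ) < Fintype.card Ω := by exact_mod_cast Fintype.card_pos
  have hε : 0 < ε := hp.trans_le hpe
  set M : ℝ := ((Fintype.card Ω : ℕ) : ℝ) with hMdef
  set t : ℝ := Real.log (ε / p) with ht
  have ht0 : 0 ≤ t := Real.log_nonneg ((one_le_div hp).2 hpe)
  have het : Real.exp t = ε / p := Real.exp_log (by positivity)
  have h1 : ((univ.filter (fun s : Fin n → Ω =>
      ε * n < ((univ.filter (fun i => s i ∈ B)).card : ℝ))).card : ℝ) * Real.exp (t * (ε * n)) ≤
      (M + B.card * (Real.exp t - 1)) ^ n := by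
    rw [← SampAux.mom B n t, ← nsmul_eq_mul, ← Finset.sum_const]
    refine (Finset.sum_le_sum fun s hs => ?_).trans
      (Finset.sum_le_sum_of_subset_of_nonneg (Finset.filter_subset _ _) fun s _ _ =>
        (Real.exp_pos _).le)
    refine Real.exp_le_exp.mpr ?_
    have := (Finset.mem_filter.mp hs).2
    exact mul_le_mul_of_nonneg_left this.le ht0
  have he0 : 0 ≤ Real.exp t - 1 := by
    have := Real.add_one_le_exp t
    linarith
  have h2 : M + B.card * (Real.exp t - 1) ≤ M * Real.exp ε := by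
    have h3 : (B.card : ℝ) * (Real.exp t - 1) ≤ (p * M) * (Real.exp t - 1) :=
      mul_le_mul_of_nonneg_right hB he0
    have h4 := Real.add_one_le_exp ε
    have h5 : (p * M) * (Real.exp t - 1) = (ε - p) * M := by
      rw [het]; field_simp
    nlinarith [mul_le_mul_of_nonneg_left h4 hM.le, mul_pos hp hM]
  have h3 : 0 ≤ M + B.card * (Real.exp t - 1) := by positivity
  have h4 := h1.trans (pow_le_pow_left₀ h3 h2 n)
  rw [mul_pow, ← Real.exp_nat_mul] at h4
  have h5 : Real.exp (n * ε) = Real.exp (-(ε * n * (t - 1))) * Real.exp (t * (ε * n)) := by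
    rw [← Real.exp_add]
    congr 1
    ring
  rw [h5, ← mul_assoc (M ^ n)] at h4
  exact le_of_mul_le_mul_right h4 (Real.exp_pos _)

end

open Grid.SampAux in
theorem samp2 (Ω V : Type) [Fintype Ω] [Fintype V] [Nonempty Ω] (A : V → Finset Ω)
    (near : V → V → Prop) (n : ℕ) (c c' ε p : ℝ) (hc : 0 ≤ c) (hcc : c < c') (hc1 : c' ≤ 1)
    (hp : 0 < p) (hpe : p ≤ ε)
    (hA : ∀ v, c' * Fintype.card Ω ≤ ((A v).card : ℝ))
    (hnear : ∀ v w, near v w → ((A v ∩ A w).card : ℝ) ≤ p * Fintype.card Ω)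
    (hlt : (Fintype.card V : ℝ) * Real.exp (-((c' - c) ^ 2 * n / 2)) +
      (Fintype.card V : ℝ) ^ 2 * Real.exp (-(ε * n * (Real.log (ε / p) - 1))) < 1) :
    ∃ s : Fin n → Ω, (∀ v, c * n < ((univ.filter (fun i => s i ∈ A v)).card : ℝ)) ∧
      (∀ v w, near v w →
        ((univ.filter (fun i => s i ∈ A v) ∩ univ.filter (fun i => s i ∈ A w)).card : ℝ) ≤
          ε * n) := by
  have hM : (0 : ℝ) < (Fintype.card Ω : ℝ) ^ n := by
    have : (0 : ℝ) < Fintype.card Ω := by exact_mod_cast Fintype.card_pos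
    positivity
  set L : V → Finset (Fin n → Ω) := fun v => univ.filter (fun s : Fin n → Ω =>
      ((univ.filter (fun i => s i ∈ A v)).card : ℝ) ≤ c * n) with hL
  set H : V × V → Finset (Fin n → Ω) := fun q => if near q.1 q.2 then
    univ.filter (fun s : Fin n → Ω =>
      ε * n < ((univ.filter (fun i => s i ∈ A q.1 ∩ A q.2)).card : ℝ)) else ∅ with hH
  have hLc : ∀ v, ((L v).card : ℝ) ≤
      (Fintype.card Ω : ℝ) ^ n * Real.exp (-((c' - c) ^ 2 * n / 2)) := fun v =>
    low (A v) n c c' hc hcc hc1 (hA v)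
  have hHc : ∀ q, ((H q).card : ℝ) ≤ (Fintype.card Ω : ℝ) ^ n * Real.exp (-(ε * n * (Real.log (ε / p) - 1))) := by
    intro q
    simp only [hH]
    split_ifs with h
    · exact high2 _ n ε p hp hpe (hnear _ _ h)
    · simp only [card_empty, Nat.cast_zero]
      positivity
  set Bad : Finset (Fin n → Ω) := univ.biUnion L ∪ univ.biUnion H with hBad
  have hcard : (Bad.card : ℝ) < (Fintype.card Ω : ℝ) ^ n := by
    have h1 : (Bad.card : ℝ) ≤ ∑ v, ((L v).card : ℝ) + ∑ q, ((H q).card : ℝ) := by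
      have h2 : Bad.card ≤ ∑ v, (L v).card + ∑ q, (H q).card :=
        (card_union_le _ _).trans (Nat.add_le_add card_biUnion_le card_biUnion_le)
      exact_mod_cast h2
    have h2 : ∑ v, ((L v).card : ℝ) ≤ Fintype.card V *
        ((Fintype.card Ω : ℝ) ^ n * Real.exp (-((c' - c) ^ 2 * n / 2))) := by
      refine (Finset.sum_le_sum fun v _ => hLc v).trans ?_
      rw [Finset.sum_const, card_univ, nsmul_eq_mul]
    have h3 : ∑ q, ((H q).card : ℝ) ≤ (Fintype.card V : ℝ) ^ 2 *
        ((Fintype.card Ω : ℝ) ^ n * Real.exp (-(ε * n * (Real.log (ε / p) - 1)))) := by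
      refine (Finset.sum_le_sum fun q _ => hHc q).trans ?_
      rw [Finset.sum_const, card_univ, nsmul_eq_mul, Fintype.card_prod]
      push_cast
      rw [sq]
    have h4 := mul_lt_mul_of_pos_left hlt hM
    nlinarith
  have hex : ∃ s, s ∉ Bad := by
    by_contra hcon
    push Not at hcon
    have h1 : Bad = univ := Finset.eq_univ_iff_forall.mpr hcon
    rw [h1, card_univ, Fintype.card_fun, Fintype.card_fin] at hcard
    push_cast at hcard
    exact lt_irrefl _ hcard
  obtain ⟨s, hs⟩ := hex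
  rw [hBad, mem_union, not_or] at hs
  refine ⟨s, fun v => ?_, fun v w hvw => ?_⟩
  · by_contra hcon
    push Not at hcon
    exact hs.1 (mem_biUnion.mpr ⟨v, mem_univ _, mem_filter.mpr ⟨mem_univ _, hcon⟩⟩)
  · by_contra hcon
    push Not at hcon
    refine hs.2 (mem_biUnion.mpr ⟨(v, w), mem_univ _, ?_⟩)
    simp only [hH]
    rw [if_pos hvw, mem_filter]
    refine ⟨mem_univ _, ?_⟩
    have h1 : univ.filter (fun i => s i ∈ A v ∩ A w) =
        univ.filter (fun i => s i ∈ A v) ∩ univ.filter (fun i => s i ∈ A w) := by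
      ext i
      simp
    rw [h1]
    exact hcon

lemma cap_inter2 (hHo : HoeffStmt) {q N : ℕ} (hq : 0 < q) (hN : 0 < N) {τ η p : ℝ} (hτ : 0 < τ)
    (hη : 0 < η) (hp : 0 < p) (hηq : 8 ≤ η * (q : ℝ) ^ 2) (hlog : Real.log (1 / p) ≤ τ ^ 2 / η)
    {v w : Fin N → Fin q}
    (h : ∑ i, cost q (v i) (Fin.rev (w i)) < η * N / 32) (X : Finset (Fin N → Bool))
    (hX : ∀ s ∈ X, s ∈ cap q (τ * Real.sqrt N * q) v ∧ s ∈ cap q (τ * Real.sqrt N * q) w) :
    (X.card : ℝ) ≤ p * 2 ^ N := by
  have hqR : (0 : ℝ) < q := by exact_mod_cast hq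
  have hNR : (0 : ℝ) < N := by exact_mod_cast hN
  set T : ℝ := τ * Real.sqrt N * q with hT
  have hT0 : 0 ≤ T := by positivity
  set W : ℝ := 32 * (q : ℝ) ^ 2 * (η * N / 32) + 8 * N with hW
  have hW0 : 0 < W := by positivity
  have h1 := hHo N (fun i => ctr q (v i) + ctr q (w i)) (2 * T) W (by positivity) hW0
    (near_sum hq h)
  have hsub : X ⊆ univ.filter (fun s : Fin N → Bool =>
      2 * T ≤ rad (fun i => ctr q (v i) + ctr q (w i)) s) := by
    intro s hs
    replace hs := hX s hs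
    simp only [cap, mem_filter, mem_univ, true_and] at hs ⊢
    have : rad (fun i => ctr q (v i) + ctr q (w i)) s =
        rad (fun i => ctr q (v i)) s + rad (fun i => ctr q (w i)) s := by
      unfold rad
      rw [← sum_add_distrib]
      apply sum_congr rfl
      intro i _; ring
    rw [this]
    linarith [hs.1, hs.2]
  have h2 : (X.card : ℝ) ≤
      2 ^ N * Real.exp (-((2 * T) ^ 2 / (2 * W))) := by
    refine le_trans ?_ h1
    exact_mod_cast card_le_card hsub
  refine h2.trans ?_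
  have h3 : Real.exp (-((2 * T) ^ 2 / (2 * W))) ≤ p := by
    have h4 : Real.log (1 / p) ≤ (2 * T) ^ 2 / (2 * W) := by
      refine hlog.trans ?_
      rw [div_le_div_iff₀ hη (by positivity)]
      have h5 : T ^ 2 = τ ^ 2 * N * (q : ℝ) ^ 2 := by
        rw [hT, mul_pow, mul_pow, Real.sq_sqrt hNR.le]
      have h6 : (2 * T) ^ 2 = 4 * (τ ^ 2 * N * (q : ℝ) ^ 2) := by rw [mul_pow, h5]; ring
      rw [h6, hW]
      have h7 : τ ^ 2 * N * 8 ≤ τ ^ 2 * N * (η * (q : ℝ) ^ 2) :=
        mul_le_mul_of_nonneg_left hηq (by positivity)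
      nlinarith
    have h8 : Real.exp (-((2 * T) ^ 2 / (2 * W))) ≤ Real.exp (-(Real.log (1 / p))) :=
      Real.exp_le_exp.2 (by linarith)
    rw [Real.exp_neg (Real.log (1 / p)), Real.exp_log (by positivity), inv_div, div_one] at h8
    exact h8
  calc (2 : ℝ) ^ N * Real.exp (-((2 * T) ^ 2 / (2 * W))) ≤ 2 ^ N * p :=
        mul_le_mul_of_nonneg_left h3 (by positivity)
    _ = _ := by ring

/-- The upper bound in terms of the parameters of the construction. -/
theorem grid_core2 (hIso : IsoStmt) (hLO : LOStmt) (hHo : HoeffStmt) (hGood : GoodStmt)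
    {n m q N : ℕ} {c ε τ η p : ℝ} (hp : 0 < p) (hpe : p ≤ ε) (hq : 8 ≤ q) (hN : 0 < N) (hn : 0 < n)
    (hτ : 0 < τ) (hη : 0 < η) (hε : 0 < ε) (hεc : ε ≤ c) (hηq : 8 ≤ η * (q : ℝ) ^ 2)
    (hlog : Real.log (1 / p) ≤ τ ^ 2 / η) (hc' : c < 1 / 2 - 2 * τ - 1 / Real.sqrt N)
    (hm : q ^ N ≤ m)
    (hs : (q : ℝ) ^ N * Real.exp (-((1 / 2 - 2 * τ - 1 / Real.sqrt N - c) ^ 2 * n / 2)) +
      ((q : ℝ) ^ N) ^ 2 * Real.exp (-(ε * n * (Real.log (ε / p) - 1))) < 1) :
    (f n m c ε : ℝ) ≤ 12 * m * Real.exp (-(η * N / 64)) := by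
  have hq0 : 0 < q := by omega
  have hqR : (0 : ℝ) < q := by exact_mod_cast hq0
  have hNR : (0 : ℝ) < N := by exact_mod_cast hN
  have hnR : (0 : ℝ) < n := by exact_mod_cast hn
  set T : ℝ := τ * Real.sqrt N * q with hT
  let V := {v : Fin N → Fin q // Good q N v}
  let near : V → V → Prop := fun v w => ∑ i, cost q (v.1 i) (Fin.rev (w.1 i)) < η * N / 32
  have hVcard : (Fintype.card V : ℝ) ≤ (q : ℝ) ^ N := by
    have h1 : Fintype.card V ≤ Fintype.card (Fin N → Fin q) :=
      Fintype.card_le_of_injective Subtype.val Subtype.val_injective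
    rw [Fintype.card_fun, Fintype.card_fin, Fintype.card_fin] at h1
    exact_mod_cast h1
  have hVcard2 : (q : ℝ) ^ N ≤ 6 * (Fintype.card V : ℝ) := by
    have h1 := hGood q N hq
    have h2 : Fintype.card V = (univ.filter (fun v : Fin N → Fin q => Good q N v)).card :=
      Fintype.card_subtype _
    rw [h2]; exact h1
  have hV0R : (0 : ℝ) < Fintype.card V := by
    have : (0 : ℝ) < (q : ℝ) ^ N := by positivity
    linarith
  have hV0 : 0 < Fintype.card V := by exact_mod_cast hV0R
  have hc0 : 0 < c := hε.trans_le hεc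
  have hΩ : (Fintype.card (Fin N → Bool) : ℝ) = 2 ^ N := by
    rw [Fintype.card_fun, Fintype.card_bool, Fintype.card_fin]; push_cast; rfl
  obtain ⟨B, hs1, hs2⟩ : ∃ B : V → Finset (Fin n), (∀ v, c * n < ((B v).card : ℝ)) ∧
      ∀ v w, near v w → ((B v ∩ B w).card : ℝ) ≤ ε * n := by
   obtain ⟨s, hs1, hs2⟩ := samp2 (Fin N → Bool) V (fun v => cap q T v.1) near n c
    (1 / 2 - 2 * τ - 1 / Real.sqrt N) ε p hc0.le hc'
    (by have : 0 < 1 / Real.sqrt N := by positivity
        linarith) hp hpe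
    (by intro v
        rw [hΩ]
        exact cap_card hLO hq0 hN hτ v.2)
    (by intro v w hvw
        rw [hΩ]
        exact cap_inter2 hHo hq0 hN hτ hη hp hηq hlog hvw _
          (fun s hs => by simpa only [Finset.mem_inter] using hs))
    (by
      refine lt_of_le_of_lt ?_ hs
      apply add_le_add
      · exact mul_le_mul_of_nonneg_right hVcard (Real.exp_pos _).le
      · apply mul_le_mul_of_nonneg_right _ (Real.exp_pos _).le
        exact pow_le_pow_left₀ hV0R.le hVcard 2)
   exact ⟨_, hs1, hs2⟩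
  set M : ℕ := Fintype.card V with hM
  have hMm : M ≤ m := by
    have h1 : (M : ℝ) ≤ m := hVcard.trans (by exact_mod_cast hm)
    exact_mod_cast h1
  let e : Fin M ≃ V := (Fintype.equivFin V).symm
  let h : Fin m → V := fun i => e ⟨i.val % M, Nat.mod_lt _ hV0⟩
  apply f_le _ (fun i => B (h i))
  · intro i
    exact hs1 (h i)
  intro I hI
  set F := I.image h with hF
  have hfar : ∀ x ∈ F, ∀ y ∈ F, ¬ near x y := by
    intro x hx y hy hxy
    obtain ⟨i, hi, rfl⟩ := mem_image.1 hx
    obtain ⟨j, hj, rfl⟩ := mem_image.1 hy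
    have h2 := hs2 _ _ hxy
    by_cases hij : i = j
    · subst hij
      rw [inter_self] at h2
      have h3 := hs1 (h i)
      have h4 : ε * n ≤ c * n := mul_le_mul_of_nonneg_right hεc hnR.le
      linarith
    · have h3 := hI i hi j hj hij
      linarith
  have hFcard : (F.card : ℝ) ≤ (q : ℝ) ^ N * Real.exp (-(η * N / 64)) := by
    have h1 := hIso q N (F.map (Function.Embedding.subtype _)) (η * N / 32) hq0 (by
      intro x hx y hy
      rw [mem_map] at hx hy
      obtain ⟨x', hx', rfl⟩ := hx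
      obtain ⟨y', hy', rfl⟩ := hy
      have := hfar x' hx' y' hy'
      simp only [near, not_lt] at this
      exact this)
    rw [card_map] at h1
    refine h1.trans (le_of_eq ?_)
    congr 2
    ring
  have hfib : ∀ a ∈ F, (I.filter (fun i => h i = a)).card ≤ m / M + 1 := by
    intro a _
    have h1 : (I.filter (fun i => h i = a)).card ≤ (Finset.range (m / M + 1)).card := by
      apply Finset.card_le_card_of_injOn (fun i => i.val / M)
      · intro i _
        simp only [Finset.coe_range, Set.mem_Iio]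
        have := Nat.div_le_div_right (c := M) i.isLt.le
        omega
      · intro i hi j hj hij
        simp only [Finset.coe_filter, Set.mem_ofPred_eq] at hi hj
        have h2 : h i = h j := by rw [hi.2, hj.2]
        have h3 : i.val % M = j.val % M := by
          have := e.injective h2
          simpa using this
        apply Fin.ext
        rw [← Nat.div_add_mod i.val M, ← Nat.div_add_mod j.val M, h3]
        congr 2
    simpa using h1
  have hcardI : I.card ≤ (m / M + 1) * F.card :=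
    Finset.card_le_mul_card_image (f := h) I (m / M + 1) hfib
  have hcardI' : (I.card : ℝ) ≤ (2 * m / M) * F.card := by
    have h1 : (I.card : ℝ) ≤ ((m / M + 1 : ℕ) : ℝ) * F.card := by exact_mod_cast hcardI
    refine h1.trans (mul_le_mul_of_nonneg_right ?_ (by positivity))
    push_cast
    have h2 : (((m / M : ℕ)) : ℝ) ≤ (m : ℝ) / M := Nat.cast_div_le
    have h3 : (1 : ℝ) ≤ (m : ℝ) / M := by
      rw [one_le_div hV0R]
      exact_mod_cast hMm
    have h4 : 2 * (m : ℝ) / M = (m : ℝ) / M + (m : ℝ) / M := by ring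
    rw [h4]
    linarith
  calc (I.card : ℝ) ≤ (2 * m / M) * F.card := hcardI'
    _ ≤ (2 * m / M) * ((q : ℝ) ^ N * Real.exp (-(η * N / 64))) :=
        mul_le_mul_of_nonneg_left hFcard (by positivity)
    _ ≤ (2 * m / M) * ((6 * M) * Real.exp (-(η * N / 64))) := by
        apply mul_le_mul_of_nonneg_left _ (by positivity)
        exact mul_le_mul_of_nonneg_right hVcard2 (Real.exp_pos _).le
    _ = 12 * m * Real.exp (-(η * N / 64)) := by
        field_simp
        ring


theorem wide : WideStmt := by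
  intro n m c ε X Λ hn hm hε hεc hc hX hΛ
  set γ : ℝ := 1 / 2 - c with hγ
  have hγ0 : 0 < γ := by linarith
  have hγ1 : γ < 1 / 2 := by linarith
  have hγ2 : γ ^ 2 < 1 / 4 := by nlinarith
  have hnR : (0 : ℝ) < n := by exact_mod_cast hn
  have hmR : (1 : ℝ) ≤ m := by exact_mod_cast hm
  have hm0 : (0 : ℝ) < m := by linarith
  have hlogm : 0 ≤ Real.log m := Real.log_nonneg hmR
  have hX0 : 0 ≤ X := by rw [hX]; exact le_min hlogm (by positivity)
  have hX1 : X ≤ Real.log m := by rw [hX]; exact min_le_left _ _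
  have hX2 : X ≤ γ ^ 2 / 16 * n := by rw [hX]; exact min_le_right _ _
  set y : ℝ := 3 * X / (ε * n) with hy
  have hy0 : 0 ≤ y := by positivity
  set ℓ : ℝ := Real.log (8 / ε) + y with hℓ
  have hℓ2 : 2 < ℓ := by
    have h1 : Real.log 16 ≤ Real.log (8 / ε) := by
      apply Real.log_le_log (by norm_num)
      rw [le_div_iff₀ hε]; linarith
    have h2 : Real.log 16 = 4 * Real.log 2 := by
      rw [show (16 : ℝ) = 2 ^ 4 by norm_num, Real.log_pow]; norm_num
    have h3 : (0.6931471803 : ℝ) < Real.log 2 := Real.log_two_gt_d9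
    linarith
  have hΛγ : Λ * γ ^ 2 = 64 * ℓ := by rw [hΛ]; field_simp
  have hΛ512 : 512 < Λ := by
    by_contra hcon
    push Not at hcon
    have : Λ * γ ^ 2 ≤ 512 * (1 / 4) := by
      have h1 : Λ * γ ^ 2 ≤ 512 * γ ^ 2 := mul_le_mul_of_nonneg_right hcon (by positivity)
      linarith
    linarith
  have hΛ0 : 0 < Λ := by linarith
  set η : ℝ := 1 / Λ with hη
  have hη0 : 0 < η := by positivity
  have hηΛ : η * Λ = 1 := by rw [hη]; field_simp
  set τ : ℝ := γ / 8 with hτ
  have hτ0 : 0 < τ := by positivity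
  have hτη : τ ^ 2 / η = ℓ := by
    rw [hτ, hη, div_div_eq_mul_div, div_one]
    have : (γ / 8) ^ 2 * Λ = (Λ * γ ^ 2) / 64 := by ring
    rw [this, hΛγ]; ring
  set q : ℕ := ⌈Real.sqrt (8 * Λ)⌉₊ with hq
  have hsq : Real.sqrt (8 * Λ) ^ 2 = 8 * Λ := Real.sq_sqrt (by positivity)
  have hs64 : 64 ≤ Real.sqrt (8 * Λ) := by
    apply Real.le_sqrt_of_sq_le
    linarith
  have hq1 : Real.sqrt (8 * Λ) ≤ q := Nat.le_ceil _
  have hq2 : (q : ℝ) ≤ Real.sqrt (8 * Λ) + 1 := (Nat.ceil_lt_add_one (by positivity)).le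
  have hq8R : (64 : ℝ) ≤ q := hs64.trans hq1
  have hq8 : 8 ≤ q := by
    have : 64 ≤ q := by exact_mod_cast hq8R
    omega
  have hq0R : (0 : ℝ) < q := by linarith
  have hqsq : 8 * Λ ≤ (q : ℝ) ^ 2 := by
    rw [← hsq]; exact pow_le_pow_left₀ (by positivity) hq1 2
  have hηq : 8 ≤ η * (q : ℝ) ^ 2 := by
    have h1 : η * (8 * Λ) ≤ η * (q : ℝ) ^ 2 := mul_le_mul_of_nonneg_left hqsq hη0.le
    have h2 : η * (8 * Λ) = 8 := by
      calc η * (8 * Λ) = 8 * (η * Λ) := by ring
        _ = 8 := by rw [hηΛ]; norm_num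
    linarith
  have hqsq2 : (q : ℝ) ^ 2 ≤ 9 * Λ := by
    have h1 : (q : ℝ) ^ 2 ≤ (Real.sqrt (8 * Λ) + 1) ^ 2 := pow_le_pow_left₀ hq0R.le hq2 2
    have h2 : (Real.sqrt (8 * Λ) + 1) ^ 2 = 8 * Λ + 2 * Real.sqrt (8 * Λ) + 1 := by
      rw [add_sq, hsq]; ring
    have h3 : 2 * Real.sqrt (8 * Λ) + 1 ≤ Λ := by
      have h4 : Real.sqrt (8 * Λ) * 64 ≤ Real.sqrt (8 * Λ) * Real.sqrt (8 * Λ) :=
        mul_le_mul_of_nonneg_left hs64 (by positivity)
      have h5 : Real.sqrt (8 * Λ) * Real.sqrt (8 * Λ) = 8 * Λ := by rw [← sq]; exact hsq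
      linarith
    linarith
  have hlogq : 2 * Real.log q ≤ Real.log (9 * Λ) := by
    have h1 := Real.log_le_log (by positivity) hqsq2
    rw [Real.log_pow] at h1
    exact_mod_cast h1
  have hlogq1 : 1 ≤ Real.log q := by
    have h1 : Real.log 8 ≤ Real.log q := Real.log_le_log (by norm_num) (by linarith)
    have h2 : Real.log 8 = 3 * Real.log 2 := by
      rw [show (8 : ℝ) = 2 ^ 3 by norm_num, Real.log_pow]; norm_num
    have h3 : (0.6931471803 : ℝ) < Real.log 2 := Real.log_two_gt_d9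
    linarith
  have hlogq0 : 0 < Real.log q := by linarith
  set lΛ : ℝ := Real.log (9 * Λ) with hlΛ
  have hlΛ0 : 0 < lΛ := by linarith
  set N : ℕ := ⌊X / Real.log q⌋₊ with hN
  have hN1 : (N : ℝ) ≤ X / Real.log q := Nat.floor_le (by positivity)
  have hN2 : X / Real.log q < N + 1 := Nat.lt_floor_add_one _
  have hN3 : (N : ℝ) * Real.log q ≤ X := by rwa [le_div_iff₀ hlogq0] at hN1
  have hN4 : X < (N + 1) * Real.log q := by rwa [div_lt_iff₀ hlogq0] at hN2
  rcases lt_or_ge (N : ℝ) (16 / γ ^ 2) with h | h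
  · -- trivial range
    have h2 : (f n m c ε : ℝ) ≤ m := by exact_mod_cast (f_mem n m c ε).1
    have hx : X / (32 * Λ * lΛ) ≤ 1 / 2 := by
      rw [div_le_iff₀ (by positivity)]
      have h3 : X ≤ (16 / γ ^ 2 + 1) * Real.log q := by
        have : ((N : ℝ) + 1) * Real.log q ≤ (16 / γ ^ 2 + 1) * Real.log q :=
          mul_le_mul_of_nonneg_right (by linarith) hlogq0.le
        linarith
      have h4 : 16 / γ ^ 2 = Λ / (4 * ℓ) := by
        have : Λ = 64 * ℓ / γ ^ 2 := hΛ
        rw [this]; field_simp; norm_num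
      have h5 : Λ / (4 * ℓ) ≤ Λ := by
        apply div_le_self hΛ0.le; linarith
      have h6 : (16 / γ ^ 2 + 1) * Real.log q ≤ (2 * Λ) * (lΛ / 2) := by
        apply mul_le_mul (by rw [h4]; linarith) (by linarith) hlogq0.le (by positivity)
      nlinarith [mul_pos hΛ0 hlΛ0]
    have h3 : 1 ≤ 13 * Real.exp (-(X / (32 * Λ * lΛ))) := by
      have := Real.add_one_le_exp (-(X / (32 * Λ * lΛ)))
      linarith
    calc (f n m c ε : ℝ) ≤ m := h2
      _ = m * 1 := by ring
      _ ≤ m * (13 * Real.exp (-(X / (32 * Λ * lΛ)))) :=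
          mul_le_mul_of_nonneg_left h3 (by positivity)
      _ = _ := by ring
  · have h64 : (64 : ℝ) ≤ N := by
      refine le_trans ?_ h
      rw [le_div_iff₀ (by positivity)]
      linarith
    have hN0R : (0 : ℝ) < N := by linarith
    have hN0 : 0 < N := by exact_mod_cast hN0R
    have hsqrtN : 1 / Real.sqrt N ≤ γ / 4 := by
      have h1 : 4 / γ ≤ Real.sqrt N := by
        apply Real.le_sqrt_of_sq_le
        rw [div_pow]
        norm_num
        exact h
      have h2 : 0 < Real.sqrt N := Real.sqrt_pos.2 hN0R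
      rw [div_le_div_iff₀ h2 (by norm_num)]
      rw [div_le_iff₀ hγ0] at h1
      linarith
    have hc'1 : γ / 2 ≤ 1 / 2 - 2 * τ - 1 / Real.sqrt N - c := by
      rw [hτ]; linarith
    have hqN : (q : ℝ) ^ N = Real.exp (N * Real.log q) := by
      rw [Real.exp_nat_mul, Real.exp_log hq0R]
    have hNlog : (N : ℝ) ≤ N * Real.log q := by nlinarith
    have hNlog2 : 2 ≤ N * Real.log q := by linarith
    have hexp2 : Real.exp (-(N * Real.log q)) ≤ 1 / 4 := by
      have h1 : (1 : ℝ) + 2 ≤ Real.exp 2 := by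
        have := Real.add_one_le_exp (2 : ℝ); linarith
      have h2 : Real.exp (-(N * Real.log q)) ≤ Real.exp (-2) := Real.exp_le_exp.2 (by linarith)
      have h3 : Real.exp 2 = Real.exp 1 * Real.exp 1 := by rw [← Real.exp_add]; norm_num
      have h4 : (2.7182818283 : ℝ) < Real.exp 1 := Real.exp_one_gt_d9
      have h5 : 4 ≤ Real.exp 2 := by rw [h3]; nlinarith
      rw [Real.exp_neg 2] at h2
      refine h2.trans ?_
      rw [one_div]
      exact inv_anti₀ (by norm_num) h5
    have hp0 : 0 < ε * Real.exp (-1 - y) := by positivity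
    have hpe0 : ε * Real.exp (-1 - y) ≤ ε := by
      have h1 : Real.exp (-1 - y) ≤ 1 := Real.exp_le_one_iff.2 (by linarith)
      calc ε * Real.exp (-1 - y) ≤ ε * 1 := mul_le_mul_of_nonneg_left h1 hε.le
        _ = ε := mul_one ε
    have hcore := grid_core2 (p := ε * Real.exp (-1 - y)) (iso (tensor oneDim)) lo hoeff good (n := n) (m := m) (q := q)
      (N := N) (c := c) (ε := ε) (τ := τ) (η := η) hp0 hpe0 hq8 hN0 hn hτ0 hη0 hε hεc hηq
      (by
        rw [hτη, one_div, Real.log_inv, Real.log_mul hε.ne' (Real.exp_pos _).ne', Real.log_exp,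
          hℓ, Real.log_div (by norm_num) hε.ne']
        have h3 : (0.6931471803 : ℝ) < Real.log 2 := Real.log_two_gt_d9
        have h4 : Real.log 8 = 3 * Real.log 2 := by
          rw [show (8 : ℝ) = 2 ^ 3 by norm_num, Real.log_pow]; norm_num
        linarith) (by linarith) (by
        have h1 : (q : ℝ) ^ N ≤ m := by
          rw [hqN]
          calc Real.exp (N * Real.log q) ≤ Real.exp (Real.log m) :=
                Real.exp_le_exp.2 (hN3.trans hX1)
            _ = m := Real.exp_log hm0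
        exact_mod_cast h1) (by
        rw [hqN]
        have h1 : Real.exp (N * Real.log q) *
            Real.exp (-((1 / 2 - 2 * τ - 1 / Real.sqrt N - c) ^ 2 * n / 2)) ≤ 1 / 4 := by
          rw [← Real.exp_add]
          refine le_trans (Real.exp_le_exp.2 ?_) hexp2
          have h2 : (γ / 2) ^ 2 ≤ (1 / 2 - 2 * τ - 1 / Real.sqrt N - c) ^ 2 :=
            pow_le_pow_left₀ (by positivity) hc'1 2
          have h3 : (γ / 2) ^ 2 * n ≤ (1 / 2 - 2 * τ - 1 / Real.sqrt N - c) ^ 2 * n :=
            mul_le_mul_of_nonneg_right h2 hnR.le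
          have h4 : N * Real.log q ≤ γ ^ 2 / 16 * n :=
            hN3.trans hX2
          nlinarith
        have h2 : Real.exp (N * Real.log q) ^ 2 * Real.exp (-(ε * n *
            (Real.log (ε / (ε * Real.exp (-1 - y))) - 1))) ≤ 1 / 4 := by
          have h5 : Real.log (ε / (ε * Real.exp (-1 - y))) = 1 + y := by
            rw [div_mul_eq_div_div, div_self hε.ne', one_div, Real.log_inv, Real.log_exp]
            ring
          have h6 : ε * n * (1 + y - 1) = 3 * X := by
            rw [hy]; field_simp; ring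
          rw [h5, h6, ← Real.exp_nat_mul, ← Real.exp_add]
          refine le_trans (Real.exp_le_exp.2 ?_) hexp2
          push_cast
          linarith
        linarith)
    refine hcore.trans ?_
    have hη1 : η ≤ 1 / 512 := by
      rw [hη]; exact one_div_le_one_div_of_le (by norm_num) hΛ512.le
    have hstep : -(η * N / 64) ≤ 1 / 32768 + -(X / (32 * Λ * lΛ)) := by
      have h1 : X / (32 * Λ * lΛ) ≤ η * (N + 1) / 64 := by
        rw [div_le_iff₀ (by positivity)]
        have h2 : η * (N + 1) / 64 * (32 * Λ * lΛ) = (N + 1) * (lΛ / 2) * (η * Λ) := by ring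
        rw [h2, hηΛ, mul_one]
        have h3 : ((N : ℝ) + 1) * Real.log q ≤ (N + 1) * (lΛ / 2) :=
          mul_le_mul_of_nonneg_left (by linarith) (by positivity)
        linarith
      linarith
    have h9 := Real.exp_le_exp.2 hstep
    rw [Real.exp_add] at h9
    have h10 : Real.exp (1 / 32768) ≤ 13 / 12 := by
      have h11 := Real.abs_exp_sub_one_sub_id_le (x := (1 / 32768 : ℝ))
        (by rw [abs_of_pos (by norm_num)]; norm_num)
      have h12 := (abs_le.1 h11).2
      norm_num at h12 ⊢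
      linarith
    have hp := Real.exp_pos (-(X / (32 * Λ * lΛ)))
    calc 12 * (m : ℝ) * Real.exp (-(η * N / 64))
        ≤ 12 * m * (Real.exp (1 / 32768) * Real.exp (-(X / (32 * Λ * lΛ)))) :=
          mul_le_mul_of_nonneg_left h9 (by positivity)
      _ ≤ 12 * m * (13 / 12 * Real.exp (-(X / (32 * Λ * lΛ)))) := by
          apply mul_le_mul_of_nonneg_left _ (by positivity)
          exact mul_le_mul_of_nonneg_right h10 hp.le
      _ = _ := by ring


end Pool.Agent.Lib.MP_cecf76_co.HS
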